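import Pool.Agent.EGS.Targets

set_option autoImplicit false
open MvPolynomial hiding R

/-!
# Project EGS: numbers for the degrees `2, ..., 2`
-/

namespace Pool.Agent.EGS

open Pool.Agent.EGU

universe u

namespace NU_

theorem sh_mono {n : ℕ} {a : Fin n → ℕ} {d v G G' : ℕ} (h : Sh a d v G) (hG : G ≤ G') :
    Sh a d v G' := by
  obtain ⟨M, h1, h2, h3⟩ := h
  exact ⟨M, h1, h2, h3.trans hG⟩

theorem S_tw (n : ℕ) : ∀ j, j ≤ n → S (tw n) j = j := by
  obtain ⟨n0, n1, -⟩ := t_num n (tw n)
  intro j
  induction j with
  | zero => intro _; exact n0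
  | succ j ih =>
    intro hj
    rw [n1 j hj, ih (by omega)]
    rfl

theorem S_all (n : ℕ) : S (tw n) n = n := S_tw n n le_rfl

theorem P_tw (n x : ℕ) (hx : x ≤ n) : P (tw n) x = x := by
  obtain ⟨-, -, -, -, n4, n5, -⟩ := t_num n (tw n)
  apply le_antisymm
  · by_contra hcon
    push Not at hcon
    have h1 := n4 x
    have h2 := (n5 (x + 1) x (by omega)).1 hcon
    rw [S_tw n (x + 1) (by omega)] at h2
    omega
  · exact (n5 x x hx).2 (by rw [S_tw n x hx])

theorem Pt_tw (n d x : ℕ) (hd : 1 ≤ d) (hx : x ≤ n) : Pt (tw n) d x = x := by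
  have h1 : Pt (tw n) d x = P (tw n) x := by
    unfold Pt P
    congr 1
    refine Finset.filter_congr fun j _ => ?_
    constructor
    · exact fun h => h.2
    · exact fun h => ⟨by show 2 ≤ d + 1; omega, h⟩
  rw [h1, P_tw n x hx]

/-- The number of squarefree monomials. -/
theorem card_std (n e : ℕ) : (Std (tw n) e).card = n.choose e := by
  classical
  have h1 : (Std (tw n) e).card = (Finset.powersetCard e (Finset.univ : Finset (Fin n))).card := by
    refine Finset.card_bij (fun x _ => x.support) ?_ ?_ ?_
    · intro x hx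
      unfold Std at hx
      rw [Finset.mem_filter, Finset.mem_finsuppAntidiag] at hx
      rw [Finset.mem_powersetCard]
      refine ⟨Finset.subset_univ _, ?_⟩
      rw [← hx.1.1, ← Finset.sum_subset (Finset.subset_univ x.support)]
      · rw [Finset.card_eq_sum_ones]
        refine Finset.sum_congr rfl fun i hi => ?_
        have h2 := hx.2 i
        have h3 := Finsupp.mem_support_iff.1 hi
        show 1 = x i
        have h4 : x i < 2 := h2
        omega
      · intro i _ hi
        exact Finsupp.notMem_support_iff.1 hi
    · intro x hx y hy hxy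
      unfold Std at hx hy
      rw [Finset.mem_filter] at hx hy
      ext i
      have h2 : x i < 2 := hx.2 i
      have h3 : y i < 2 := hy.2 i
      have h4 : x i ≠ 0 ↔ y i ≠ 0 := by
        rw [← Finsupp.mem_support_iff, ← Finsupp.mem_support_iff]
        rw [hxy]
      omega
    · intro T hT
      rw [Finset.mem_powersetCard] at hT
      refine ⟨Finsupp.indicator T (fun _ _ => 1), ?_, ?_⟩
      · unfold Std
        rw [Finset.mem_filter, Finset.mem_finsuppAntidiag]
        refine ⟨⟨?_, Finset.subset_univ _⟩, ?_⟩
        · simp only [Finsupp.indicator_apply, dite_eq_ite]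
          rw [Finset.sum_ite_mem, Finset.univ_inter, Finset.sum_const, smul_eq_mul, mul_one]
          exact hT.2
        · intro i
          show (Finsupp.indicator T (fun _ _ => 1)) i < 2
          simp only [Finsupp.indicator_apply, dite_eq_ite]
          split_ifs <;> norm_num
      · ext i
        simp only [Finsupp.mem_support_iff, Finsupp.indicator_apply, dite_eq_ite]
        simp
  rw [h1, Finset.card_powersetCard, Finset.card_univ, Fintype.card_fin]

theorem one_tw (n : ℕ) : ∀ i, 1 ≤ tw n i := fun _ => by norm_num [tw]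

theorem two_tw (n : ℕ) : ∀ i, 2 ≤ tw n i := fun _ => le_rfl

theorem mono_tw (n : ℕ) : Monotone (tw n) := monotone_const

theorem card_sym (n e e' : ℕ) (h : e + e' = n) : (Std (tw n) e).card = (Std (tw n) e').card :=
  (t_std n (tw n) (one_tw n)).1 e e' (by rw [S_all, h])

/-- dimensions of the parts of the quotient -/
theorem hf (K : Type u) [Field K] (n : ℕ) (f : Fin n → R K n) (h : CI f (tw n)) (d : ℕ) :
    Module.finrank K (Jd f d) + n.choose d = Module.finrank K (Rd K n d) := by
  rw [← card_std]
  exact a_hf K n f (tw n) h d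

end NU_

end Pool.Agent.EGS
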