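import Pool.Agent.EGS.Targets

set_option autoImplicit false
open MvPolynomial hiding R

/-!
# Project EGS: p_BLC, bilinear forms without a common zero: counting by the transcendence degree
-/

namespace Pool.Agent.EGS

open Pool.Agent.EGU

universe u

noncomputable section

namespace BLC_

variable {K : Type u} [Field K] {p q c : ℕ}

/-- The weights. -/
def w (p q : ℕ) : Fin p ⊕ Fin q → ℕ × ℕ := Sum.elim (fun _ => (1, 0)) (fun _ => (0, 1))

lemma wt (d : Fin p ⊕ Fin q →₀ ℕ) :
    Finsupp.weight (w p q) d = (∑ i, d (Sum.inl i), ∑ j, d (Sum.inr j)) := by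
  rw [Finsupp.weight_apply, Finsupp.sum_fintype _ _ (by simp), Fintype.sum_sum_type]
  ext
  · simp [w, Prod.fst_sum]
  · simp [w, Prod.snd_sum]

lemma bil_hom (b : Fin p → Fin q → Fin c → K) (k : Fin c) :
    (bil b k).IsWeightedHomogeneous (w p q) ((1, 1) : ℕ × ℕ) := by
  unfold bil
  apply MvPolynomial.IsWeightedHomogeneous.sum
  intro i _
  apply MvPolynomial.IsWeightedHomogeneous.sum
  intro j _
  have h1 : (MvPolynomial.C (b i j k) : MvPolynomial (Fin p ⊕ Fin q) K).IsWeightedHomogeneous
      (w p q) 0 := MvPolynomial.isWeightedHomogeneous_C _ _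
  have h2 : (MvPolynomial.X (Sum.inl i) : MvPolynomial (Fin p ⊕ Fin q) K).IsWeightedHomogeneous
      (w p q) (w p q (Sum.inl i)) := MvPolynomial.isWeightedHomogeneous_X _ _ _
  have h3 : (MvPolynomial.X (Sum.inr j) : MvPolynomial (Fin p ⊕ Fin q) K).IsWeightedHomogeneous
      (w p q) (w p q (Sum.inr j)) := MvPolynomial.isWeightedHomogeneous_X _ _ _
  have h := h1.mul (h2.mul h3)
  have e : (0 : ℕ × ℕ) + (w p q (Sum.inl i) + w p q (Sum.inr j)) = (1, 1) := by
    simp [w]
  rwa [e] at h

lemma comp_mul (g : MvPolynomial (Fin p ⊕ Fin q) K) (m n : ℕ × ℕ)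
    (hg : g.IsWeightedHomogeneous (w p q) m) (f : MvPolynomial (Fin p ⊕ Fin q) K) :
    MvPolynomial.weightedHomogeneousComponent (w p q) (n + m) (f * g) =
      MvPolynomial.weightedHomogeneousComponent (w p q) n f * g := by
  induction f using MvPolynomial.induction_on' with
  | monomial d a =>
    have h1 : (MvPolynomial.monomial d a).IsWeightedHomogeneous (w p q)
        (Finsupp.weight (w p q) d) := MvPolynomial.isWeightedHomogeneous_monomial _ _ _ rfl
    have h2 := h1.mul hg
    rw [MvPolynomial.weightedHomogeneousComponent_of_mem h2,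
      MvPolynomial.weightedHomogeneousComponent_of_mem h1]
    by_cases h : n = Finsupp.weight (w p q) d
    · rw [if_pos h, if_pos (by rw [h])]
    · rw [if_neg h, if_neg (fun h' => h (add_right_cancel h')), zero_mul]
  | add f1 f2 h1 h2 =>
    rw [add_mul, map_add, h1, h2, map_add, add_mul]

/-- The spanning set. -/
def G (K : Type u) [Field K] (p q J0 : ℕ) : Set (MvPolynomial (Fin p ⊕ Fin q) K) :=
  (fun d : Fin p ⊕ Fin q →₀ ℕ => MvPolynomial.monomial d (1 : K)) ''
    {d | ∃ j < J0, Finsupp.weight (w p q) d = (j, j)}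

lemma G_fin (J0 : ℕ) : (G K p q J0).Finite := by
  apply Set.Finite.image
  apply Set.Finite.subset (Set.finite_Iic (Finsupp.equivFunOnFinite.symm (fun _ => J0) :
    Fin p ⊕ Fin q →₀ ℕ))
  rintro d ⟨j, hj, hd⟩
  rw [wt] at hd
  obtain ⟨h1, h2⟩ := Prod.mk.inj hd
  rw [Set.mem_Iic]
  intro x
  rcases x with i | k
  · have h3 : d (Sum.inl i) ≤ ∑ i, d (Sum.inl i) :=
      Finset.single_le_sum (f := fun i => d (Sum.inl i)) (fun _ _ => Nat.zero_le _)
        (Finset.mem_univ i)
    simp only [Finsupp.equivFunOnFinite_symm_apply_apply]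
    omega
  · have h3 : d (Sum.inr k) ≤ ∑ i, d (Sum.inr i) :=
      Finset.single_le_sum (f := fun i => d (Sum.inr i)) (fun _ _ => Nat.zero_le _)
        (Finset.mem_univ k)
    simp only [Finsupp.equivFunOnFinite_symm_apply_apply]
    omega

lemma big (n N j : ℕ) (f : Fin n → ℕ) (hf : ∑ i, f i = j) (hj : N * n + 1 ≤ j) :
    ∃ i, N ≤ f i := by
  by_contra hcon
  push Not at hcon
  have h : ∑ i, f i ≤ ∑ _i : Fin n, N := Finset.sum_le_sum fun i _ => (hcon i).le
  rw [Finset.sum_const, Finset.card_univ, Fintype.card_fin, smul_eq_mul, mul_comm] at h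
  omega

/-- The main claim. -/
lemma star (b : Fin p → Fin q → Fin c → K) (N : ℕ)
    (hb : ∀ (i : Fin p) (j : Fin q),
    (MvPolynomial.X (Sum.inl i) * MvPolynomial.X (Sum.inr j) : MvPolynomial (Fin p ⊕ Fin q) K) ^ N ∈
      Ideal.span (Set.range (bil b)))
    (A : Subalgebra K (MvPolynomial (Fin p ⊕ Fin q) K)) (hA : ∀ k, bil b k ∈ A) (J0 : ℕ)
    (hJ : N * (p + q) + 1 ≤ J0) :
    ∀ (j : ℕ) (d : Fin p ⊕ Fin q →₀ ℕ), Finsupp.weight (w p q) d = (j, j) →
      MvPolynomial.monomial d (1 : K) ∈ Submodule.span A (G K p q J0) := by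
  intro j
  induction j using Nat.strong_induction_on with
  | _ j ih =>
  intro d hd
  by_cases hjJ : j < J0
  · exact Submodule.subset_span ⟨d, ⟨j, hjJ, hd⟩, rfl⟩
  have hd' := hd
  rw [wt] at hd'
  obtain ⟨hd1, hd2⟩ := Prod.mk.inj hd'
  have hNpq : N * (p + q) = N * p + N * q := by ring
  obtain ⟨i, hi⟩ := big p N j _ hd1 (by omega)
  obtain ⟨k, hk⟩ := big q N j _ hd2 (by omega)
  -- the monomial is in the ideal
  have hmem : MvPolynomial.monomial d (1 : K) ∈ Ideal.span (Set.range (bil b)) := by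
    have hle : N • (Finsupp.single (Sum.inl i) 1 + Finsupp.single (Sum.inr k) 1) ≤ d := by
      intro x
      simp only [Finsupp.smul_apply, Finsupp.add_apply, smul_eq_mul]
      rcases x with x | x
      · by_cases hx : x = i
        · subst hx
          simpa using hi
        · simp [Ne.symm hx]
      · by_cases hx : x = k
        · subst hx
          simpa using hk
        · simp [Ne.symm hx]
    have h1 : MvPolynomial.monomial d (1 : K) =
        (MvPolynomial.X (Sum.inl i) * MvPolynomial.X (Sum.inr k)) ^ N *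
        MvPolynomial.monomial
          (d - N • (Finsupp.single (Sum.inl i) 1 + Finsupp.single (Sum.inr k) 1)) (1 : K) := by
      rw [MvPolynomial.X, MvPolynomial.X, MvPolynomial.monomial_mul, MvPolynomial.monomial_pow,
        MvPolynomial.monomial_mul, add_tsub_cancel_of_le hle]
      simp
    rw [h1]
    exact Ideal.mul_mem_right _ _ (hb i k)
  rw [Ideal.mem_span_range_iff_exists_fun] at hmem
  obtain ⟨h, hh⟩ := hmem
  have hj1 : 1 ≤ j := by omega
  have e1 : ((j - 1, j - 1) : ℕ × ℕ) + (1, 1) = (j, j) := by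
    rw [Prod.mk_add_mk]
    congr 1 <;> omega
  have h2 : MvPolynomial.monomial d (1 : K) = ∑ k, bil b k *
      MvPolynomial.weightedHomogeneousComponent (w p q) (j - 1, j - 1) (h k) := by
    have h3 : MvPolynomial.weightedHomogeneousComponent (w p q) ((j, j) : ℕ × ℕ)
        (MvPolynomial.monomial d (1 : K)) = MvPolynomial.monomial d (1 : K) :=
      MvPolynomial.weightedHomogeneousComponent_eq_self
        (MvPolynomial.isWeightedHomogeneous_monomial _ _ _ hd)
    rw [← h3, ← hh, map_sum]
    apply Finset.sum_congr rfl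
    intro k _
    rw [← e1, comp_mul _ _ _ (bil_hom b k), mul_comm]
  rw [h2]
  apply Submodule.sum_mem
  intro k _
  have hcomp : MvPolynomial.weightedHomogeneousComponent (w p q) (j - 1, j - 1) (h k) ∈
      Submodule.span A (G K p q J0) := by
    have h4 := MvPolynomial.weightedHomogeneousComponent_isWeightedHomogeneous (w := w p q)
      ((j - 1, j - 1) : ℕ × ℕ) (h k)
    rw [(MvPolynomial.weightedHomogeneousComponent (w p q) (j - 1, j - 1) (h k)).as_sum]
    apply Submodule.sum_mem
    intro e he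
    have h5 := h4 (MvPolynomial.mem_support_iff.1 he)
    have h6 := ih (j - 1) (by omega) e h5
    have h7 : MvPolynomial.monomial e (MvPolynomial.coeff e
        (MvPolynomial.weightedHomogeneousComponent (w p q) (j - 1, j - 1) (h k))) =
        (algebraMap K A (MvPolynomial.coeff e
        (MvPolynomial.weightedHomogeneousComponent (w p q) (j - 1, j - 1) (h k)))) •
          MvPolynomial.monomial e (1 : K) := by
      rw [algebraMap_smul, MvPolynomial.smul_monomial, smul_eq_mul, mul_one]
    rw [h7]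
    exact Submodule.smul_mem _ _ h6
  exact Submodule.smul_mem _ (⟨bil b k, hA k⟩ : A) hcomp

lemma integral (b : Fin p → Fin q → Fin c → K) (N : ℕ)
    (hb : ∀ (i : Fin p) (j : Fin q),
    (MvPolynomial.X (Sum.inl i) * MvPolynomial.X (Sum.inr j) : MvPolynomial (Fin p ⊕ Fin q) K) ^ N ∈
      Ideal.span (Set.range (bil b)))
    (A : Subalgebra K (MvPolynomial (Fin p ⊕ Fin q) K)) (hA : ∀ k, bil b k ∈ A)
    (i : Fin p) (k : Fin q) :
    IsIntegral A (MvPolynomial.X (Sum.inl i) * MvPolynomial.X (Sum.inr k) :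
      MvPolynomial (Fin p ⊕ Fin q) K) := by
  have hst := star b N hb A hA (N * (p + q) + 1) le_rfl
  apply isIntegral_of_smul_mem_submodule (M := MvPolynomial (Fin p ⊕ Fin q) K)
    (Submodule.span A (G K p q (N * (p + q) + 1)))
  · intro hbot
    have h1 := hst 0 0 (by rw [map_zero]; rfl)
    rw [hbot, Submodule.mem_bot] at h1
    simp at h1
  · exact Submodule.fg_span (G_fin _)
  · intro n hn
    rw [smul_eq_mul]
    induction hn using Submodule.span_induction with
    | mem x hx =>
      obtain ⟨d, ⟨j, _, hd⟩, rfl⟩ := hx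
      have h1 : (MvPolynomial.X (Sum.inl i) * MvPolynomial.X (Sum.inr k) :
          MvPolynomial (Fin p ⊕ Fin q) K) * MvPolynomial.monomial d (1 : K) =
          MvPolynomial.monomial
            (Finsupp.single (Sum.inl i) 1 + Finsupp.single (Sum.inr k) 1 + d) (1 : K) := by
        rw [MvPolynomial.X, MvPolynomial.X, MvPolynomial.monomial_mul,
          MvPolynomial.monomial_mul]
        simp
      change (MvPolynomial.X (Sum.inl i) * MvPolynomial.X (Sum.inr k) :
          MvPolynomial (Fin p ⊕ Fin q) K) * MvPolynomial.monomial d (1 : K) ∈ _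
      rw [h1]
      apply hst (j + 1)
      rw [map_add, map_add, hd, Finsupp.weight_single, Finsupp.weight_single]
      simp only [w, Sum.elim_inl, Sum.elim_inr, one_smul, Prod.mk_add_mk]
      congr 1 <;> omega
    | zero => rw [mul_zero]; exact Submodule.zero_mem _
    | add x y _ _ hx hy =>
      rw [mul_add (MvPolynomial.X (Sum.inl i) * MvPolynomial.X (Sum.inr k))]
      exact Submodule.add_mem _ hx hy
    | smul a x _ hx => rw [mul_smul_comm]; exact Submodule.smul_mem _ _ hx

end BLC_

open BLC_ in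
theorem p_BLC : T_BLC.{u} := by
  intro K _ p q c N b hp hq hb
  let i0 : Fin p := ⟨0, hp⟩
  let j0 : Fin q := ⟨0, hq⟩
  let s : Set (MvPolynomial (Fin p ⊕ Fin q) K) :=
    Set.range (bil b) ∪ {MvPolynomial.X (Sum.inl i0)}
  let A := Algebra.adjoin K s
  have hA : ∀ k, bil b k ∈ A := fun k => Algebra.subset_adjoin (Or.inl ⟨k, rfl⟩)
  have hX0 : (MvPolynomial.X (Sum.inl i0) : MvPolynomial (Fin p ⊕ Fin q) K) ∈ A :=
    Algebra.subset_adjoin (Or.inr rfl)
  have hint := integral b N hb A hA
  have hne : ∀ x : Fin p ⊕ Fin q, (MvPolynomial.X x : MvPolynomial (Fin p ⊕ Fin q) K) ∈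
      nonZeroDivisors (MvPolynomial (Fin p ⊕ Fin q) K) := fun x =>
    mem_nonZeroDivisors_of_ne_zero (MvPolynomial.X_ne_zero x)
  have h0 : IsAlgebraic A (MvPolynomial.X (Sum.inl i0) : MvPolynomial (Fin p ⊕ Fin q) K) :=
    isAlgebraic_algebraMap (⟨_, hX0⟩ : A)
  have h1 : ∀ j : Fin q,
      IsAlgebraic A (MvPolynomial.X (Sum.inr j) : MvPolynomial (Fin p ⊕ Fin q) K) := fun j =>
    IsAlgebraic.of_mul (hne _) h0 (hint i0 j).isAlgebraic
  have h2 : ∀ i : Fin p,
      IsAlgebraic A (MvPolynomial.X (Sum.inl i) : MvPolynomial (Fin p ⊕ Fin q) K) := fun i =>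
    IsAlgebraic.of_mul (hne _) (h1 j0) (by
      rw [mul_comm]
      exact (hint i j0).isAlgebraic)
  have halg : Algebra.IsAlgebraic A (MvPolynomial (Fin p ⊕ Fin q) K) := by
    constructor
    intro f
    induction f using MvPolynomial.induction_on with
    | C a => exact isAlgebraic_algebraMap (algebraMap K A a)
    | add f g hf hg => exact hf.add hg
    | mul_X f x hf =>
      rcases x with x | x
      · exact hf.mul (h2 x)
      · exact hf.mul (h1 x)
  have hle := Algebra.IsAlgebraic.trdeg_le_cardinalMk K s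
  rw [MvPolynomial.trdeg_of_isDomain] at hle
  have hs : Cardinal.mk s ≤ (c : Cardinal) + 1 := by
    refine (Cardinal.mk_union_le _ _).trans ?_
    rw [Cardinal.mk_singleton]
    gcongr
    have h := Cardinal.mk_range_le_lift (f := bil b)
    simpa using h
  have h3 := hle.trans hs
  simp only [Cardinal.mk_fintype, Fintype.card_sum, Fintype.card_fin,
    Cardinal.lift_natCast] at h3
  exact_mod_cast h3

end

end Pool.Agent.EGS
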