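import Pool.Agent.EGS.Targets

set_option autoImplicit false
open MvPolynomial hiding R

/-!
# EGS: BLN, the Nullstellensatz for bilinear forms
-/

namespace Pool.Agent.EGS

open Pool.Agent.EGU

universe u

noncomputable section

namespace BLN_

variable {K : Type u} [Field K] {p q c : ℕ}

theorem aeval_bil (b : Fin p → Fin q → Fin c → K) (k : Fin c) (z : Fin p ⊕ Fin q → K) :
    MvPolynomial.aeval z (bil b k) =
      ∑ i, ∑ j, b i j k * (z (Sum.inl i) * z (Sum.inr j)) := by
  simp [bil, map_sum]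

theorem mem_radical [IsAlgClosed K] (b : Fin p → Fin q → Fin c → K)
    (h : ∀ (x : Fin p → K) (y : Fin q → K), (∀ k, ∑ i, ∑ j, b i j k * (x i * y j) = 0) →
      x = 0 ∨ y = 0) (i : Fin p) (j : Fin q) :
    (MvPolynomial.X (Sum.inl i) * MvPolynomial.X (Sum.inr j) : MvPolynomial (Fin p ⊕ Fin q) K) ∈
      (Ideal.span (Set.range (bil b))).radical := by
  rw [← MvPolynomial.vanishingIdeal_zeroLocus_eq_radical (K := K),
    MvPolynomial.mem_vanishingIdeal_iff]
  intro z hz
  rw [MvPolynomial.mem_zeroLocus_iff] at hz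
  have h1 : ∀ k, ∑ i, ∑ j, b i j k * (z (Sum.inl i) * z (Sum.inr j)) = 0 := by
    intro k
    rw [← aeval_bil]
    exact hz _ (Ideal.subset_span ⟨k, rfl⟩)
  rw [map_mul, MvPolynomial.aeval_X, MvPolynomial.aeval_X]
  rcases h (fun i => z (Sum.inl i)) (fun j => z (Sum.inr j)) h1 with h2 | h2
  · have := congrFun h2 i
    simp only [Pi.zero_apply] at this
    rw [this, zero_mul]
  · have := congrFun h2 j
    simp only [Pi.zero_apply] at this
    rw [this, mul_zero]

end BLN_

open BLN_ in
theorem p_BLN : T_BLN.{u} := by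
  intro K _ _ p q c b h
  have h1 : ∀ (i : Fin p) (j : Fin q), ∃ N : ℕ,
      (MvPolynomial.X (Sum.inl i) * MvPolynomial.X (Sum.inr j) :
        MvPolynomial (Fin p ⊕ Fin q) K) ^ N ∈ Ideal.span (Set.range (bil b)) :=
    fun i j => mem_radical b h i j
  choose N hN using h1
  refine ⟨∑ i, ∑ j, N i j, fun i j => ?_⟩
  have hle : N i j ≤ ∑ i, ∑ j, N i j :=
    le_trans (Finset.single_le_sum (f := fun j => N i j) (fun _ _ => Nat.zero_le _)
      (Finset.mem_univ j))
      (Finset.single_le_sum (f := fun i => ∑ j, N i j) (fun _ _ => Nat.zero_le _)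
        (Finset.mem_univ i))
  exact Ideal.pow_mem_of_pow_mem _ (hN i j) hle

end

end Pool.Agent.EGS
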