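import Pool.Agent.EGS.Targets

set_option autoImplicit false
open MvPolynomial hiding R

/-!
# Project EGS, target ACY: acyclicity of regular sequences
-/

namespace Pool.Agent.EGS

open Pool.Agent.EGU

universe u

namespace ACY_

variable {K : Type u} [Field K] {n m : ℕ}

theorem base (f : Fin m → R K n) (a : Fin m → ℕ) (hf : CI f a) :
    ∀ j, j ≤ m → (Finset.univ.filter (fun t : Fin m => (t : ℕ) < j)).card = j ∧
      ∀ i, i < j → Ex (⊥ : Ideal (R K n)) f
        (Finset.univ.filter (fun t : Fin m => (t : ℕ) < j)) i := by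
  intro j
  induction j with
  | zero =>
    intro _
    refine ⟨?_, fun i hi => absurd hi (Nat.not_lt_zero i)⟩
    simp
  | succ j ih =>
    intro hj
    obtain ⟨hcard, hex⟩ := ih (by omega)
    obtain ⟨t0, ht0⟩ : ∃ t0 : Fin m, t0 = ⟨j, by omega⟩ := ⟨_, rfl⟩
    have ht0v : (t0 : ℕ) = j := by rw [ht0]
    obtain ⟨U, hU⟩ : ∃ U : Finset (Fin m), U = Finset.univ.filter (fun t : Fin m => (t : ℕ) < j) :=
      ⟨_, rfl⟩
    rw [← hU] at hcard hex
    have hmem : ∀ t, t ∈ U ↔ (t : ℕ) < j := by
      intro t
      rw [hU, Finset.mem_filter]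
      simp
    have hnot : t0 ∉ U := by
      rw [hmem]
      omega
    have hins : Finset.univ.filter (fun t : Fin m => (t : ℕ) < j + 1) = insert t0 U := by
      ext t
      rw [Finset.mem_filter, Finset.mem_insert, hmem]
      constructor
      · rintro ⟨_, h⟩
        rcases Nat.lt_or_ge (t : ℕ) j with h1 | h1
        · exact Or.inr h1
        · left
          apply Fin.ext
          omega
      · rintro (h | h)
        · refine ⟨Finset.mem_univ _, ?_⟩
          rw [h]
          omega
        · exact ⟨Finset.mem_univ _, by omega⟩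
    have hset : f '' (U : Set (Fin m)) = f '' {i | i < t0} := by
      congr 1
      ext t
      rw [Finset.mem_coe, hmem]
      change (t : ℕ) < j ↔ t < t0
      rw [Fin.lt_def, ht0v]
    rw [hins]
    refine ⟨?_, ?_⟩
    · rw [Finset.card_insert_of_notMem hnot, hcard]
    · intro i hi
      refine (t_cone t_cob) K n m f ⊥ U t0 i hnot ?_ ?_
      · intro i' hi'
        exact hex i' (by omega)
      · intro c hc hb
        rcases Nat.lt_or_ge i j with hlt | hge
        · exact hex i hlt c hc
        · have hij : i = j := by omega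
          obtain ⟨b, hb⟩ := hb
          have h1 := hb U (Finset.Subset.refl U) (by rw [hcard, hij])
          rw [Ideal.mem_bot, sub_eq_zero] at h1
          have h2 : c U * f t0 ∈ Ideal.span (f '' {i | i < t0}) := by
            rw [mul_comm, h1, ← hset]
            exact BASE_.cob_mem f b U
          have h3 := hf.reg t0 (c U) h2
          rw [← hset] at h3
          obtain ⟨b', hb'⟩ := BASE_.exists_cob f U (c U) h3
          refine ⟨b', fun T hT hTc => ?_⟩
          have hTU : T = U := Finset.eq_of_subset_of_card_le hT (by omega)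
          rw [hTU, hb', sub_self]
          exact Ideal.zero_mem _

theorem base_univ (f : Fin m → R K n) (a : Fin m → ℕ) (hf : CI f a) (i : ℕ) (hi : i < m) :
    Ex (⊥ : Ideal (R K n)) f Finset.univ i := by
  have h := (base f a hf m le_rfl).2 i hi
  have h2 : Finset.univ.filter (fun t : Fin m => (t : ℕ) < m) = Finset.univ := by
    apply Finset.filter_true_of_mem
    intro t _
    exact t.2
  rwa [h2] at h

end ACY_

open ACY_

theorem p_ACY : T_ACY.{u} := by
  intro K _ n m k
  induction k with
  | zero =>
    intro f a g b hf _ i hi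
    have h : J g = ⊥ := by
      unfold J
      rw [Set.range_eq_empty, Ideal.span_empty]
    rw [h]
    exact base_univ f a hf i (by omega)
  | succ k ih =>
    intro f a g b hf hg i hi
    obtain ⟨hJ, hCI⟩ := t_cir K n k g b
    obtain ⟨hg', _, _, hnz⟩ := hCI.mp hg
    obtain ⟨cc, csub, cmul, cmem, _⟩ := t_cob K n m f
    have ih1 := ih f a (g ∘ Fin.castSucc) (b ∘ Fin.castSucc) hf hg' (i + 1) (by omega)
    have ih0 := ih f a (g ∘ Fin.castSucc) (b ∘ Fin.castSucc) hf hg' i (by omega)
    obtain ⟨γ, hγ⟩ : ∃ γ, γ = g (Fin.last k) := ⟨_, rfl⟩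
    obtain ⟨I, hI⟩ : ∃ I, I = J (g ∘ Fin.castSucc) := ⟨_, rfl⟩
    rw [← hγ] at hJ hnz
    rw [← hI] at hJ hnz ih1 ih0
    intro c hc
    have hex : ∀ T : Finset (Fin m), ∃ x : R K n, T.card = i + 1 → cob f c T - γ * x ∈ I := by
      intro T
      by_cases hT : T.card = i + 1
      · have h1 := hc T (Finset.subset_univ T) hT
        rw [hJ, Submodule.mem_sup] at h1
        obtain ⟨y, hy, z, hz, hyz⟩ := h1
        obtain ⟨x, hx⟩ := Ideal.mem_span_singleton'.mp hz
        refine ⟨x, fun _ => ?_⟩
        rw [← hyz, ← hx]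
        have : y + x * γ - γ * x = y := by ring
        rw [this]
        exact hy
      · exact ⟨0, fun h => absurd h hT⟩
    choose β hβ using hex
    have h2 : ∀ T ⊆ (Finset.univ : Finset (Fin m)), T.card = i + 1 + 1 → cob f β T ∈ I := by
      intro T _ hT
      have h3 : cob f (fun U => cob f c U - γ * β U) T ∈ I := by
        apply cmem I
        intro t ht
        apply hβ
        rw [Finset.card_erase_of_mem ht, hT]
        omega
      rw [csub, cc, cmul, zero_sub] at h3
      have h4 : cob f β T * γ ∈ I := by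
        have := Ideal.neg_mem_iff I |>.mp h3
        rwa [mul_comm] at this
      exact hnz _ h4
    obtain ⟨b', hb'⟩ := ih1 β h2
    have h5 : ∀ T ⊆ (Finset.univ : Finset (Fin m)), T.card = i + 1 →
        cob f (fun U => c U - γ * b' U) T ∈ I := by
      intro T hT hTc
      rw [csub, cmul]
      have h6 : cob f c T - γ * cob f b' T =
          (cob f c T - γ * β T) + γ * (β T - cob f b' T) := by ring
      rw [h6]
      exact Ideal.add_mem _ (hβ T hTc) (Ideal.mul_mem_left _ _ (hb' T hT hTc))
    obtain ⟨b'', hb''⟩ := ih0 _ h5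
    refine ⟨b'', fun T hT hTc => ?_⟩
    have h7 := hb'' T hT hTc
    have h8 : c T - cob f b'' T = (c T - γ * b' T - cob f b'' T) + γ * b' T := by ring
    rw [h8, hJ]
    refine Ideal.add_mem _ (Submodule.mem_sup_left h7) (Submodule.mem_sup_right ?_)
    exact Ideal.mul_mem_right _ _ (Ideal.mem_span_singleton_self γ)

end Pool.Agent.EGS
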