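import Pool.Agent.EGS.Targets

set_option autoImplicit false
open MvPolynomial hiding R

/-!
Project EGS, target AVO: prime avoidance for linear spaces.
-/

namespace Pool.Agent.EGS

open Pool.Agent.EGU

universe u

theorem p_AVO : T_AVO.{u} := by
  intro K _ _ n I V hV
  have hz := biUnion_associatedPrimes_eq_zero_divisors (R K n) (R K n ⧸ I)
  have hfin : (associatedPrimes (R K n) (R K n ⧸ I)).Finite :=
    associatedPrimes.finite (R K n) (R K n ⧸ I)
  have : Finite (associatedPrimes (R K n) (R K n ⧸ I)) := hfin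
  let p : associatedPrimes (R K n) (R K n ⧸ I) → Subspace K V := fun P =>
    (P.1.restrictScalars K).comap V.subtype
  have hcov : (⋃ i, (p i : Set V)) = Set.univ := by
    rw [Set.eq_univ_iff_forall]
    intro v
    obtain ⟨h, hh, hvh⟩ := hV v.1 v.2
    have hmem : v.1 ∈ ({ r : R K n | ∃ x : R K n ⧸ I, x ≠ 0 ∧ r • x = 0 } : Set (R K n)) := by
      refine ⟨Ideal.Quotient.mk I h, ?_, ?_⟩
      · intro h0
        exact hh (Ideal.Quotient.eq_zero_iff_mem.mp h0)
      · have : v.1 • Ideal.Quotient.mk I h = Ideal.Quotient.mk I (v.1 * h) := by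
          rw [map_mul]; rfl
        rw [this]
        exact Ideal.Quotient.eq_zero_iff_mem.mpr hvh
    rw [← hz] at hmem
    obtain ⟨P, hP, hvP⟩ := Set.mem_iUnion₂.mp hmem
    exact Set.mem_iUnion.mpr ⟨⟨P, hP⟩, hvP⟩
  obtain ⟨⟨P, hP⟩, hPt⟩ := Subspace.exists_eq_top_of_iUnion_eq_univ hcov
  have hP' : IsAssociatedPrime P (R K n ⧸ I) := hP
  rw [isAssociatedPrime_iff] at hP'
  obtain ⟨hprime, x, hx⟩ := hP'
  obtain ⟨h, rfl⟩ := Ideal.Quotient.mk_surjective x
  refine ⟨h, ?_, ?_⟩
  · intro hI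
    apply hprime.ne_top
    rw [hx, Ideal.Quotient.eq_zero_iff_mem.mpr hI]
    ext r
    simp
  · intro v hv
    have hvP : v ∈ P := by
      have : (⟨v, hv⟩ : V) ∈ p ⟨P, hP⟩ := by rw [hPt]; trivial
      exact this
    rw [hx, Submodule.mem_colon_singleton] at hvP
    have h2 : Ideal.Quotient.mk I (v * h) = 0 := by
      rw [map_mul]
      exact (Submodule.mem_bot (R K n)).mp hvP
    exact Ideal.Quotient.eq_zero_iff_mem.mp h2

end Pool.Agent.EGS
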