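import Pool.Agent.EGS.Targets

set_option autoImplicit false
open MvPolynomial hiding R

/-!
# EGS: RED, elimination of a linear form
-/

namespace Pool.Agent.EGS

open Pool.Agent.EGU

universe u

namespace RED_

variable {K : Type u} [Field K] {n : ℕ}

/-- A linear form is a combination of the variables. -/
theorem lin (p : R K (n + 1)) (hp : p.IsHomogeneous 1) :
    ∃ c : Fin (n + 1) → K, p = ∑ i, c i • (X i : R K (n + 1)) := by
  have h1 : p ∈ homogeneousSubmodule (Fin (n + 1)) K 1 := hp
  rw [homogeneousSubmodule_one_eq_span_X] at h1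
  obtain ⟨c, hc⟩ := (Submodule.mem_span_range_iff_exists_fun K).mp h1
  exact ⟨c, hc.symm⟩

/-- The elimination map. -/
noncomputable def el (c : Fin (n + 1) → K) (i0 : Fin (n + 1)) : R K (n + 1) →ₐ[K] R K n :=
  aeval (Fin.insertNth (α := fun _ => R K n) i0
    (-(c i0)⁻¹ • ∑ j, c (i0.succAbove j) • (X j : R K n)) fun j => X j)

/-- The section. -/
noncomputable def sc (i0 : Fin (n + 1)) : R K n →ₐ[K] R K (n + 1) :=
  aeval fun j => X (i0.succAbove j)

theorem el_same (c : Fin (n + 1) → K) (i0 : Fin (n + 1)) :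
    el c i0 (X i0) = -(c i0)⁻¹ • ∑ j, c (i0.succAbove j) • (X j : R K n) := by
  unfold el
  rw [aeval_X, Fin.insertNth_apply_same]

theorem el_succ (c : Fin (n + 1) → K) (i0 : Fin (n + 1)) (j : Fin n) :
    el c i0 (X (i0.succAbove j)) = X j := by
  unfold el
  rw [aeval_X, Fin.insertNth_apply_succAbove]

theorem sc_X (i0 : Fin (n + 1)) (j : Fin n) :
    sc (K := K) i0 (X j) = X (i0.succAbove j) := by
  unfold sc
  rw [aeval_X]

theorem el_sc (c : Fin (n + 1) → K) (i0 : Fin (n + 1)) (q : R K n) :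
    el c i0 (sc i0 q) = q := by
  have h : (el c i0).comp (sc i0) = AlgHom.id K (R K n) := by
    apply MvPolynomial.algHom_ext
    intro j
    rw [AlgHom.comp_apply, sc_X, el_succ, AlgHom.id_apply]
  have := DFunLike.congr_fun h q
  simpa using this

theorem el_lin (c : Fin (n + 1) → K) (i0 : Fin (n + 1)) (h0 : c i0 ≠ 0) :
    el c i0 (∑ i, c i • (X i : R K (n + 1))) = 0 := by
  rw [map_sum, Fin.sum_univ_succAbove _ i0, map_smul, el_same]
  have h1 : ∀ j, el c i0 (c (i0.succAbove j) • X (i0.succAbove j)) =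
      c (i0.succAbove j) • (X j : R K n) := by
    intro j
    rw [map_smul, el_succ]
  simp_rw [h1]
  rw [smul_smul, mul_neg, mul_inv_cancel₀ h0, neg_one_smul, neg_add_cancel]

theorem sub_mem (c : Fin (n + 1) → K) (i0 : Fin (n + 1)) (h0 : c i0 ≠ 0) (p : R K (n + 1)) :
    p - sc i0 (el c i0 p) ∈ Ideal.span {∑ i, c i • (X i : R K (n + 1))} := by
  induction p using MvPolynomial.induction_on with
  | C a =>
    have : sc i0 (el c i0 (C a)) = C a := by
      rw [← MvPolynomial.algebraMap_eq, AlgHom.commutes, AlgHom.commutes]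
    rw [this, sub_self]
    exact Ideal.zero_mem _
  | add p q hp hq =>
    have : p + q - sc i0 (el c i0 (p + q)) =
        (p - sc i0 (el c i0 p)) + (q - sc i0 (el c i0 q)) := by
      rw [map_add, map_add]
      ring
    rw [this]
    exact Ideal.add_mem _ hp hq
  | mul_X p i hp =>
    have h1 : (X i : R K (n + 1)) - sc i0 (el c i0 (X i)) ∈
        Ideal.span {∑ i, c i • (X i : R K (n + 1))} := by
      rcases Fin.eq_self_or_eq_succAbove i0 i with h | ⟨j, h⟩
      · rw [h, el_same, map_smul, map_sum]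
        have h2 : (X i0 : R K (n + 1)) -
            -(c i0)⁻¹ • ∑ x, sc i0 (c (i0.succAbove x) • (X x : R K n)) =
            (c i0)⁻¹ • ∑ i, c i • (X i : R K (n + 1)) := by
          have h3 : ∀ x, sc i0 (c (i0.succAbove x) • (X x : R K n)) =
              c (i0.succAbove x) • (X (i0.succAbove x) : R K (n + 1)) := by
            intro x
            rw [map_smul, sc_X]
          simp_rw [h3]
          rw [Fin.sum_univ_succAbove _ i0, smul_add, smul_smul, inv_mul_cancel₀ h0, one_smul,
            neg_smul, sub_neg_eq_add]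
        rw [h2, MvPolynomial.smul_eq_C_mul]
        exact Ideal.mul_mem_left _ _ (Ideal.mem_span_singleton_self _)
      · rw [h, el_succ, sc_X, sub_self]
        exact Ideal.zero_mem _
    have h2 : p * X i - sc i0 (el c i0 (p * X i)) =
        X i * (p - sc i0 (el c i0 p)) +
          sc i0 (el c i0 p) * (X i - sc i0 (el c i0 (X i))) := by
      rw [map_mul, map_mul]
      ring
    rw [h2]
    exact Ideal.add_mem _ (Ideal.mul_mem_left _ _ hp) (Ideal.mul_mem_left _ _ h1)

/-- Both maps preserve the degree. -/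
theorem sum_hom {k : ℕ} (s : K) (d : Fin k → K) :
    (s • ∑ j, d j • (X j : R K k)).IsHomogeneous 1 := by
  have h : s • ∑ j, d j • (X j : R K k) ∈ homogeneousSubmodule (Fin k) K 1 := by
    refine Submodule.smul_mem _ _ (Submodule.sum_mem _ fun j _ => Submodule.smul_mem _ _ ?_)
    exact isHomogeneous_X K j
  exact h

theorem el_deg (c : Fin (n + 1) → K) (i0 : Fin (n + 1)) (d : ℕ) (p : R K (n + 1))
    (hp : p.IsHomogeneous d) : (el c i0 p).IsHomogeneous d := by
  have h : (el c i0 p).IsHomogeneous (1 * d) := by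
    unfold el
    refine hp.aeval _ fun i => ?_
    rcases Fin.eq_self_or_eq_succAbove i0 i with h | ⟨j, h⟩
    · rw [h, Fin.insertNth_apply_same]
      exact sum_hom _ _
    · rw [h, Fin.insertNth_apply_succAbove]
      exact isHomogeneous_X K j
  rwa [one_mul] at h

theorem sc_deg (i0 : Fin (n + 1)) (d : ℕ) (p : R K n)
    (hp : p.IsHomogeneous d) : (sc i0 p).IsHomogeneous d := by
  have h : (sc i0 p).IsHomogeneous (1 * d) := by
    unfold sc
    exact hp.aeval _ fun i => isHomogeneous_X K _
  rwa [one_mul] at h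

/-- The ideals correspond. -/
theorem iff_mem (c : Fin (n + 1) → K) (i0 : Fin (n + 1)) (h0 : c i0 ≠ 0)
    (g : Fin (n + 1) → R K (n + 1)) (hg : g 0 = ∑ i, c i • (X i : R K (n + 1)))
    (A : Set (Fin n)) (p : R K (n + 1)) :
    p ∈ Ideal.span (insert (g 0) ((fun i : Fin n => g i.succ) '' A)) ↔
      el c i0 p ∈ Ideal.span ((fun i : Fin n => el c i0 (g i.succ)) '' A) := by
  set I : Ideal (R K (n + 1)) := Ideal.span (insert (g 0) ((fun i : Fin n => g i.succ) '' A))
    with hI
  have h1 : ∀ q : R K (n + 1), q - sc i0 (el c i0 q) ∈ I := by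
    intro q
    have h2 := sub_mem c i0 h0 q
    rw [← hg] at h2
    exact Ideal.span_mono (Set.singleton_subset_iff.mpr (Set.mem_insert _ _)) h2
  constructor
  · intro hp
    have h3 : I ≤ Ideal.comap (el c i0)
        (Ideal.span ((fun i : Fin n => el c i0 (g i.succ)) '' A)) := by
      rw [hI, Ideal.span_le]
      intro q hq
      rw [SetLike.mem_coe, Ideal.mem_comap]
      rcases Set.mem_insert_iff.mp hq with h | ⟨i, hi, h⟩
      · rw [h, hg, el_lin c i0 h0]
        exact Ideal.zero_mem _
      · rw [← h]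
        exact Ideal.subset_span ⟨i, hi, rfl⟩
    exact h3 hp
  · intro hp
    have h4 : Ideal.span ((fun i : Fin n => el c i0 (g i.succ)) '' A) ≤
        Ideal.comap (sc i0) I := by
      rw [Ideal.span_le]
      rintro q ⟨i, hi, h⟩
      rw [← h]
      change sc i0 (el c i0 (g i.succ)) ∈ I
      have h5 : g i.succ ∈ I := Ideal.subset_span (Set.mem_insert_of_mem _ ⟨i, hi, rfl⟩)
      have h6 := Ideal.sub_mem _ h5 (h1 (g i.succ))
      rwa [sub_sub_cancel] at h6
    have h7 : sc i0 (el c i0 p) ∈ I := h4 hp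
    have h8 := Ideal.add_mem _ (h1 p) h7
    rwa [sub_add_cancel] at h8

theorem img (g : Fin (n + 1) → R K (n + 1)) (j : Fin n) :
    g '' {i | i < j.succ} = insert (g 0) ((fun i : Fin n => g i.succ) '' {i | i < j}) := by
  ext q
  constructor
  · rintro ⟨i, hi, h⟩
    rcases Fin.eq_zero_or_eq_succ i with h' | ⟨k, h'⟩
    · rw [← h, h']
      exact Set.mem_insert _ _
    · rw [← h, h']
      rw [h'] at hi
      exact Set.mem_insert_of_mem _ ⟨k, Fin.succ_lt_succ_iff.mp hi, rfl⟩
  · intro hq
    rcases Set.mem_insert_iff.mp hq with h | ⟨i, hi, h⟩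
    · exact ⟨0, Fin.succ_pos j, h.symm⟩
    · exact ⟨i.succ, Fin.succ_lt_succ_iff.mpr hi, h⟩

end RED_

open RED_ in
theorem p_RED : T_RED.{u} := by
  intro K _ n b g hg
  have hhom : (g 0).IsHomogeneous 1 := by
    have := hg.hom 0
    rwa [Fin.cons_zero] at this
  have hne : g 0 ≠ 0 := by
    intro h
    have h1 := hg.reg 0 1 (by rw [h, mul_zero]; exact Ideal.zero_mem _)
    have h2 : g '' {i : Fin (n + 1) | i < 0} = ∅ := by
      rw [Set.image_eq_empty]
      ext i
      simp
    rw [h2, Ideal.span_empty, Ideal.mem_bot] at h1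
    exact one_ne_zero h1
  obtain ⟨c, hc⟩ := lin (g 0) hhom
  obtain ⟨i0, h0⟩ : ∃ i0, c i0 ≠ 0 := by
    by_contra h
    push Not at h
    apply hne
    rw [hc]
    exact Finset.sum_eq_zero fun i _ => by rw [h i, zero_smul]
  refine ⟨el c i0, fun d p hp => el_deg c i0 d p hp,
    fun d q hq => ⟨sc i0 q, sc_deg i0 d q hq, el_sc c i0 q⟩, ⟨fun i => ?_, fun i => ?_,
    fun j p hp => ?_⟩, fun p => ?_⟩
  · have := hg.pos i.succ
    rwa [Fin.cons_succ] at this
  · have := hg.hom i.succ
    rw [Fin.cons_succ] at this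
    exact el_deg c i0 _ _ this
  · have h1 : el c i0 (sc i0 p * g j.succ) ∈
        Ideal.span ((fun i : Fin n => el c i0 (g i.succ)) '' {i | i < j}) := by
      rw [map_mul, el_sc]
      exact hp
    have h2 := (iff_mem c i0 h0 g hc {i | i < j} (sc i0 p * g j.succ)).mpr h1
    rw [← img] at h2
    have h3 := hg.reg j.succ (sc i0 p) h2
    rw [img] at h3
    have h4 := (iff_mem c i0 h0 g hc {i | i < j} (sc i0 p)).mp h3
    rwa [el_sc] at h4
  · have h1 := iff_mem c i0 h0 g hc Set.univ p
    rw [Set.image_univ, Set.image_univ] at h1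
    have h2 : Set.range g = insert (g 0) (Set.range fun i : Fin n => g i.succ) := by
      ext q
      constructor
      · rintro ⟨i, h⟩
        rcases Fin.eq_zero_or_eq_succ i with h' | ⟨k, h'⟩
        · rw [← h, h']
          exact Set.mem_insert _ _
        · rw [← h, h']
          exact Set.mem_insert_of_mem _ ⟨k, rfl⟩
      · intro hq
        rcases Set.mem_insert_iff.mp hq with h | ⟨i, h⟩
        · exact ⟨0, h.symm⟩
        · exact ⟨i.succ, h⟩
    unfold J
    rw [h2]
    exact h1

end Pool.Agent.EGS
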