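import Pool.Agent.EGS.Targets

set_option autoImplicit false
open MvPolynomial hiding R

/-!
RES (project EGS, MP_e5dae2_al): a linear form can be completed by quadrics in `J f` to a regular
sequence.
-/

namespace Pool.Agent.EGS

open Pool.Agent.EGU

universe u

namespace RES_

variable {K : Type u} [Field K]

/-- The degrees without the last one. -/
theorem cons_castSucc (k : ℕ) :
    ((Fin.cons 1 (tw (k + 1)) : Fin (k + 2) → ℕ) ∘ Fin.castSucc) =
      (Fin.cons 1 (tw k) : Fin (k + 1) → ℕ) := by
  funext i
  refine Fin.cases ?_ (fun j => ?_) i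
  · simp only [Function.comp_apply, Fin.castSucc_zero, Fin.cons_zero]
  · simp only [Function.comp_apply, Fin.castSucc_succ, Fin.cons_succ]

/-- The last degree. -/
theorem cons_last (k : ℕ) :
    (Fin.cons 1 (tw (k + 1)) : Fin (k + 2) → ℕ) (Fin.last (k + 1)) = 2 := by
  rw [← Fin.succ_last, Fin.cons_succ]

/-- A nonzero linear form is a regular sequence of length one. -/
theorem base {n : ℕ} (l : R K n) (hl : l ∈ Rd K n 1) (h0 : l ≠ 0) :
    CI (fun _ : Fin 1 => l) (Fin.cons 1 (tw 0) : Fin 1 → ℕ) := by
  refine ⟨?_, ?_, ?_⟩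
  · intro i
    rw [Subsingleton.elim i 0, Fin.cons_zero]
  · intro i
    rw [Subsingleton.elim i 0, Fin.cons_zero]
    exact hl
  · intro j p hp
    have hemp : {i : Fin 1 | i < j} = (∅ : Set (Fin 1)) := by
      ext i
      simp only [Set.mem_ofPred_eq, Set.mem_empty_iff_false, iff_false]
      rw [Subsingleton.elim i j]
      exact lt_irrefl j
    rw [hemp, Set.image_empty, Ideal.span_empty, Ideal.mem_bot] at hp ⊢
    exact (mul_eq_zero.1 hp).resolve_right h0

/-- Common zero divisors of the `f i` modulo `J g` vanish. -/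
theorem no_common {n m k : ℕ} (h_ACY : T_ACY.{u}) (f : Fin m → R K n) (a : Fin m → ℕ)
    (g : Fin k → R K n) (b : Fin k → ℕ) (hf : CI f a) (hg : CI g b) (hk : k < m) (h : R K n)
    (hh : ∀ i, f i * h ∈ J g) : h ∈ J g := by
  have hEx := h_ACY K n m k f a g b hf hg 0 (by omega)
  obtain ⟨b', hb'⟩ := hEx (fun _ => h) (by
    intro T _ _
    unfold cob
    refine Ideal.sum_mem _ (fun t _ => ?_)
    exact Ideal.mul_mem_left _ _ (hh t))
  have h1 := hb' ∅ (Finset.subset_univ _) rfl
  have h2 : cob f b' ∅ = 0 := by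
    unfold cob
    exact Finset.sum_empty
  rw [h2, sub_zero] at h1
  exact h1

end RES_

/-- RES. -/
theorem p_RES (h_ACY : T_ACY.{u}) (h_AVO : T_AVO.{u}) : T_RES.{u} := by
  intro K _ _ n f hf l hl hl0
  have key : ∀ k, k ≤ n → ∃ g : Fin (k + 1) → R K (n + 1), g 0 = l ∧
      CI g (Fin.cons 1 (tw k) : Fin (k + 1) → ℕ) ∧ ∀ i : Fin k, g i.succ ∈ J f := by
    intro k
    induction k with
    | zero =>
      intro _
      exact ⟨fun _ => l, rfl, RES_.base l hl hl0, fun i => i.elim0⟩
    | succ k ih =>
      intro hk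
      obtain ⟨g, hg0, hgCI, hgJ⟩ := ih (by omega)
      have hVJ : ∀ v ∈ Submodule.span K (Set.range f), v ∈ J f := by
        intro v hv
        have hle : Submodule.span K (Set.range f) ≤ (J f).restrictScalars K := by
          rw [Submodule.span_le]
          rintro _ ⟨i, rfl⟩
          exact Ideal.subset_span ⟨i, rfl⟩
        exact hle hv
      have hVR : ∀ v ∈ Submodule.span K (Set.range f), v ∈ Rd K (n + 1) 2 := by
        intro v hv
        have hle : Submodule.span K (Set.range f) ≤ Rd K (n + 1) 2 := by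
          rw [Submodule.span_le]
          rintro _ ⟨i, rfl⟩
          exact hf.hom i
        exact hle hv
      obtain ⟨v, hvV, hv⟩ : ∃ v ∈ Submodule.span K (Set.range f),
          ∀ h, v * h ∈ J g → h ∈ J g := by
        by_contra hcon
        push Not at hcon
        obtain ⟨h, hh, hh'⟩ := h_AVO K (n + 1) (J g) (Submodule.span K (Set.range f)) (by
          intro v hv
          obtain ⟨h, h1, h2⟩ := hcon v hv
          exact ⟨h, h2, h1⟩)
        refine hh (RES_.no_common h_ACY f (tw (n + 1)) g _ hf hgCI (by omega) h (fun i => ?_))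
        exact hh' (f i) (Submodule.subset_span ⟨i, rfl⟩)
      have hlast : (Fin.snoc g v : Fin (k + 2) → R K (n + 1)) (Fin.last (k + 1)) = v :=
        Fin.snoc_last _ _
      have hcomp : (Fin.snoc g v : Fin (k + 2) → R K (n + 1)) ∘ Fin.castSucc = g := by
        funext i
        exact Fin.snoc_castSucc _ _ i
      refine ⟨Fin.snoc g v, ?_, ?_, ?_⟩
      · rw [← Fin.castSucc_zero, Fin.snoc_castSucc]
        exact hg0
      · rw [(t_cir K (n + 1) (k + 1) (Fin.snoc g v) _).2, hcomp, RES_.cons_castSucc,
          RES_.cons_last, hlast]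
        refine ⟨hgCI, by norm_num, hVR v hvV, fun p hp => hv p ?_⟩
        rw [mul_comm]
        exact hp
      · intro i
        refine Fin.lastCases ?_ (fun j => ?_) i
        · rw [Fin.succ_last, hlast]
          exact hVJ v hvV
        · rw [Fin.succ_castSucc, Fin.snoc_castSucc]
          exact hgJ j
  exact key n le_rfl

end Pool.Agent.EGS
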