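import Pool.Agent.EGS.Targets

set_option autoImplicit false
open MvPolynomial hiding R

/-!
# Project EGS, target TRW: transport of `W` by the elimination map
-/

namespace Pool.Agent.EGS

open Pool.Agent.EGU

universe u

namespace TRW_

section

variable {K : Type u} [Field K] {n n' m m' : ℕ}

/-- The image of the part of degree `e` of the ideal. -/
theorem map_Jd (f : Fin m → R K n) (g : Fin m' → R K n') (φ : R K n →ₗ[K] R K n')
    (hdeg : ∀ d, ∀ p ∈ Rd K n d, φ p ∈ Rd K n' d)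
    (hsurj : ∀ d, ∀ q ∈ Rd K n' d, ∃ p ∈ Rd K n d, φ p = q)
    (hJ : ∀ p, p ∈ J f ↔ φ p ∈ J g) (e : ℕ) : (Jd f e).map φ = Jd g e := by
  apply le_antisymm
  · rintro _ ⟨p, hp, rfl⟩
    exact ⟨hdeg e p hp.1, (hJ p).mp hp.2⟩
  · intro q hq
    obtain ⟨p, hp, rfl⟩ := hsurj e q hq.1
    exact ⟨p, ⟨hp, (hJ p).mpr hq.2⟩, rfl⟩

theorem map_Rd (φ : R K n →ₗ[K] R K n')
    (hdeg : ∀ d, ∀ p ∈ Rd K n d, φ p ∈ Rd K n' d)
    (hsurj : ∀ d, ∀ q ∈ Rd K n' d, ∃ p ∈ Rd K n d, φ p = q) (e : ℕ) :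
    (Rd K n e).map φ = Rd K n' e := by
  apply le_antisymm
  · rintro _ ⟨p, hp, rfl⟩
    exact hdeg e p hp
  · intro q hq
    obtain ⟨p, hp, rfl⟩ := hsurj e q hq
    exact ⟨p, hp, rfl⟩

/-- The dimension formula. -/
theorem dim_map (hfin : ∀ e, Module.Finite K (Rd K n e)) (f : Fin m → R K n)
    (g : Fin m' → R K n') (φ : R K n →ₗ[K] R K n')
    (hdeg : ∀ d, ∀ p ∈ Rd K n d, φ p ∈ Rd K n' d)
    (hsurj : ∀ d, ∀ q ∈ Rd K n' d, ∃ p ∈ Rd K n d, φ p = q)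
    (hJ : ∀ p, p ∈ J f ↔ φ p ∈ J g) (e : ℕ) (U : Submodule K (R K n)) (h1 : Jd f e ≤ U)
    (h2 : U ≤ Rd K n e) :
    Module.finrank K (U.map φ) + Module.finrank K (Jd f e) =
      Module.finrank K (Jd g e) + Module.finrank K U := by
  have fR := hfin e
  have fU : Module.Finite K U := Submodule.finiteDimensional_of_le h2
  have fJ : Module.Finite K (Jd f e) := Submodule.finiteDimensional_of_le (h1.trans h2)
  have a1 := SPLIT_.finrank_map_add φ U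
  have a2 := SPLIT_.finrank_map_add φ (Jd f e)
  have e1 : (U ⊓ LinearMap.ker φ : Submodule K (R K n)) = Jd f e ⊓ LinearMap.ker φ := by
    apply le_antisymm
    · rintro x ⟨hx, hx'⟩
      refine ⟨⟨h2 hx, ?_⟩, hx'⟩
      have h0 : φ x = 0 := hx'
      have : x ∈ J f := by
        rw [hJ, h0]
        exact Ideal.zero_mem _
      exact this
    · exact inf_le_inf_right _ h1
  rw [map_Jd f g φ hdeg hsurj hJ] at a2
  rw [e1] at a1
  omega

/-- The image of `orth`. -/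
theorem map_orth (f : Fin m → R K n) (g : Fin m' → R K n') (θ : R K n →ₐ[K] R K n')
    (hdeg : ∀ d, ∀ p ∈ Rd K n d, θ p ∈ Rd K n' d)
    (hsurj : ∀ d, ∀ q ∈ Rd K n' d, ∃ p ∈ Rd K n d, θ p = q)
    (hJ : ∀ p, p ∈ J f ↔ θ p ∈ J g) (e : ℕ) (W : Submodule K (R K n)) :
    (orth f e W).map θ.toLinearMap = orth g e (W.map θ.toLinearMap) := by
  apply le_antisymm
  · rintro _ ⟨p, hp, rfl⟩
    refine ⟨hdeg e p hp.1, ?_⟩
    rintro _ ⟨w, hw, rfl⟩
    have h1 : p * w ∈ J f := hp.2 w hw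
    rw [hJ, map_mul] at h1
    exact h1
  · intro q hq
    obtain ⟨p, hp, rfl⟩ := hsurj e q hq.1
    refine ⟨p, ⟨hp, fun w hw => ?_⟩, rfl⟩
    rw [hJ, map_mul]
    exact hq.2 (θ w) ⟨w, hw, rfl⟩

/-- The image of `up`. -/
theorem map_up (f : Fin m → R K n) (g : Fin m' → R K n') (θ : R K n →ₐ[K] R K n')
    (hdeg : ∀ d, ∀ p ∈ Rd K n d, θ p ∈ Rd K n' d)
    (hsurj : ∀ d, ∀ q ∈ Rd K n' d, ∃ p ∈ Rd K n d, θ p = q)
    (hJ : ∀ p, p ∈ J f ↔ θ p ∈ J g) (d : ℕ) (W : Submodule K (R K n)) :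
    (up f d W).map θ.toLinearMap = up g d (W.map θ.toLinearMap) := by
  unfold up
  rw [Submodule.map_sup, Submodule.map_mul,
    map_Jd f g θ.toLinearMap hdeg hsurj hJ (d + 1), map_Rd θ.toLinearMap hdeg hsurj 1]

end

end TRW_

open TRW_ in
theorem p_TRW : T_TRW.{u} := by
  intro K _ n b g hg θ hdeg hsurj _ hJ d W hJW hWR
  have hfin : ∀ e, Module.Finite K (Rd K (n + 1) e) := fun e => (t_dimr K (n + 1) e).1
  obtain ⟨hup1, hup2, _, _, _, _, horth, _⟩ :=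
    t_upl K (n + 1) (n + 1) g (Fin.cons 1 b) hg.hom d W hWR
  have hdeg' : ∀ d, ∀ p ∈ Rd K (n + 1) d, θ.toLinearMap p ∈ Rd K n d := hdeg
  have hsurj' : ∀ d, ∀ q ∈ Rd K n d, ∃ p ∈ Rd K (n + 1) d, θ.toLinearMap p = q := hsurj
  have hJ' : ∀ p, p ∈ J g ↔ θ.toLinearMap p ∈ J (fun i : Fin n => θ (g i.succ)) := hJ
  have hdim := dim_map hfin g (fun i : Fin n => θ (g i.succ)) θ.toLinearMap hdeg' hsurj' hJ'
  refine ⟨?_, ?_, hdim d W hJW hWR, ?_, fun e => ?_⟩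
  · rw [← map_Jd g (fun i : Fin n => θ (g i.succ)) θ.toLinearMap hdeg' hsurj' hJ' d]
    exact Submodule.map_mono hJW
  · rw [← map_Rd θ.toLinearMap hdeg' hsurj' d]
    exact Submodule.map_mono hWR
  · rw [← map_up g (fun i : Fin n => θ (g i.succ)) θ hdeg hsurj hJ d W]
    exact hdim (d + 1) (up g d W) hup1 hup2
  · have h1 := hdim e (orth g e W) (horth e).1 (horth e).2
    have h2 := hdim e (Rd K (n + 1) e) ((horth e).1.trans (horth e).2) le_rfl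
    rw [map_orth g (fun i : Fin n => θ (g i.succ)) θ hdeg hsurj hJ e W] at h1
    rw [map_Rd θ.toLinearMap hdeg' hsurj' e] at h2
    omega

end Pool.Agent.EGS
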