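import Pool.Agent.EGS.P_ASM

set_option autoImplicit false
open MvPolynomial hiding R

/-!
# Project EGS: the theorem, from the targets
-/

namespace Pool.Agent.EGS

open Pool.Agent.EGU

universe u

open NU_ in
/-- `EQ` with the bound `12` for all `n`, over an algebraically closed field. -/
theorem eq12 (h_ASM : T_ASM.{u}) (h_PST : T_PST.{u}) (K : Type u) [Field K] [IsAlgClosed K] :
    ∀ n d, EQ K n d 12 := by
  intro n
  induction n with
  | zero => exact fun d => h_ASM K 0 d 12 (by norm_num)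
  | succ n ih =>
    intro d
    rcases Nat.lt_or_ge n 6 with h | h
    · exact h_ASM K (n + 1) d 12 (by omega)
    · exact h_PST K n 12 (by omega) ih d

open NU_ in
/-- The main theorem. -/
theorem final (h_ASM : T_ASM.{u}) (h_PST : T_PST.{u}) (h_BCE : T_BCE.{u}) (h_IDL : T_IDL.{u})
    (h_IDM : T_IDM.{u}) (K : Type u) [Field K] (n : ℕ) (I : Ideal (MvPolynomial (Fin n) K))
    (f : Fin n → MvPolynomial (Fin n) K) (hhom : ∀ i, (f i).IsHomogeneous 2)
    (hfI : ∀ i, f i ∈ I)
    (hreg : RingTheory.Sequence.IsRegular (MvPolynomial (Fin n) K) (List.ofFn f))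
    (hc : n ≤ 6 ∨
      Module.finrank K (MvPolynomial.homogeneousSubmodule (Fin n) K 2) ≤ hI I 2 + 12 ∨
      hI I (n - 2) ≤ hI (Ideal.span (Set.range f)) (n - 2) + 12) :
    EGHs (tw n) I Set.univ := by
  have hf : CI f (tw n) := t_reg K n f (tw n) (one_tw n) hhom hreg
  refine egh_int t_dimr t_sega a_lexn a_hf (t_hf1 t_cir t_jd t_dimr) t_xci K n f (tw n) hf I hfI
    Set.univ Set.ordConnected_univ (fun d _ _ => ?_)
  have hE : ∀ d N, EQ (AlgebraicClosure K) n d N → EQ K n d N :=
    fun d N h => h_BCE K (AlgebraicClosure K) n d N h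
  have h12 : ∀ d, EQ K n d 12 := fun d => hE d 12 (eq12 h_ASM h_PST (AlgebraicClosure K) n d)
  rcases Nat.lt_or_ge 6 n with hn | hn
  · rcases hc with hc | hc | hc
    · exact absurd hc (by omega)
    · exact h_IDL K n 12 h12 f hf I hfI hc d
    · exact h_IDM K n 12 (by omega) h12 f hf I hfI hc d
  · refine h_IDL K n (Module.finrank K (Rd K n 2))
      (fun e => hE e _ (h_ASM (AlgebraicClosure K) n e _ hn)) f hf I hfI ?_ d
    exact Nat.le_add_left _ _

end Pool.Agent.EGS
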