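import Pool.Agent.EGS.Num

set_option autoImplicit false
open MvPolynomial hiding R

/-!
# Project EGS, target ASM: at most six quadrics
-/

namespace Pool.Agent.EGS

open Pool.Agent.EGU

universe u

namespace ASM_

open NU_

/-- The growth inequality for all `W` in degree `d`. -/
def EA (K : Type u) [Field K] (n d : ℕ) : Prop :=
  ∀ f : Fin n → R K n, CI f (tw n) → ∀ W : Submodule K (R K n), Jd f d ≤ W → W ≤ Rd K n d →
    Good f d W

theorem EA.eq {K : Type u} [Field K] {n d : ℕ} (h : EA K n d) (N : ℕ) : EQ K n d N :=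
  fun f hf W h1 h2 _ => h f hf W h1 h2

section
variable {K : Type u} [Field K] {n : ℕ}

theorem good_zero (f : Fin n → R K n) (d : ℕ) (W : Submodule K (R K n))
    (h : Module.finrank K W ≤ Module.finrank K (Jd f d)) : Good f d W := by
  unfold Good
  rw [Nat.sub_eq_zero_of_le h]
  exact sh_zero _ _ _

theorem good_of (f : Fin n → R K n) (d v G : ℕ) (W : Submodule K (R K n))
    (hv : Module.finrank K W = Module.finrank K (Jd f d) + v) (hs : Sh (tw n) d v G)
    (hu : Module.finrank K (Jd f (d + 1)) + G ≤ Module.finrank K (up f d W)) : Good f d W := by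
  unfold Good
  rw [hv, Nat.add_sub_cancel_left]
  exact sh_mono hs (by omega)

theorem wdim (f : Fin n → R K n) (d : ℕ) (W : Submodule K (R K n)) (h1 : Jd f d ≤ W)
    (h2 : W ≤ Rd K n d) : ∃ v, Module.finrank K W = Module.finrank K (Jd f d) + v := by
  have := fin_le t_dimr h2
  have h3 := Submodule.finrank_mono h1
  exact ⟨Module.finrank K W - Module.finrank K (Jd f d), by omega⟩

theorem ea_top (h_SOK : T_SOK.{u}) (d : ℕ) (hd : n ≤ d) : EA K n d := by
  intro f hf W h1 h2
  have hsok := (h_SOK K n f (tw n) hf (mono_tw n)).2 (d + 1) (by rw [S_all]; omega)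
  have hup := t_upl K n n f (tw n) hf.hom d W h2
  have hW := fin_le t_dimr h2
  have hRd := (t_dimr K n d).1
  obtain ⟨v, hv⟩ := wdim f d W h1 h2
  have h3 := Submodule.finrank_mono h2
  have h4 := hf' K n f hf d
  rcases Nat.eq_zero_or_pos v with h0 | h0
  · exact good_zero f d W (by omega)
  · have h5 : n.choose d ≠ 0 := by omega
    have h6 : d = n := by
      by_contra hcon
      exact h5 (Nat.choose_eq_zero_of_lt (by omega))
    subst h6
    rw [Nat.choose_self] at h4
    refine good_of f d 1 0 W (by omega) ?_ ?_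
    · have := t_sh1 d (tw d) d (two_tw d) le_rfl
      rw [S_all, Nat.sub_self] at this
      exact this
    · have := fin_le t_dimr hup.2.1
      exact Submodule.finrank_mono hup.1
where
  hf' (K : Type u) [Field K] (n : ℕ) (f : Fin n → R K n) (h : CI f (tw n)) (d : ℕ) :
      Module.finrank K (Jd f d) + n.choose d = Module.finrank K (Rd K n d) := hf K n f h d

theorem ea_zero : EA K n 0 := by
  intro f hf W h1 h2
  have hup := t_upl K n n f (tw n) hf.hom 0 W h2
  have hW := fin_le t_dimr h2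
  have hRd := (t_dimr K n 0).1
  obtain ⟨v, hv⟩ := wdim f 0 W h1 h2
  have h3 := Submodule.finrank_mono h2
  have h4 := NU_.hf K n f hf 0
  have h5 := NU_.hf K n f hf 1
  rw [Nat.choose_zero_right] at h4
  rw [Nat.choose_one_right, (t_dimr K n 1).2.2] at h5
  rcases Nat.eq_zero_or_pos v with h0 | h0
  · exact good_zero f 0 W (by omega)
  · have h6 : W = Rd K n 0 := Submodule.eq_of_le_of_finrank_le h2 (by omega)
    refine good_of f 0 1 n W (by omega) ?_ ?_
    · have := t_sh1 n (tw n) 0 (two_tw n) (Nat.zero_le n)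
      rw [S_tw n 0 (Nat.zero_le n), Nat.sub_zero] at this
      exact this
    · have h7 : Rd K n 1 ≤ up f 0 W := by
        intro x hx
        unfold up
        refine Submodule.mem_sup_left ?_
        rw [h6, ← mul_one x]
        refine Submodule.mul_mem_mul hx ?_
        exact MvPolynomial.isHomogeneous_one (Fin n) K
      have := fin_le t_dimr hup.2.1
      have h8 := Submodule.finrank_mono h7
      rw [(t_dimr K n 1).2.2] at h8
      show Module.finrank K (Jd f 1) + n ≤ _
      omega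

/-- Duality. -/
theorem dual (h_DUA : T_DUA.{u}) (f : Fin n → R K n) (hf : CI f (tw n)) (d d' : ℕ)
    (hd : d + d' + 1 = n) (W : Submodule K (R K n)) (h1 : Jd f d ≤ W) (h2 : W ≤ Rd K n d)
    (hg : Good f d' (orth f d' (up f d W))) : Good f d W := by
  obtain ⟨k1, k2, k3, k4⟩ := h_DUA K n f (tw n) hf (mono_tw n) d d' (by rw [S_all]; exact hd) W
    h1 h2
  have hup := t_upl K n n f (tw n) hf.hom d W h2
  have hup' := t_upl K n n f (tw n) hf.hom d' _ k2
  have f1 := fin_le t_dimr h2
  have f2 := fin_le t_dimr k2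
  have f3 := fin_le t_dimr hup.2.1
  have f4 := fin_le t_dimr hup'.2.1
  have e1 := Submodule.finrank_mono h1
  have e2 := Submodule.finrank_mono k1
  have e3 := Submodule.finrank_mono hup.1
  have e4 := Submodule.finrank_mono hup'.1
  have e5 := NU_.hf K n f hf d
  have e6 := NU_.hf K n f hf (d + 1)
  unfold Good at hg
  have h3 := a_shd n (tw n) d d' (Module.finrank K W - Module.finrank K (Jd f d)) _ _ (one_tw n)
    (by rw [S_all]; exact hd) hg (by rw [card_std]; omega)
  rw [card_std] at h3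
  unfold Good
  refine sh_mono h3 ?_
  omega

theorem ea_dual (h_DUA : T_DUA.{u}) (d d' : ℕ) (hd : d + d' + 1 = n) (h : EA K n d') :
    EA K n d := by
  intro f hf W h1 h2
  obtain ⟨k1, k2, k3, k4⟩ := h_DUA K n f (tw n) hf (mono_tw n) d d' (by rw [S_all]; exact hd) W
    h1 h2
  exact dual h_DUA f hf d d' hd W h1 h2 (h f hf _ k1 k2)

/-- the lower bound for one element -/
theorem grow_one (f : Fin n → R K n) (hf : CI f (tw n)) (d v : ℕ) (hd : 1 ≤ d) (hdn : d ≤ n)
    (hv : 1 ≤ v) (W : Submodule K (R K n)) (h1 : Jd f d ≤ W) (h2 : W ≤ Rd K n d)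
    (h3 : Module.finrank K W = Module.finrank K (Jd f d) + v) :
    Module.finrank K (Jd f (d + 1)) + (n - d) ≤ Module.finrank K (up f d W) := by
  have h4 := a_grow K n f (tw n) hf (mono_tw n) d v W h1 h2 h3
  have h5 : n - d ≤ ∑ i ∈ Finset.range v, (n - (i + Pt (tw n) d (d + i))) := by
    have h6 := Finset.single_le_sum (f := fun i => n - (i + Pt (tw n) d (d + i)))
      (fun i _ => Nat.zero_le _) (Finset.mem_range.2 hv : 0 ∈ Finset.range v)
    simp only [zero_add, add_zero] at h6
    rw [Pt_tw n d d hd hdn] at h6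
    exact h6
  omega

end

section alg
variable {K : Type u} [Field K]

theorem d_one (h_DUA : T_DUA.{u}) (h_MTW : T_MTW.{u}) (m : ℕ) (hm : 3 ≤ m) (hm6 : m ≤ 6)
    (hP : ∀ d, EQ K m d (2 * (m - 1))) : EA K m 1 := by
  intro f hf W h1 h2
  obtain ⟨v, hv⟩ := wdim f 1 W h1 h2
  rcases Nat.eq_zero_or_pos v with h0 | h0
  · exact good_zero f 1 W (by omega)
  · have h3 := grow_one f hf 1 v le_rfl (by omega) h0 W h1 h2 hv
    obtain ⟨k1, k2, k3, k4⟩ := h_DUA K m f (tw m) hf (mono_tw m) 1 (m - 2)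
      (by rw [S_all]; omega) W h1 h2
    have h4 := (h_MTW K m f (tw m) hf (mono_tw m) (m - 2) _ k1 k2).1 (by rw [S_all]; omega)
    have e1 := NU_.hf K m f hf 2
    have e2 : m.choose 2 ≤ 3 * (m - 1) := by
      interval_cases m <;> decide
    refine dual h_DUA f hf 1 (m - 2) (by omega) W h1 h2 (hP (m - 2) f hf _ k1 k2 ?_)
    have e3 : Module.finrank K (Jd f (1 + 1)) = Module.finrank K (Jd f 2) := rfl
    have e4 : Module.finrank K (Rd K m (1 + 1)) = Module.finrank K (Rd K m 2) := rfl
    omega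

/-- The middle degree for five quadrics. -/
theorem five_two (h_DUA : T_DUA.{u}) (h_MTW : T_MTW.{u}) (hP : ∀ d, EQ K 5 d 8) : EA K 5 2 := by
  intro f hf W h1 h2
  obtain ⟨v, hv⟩ := wdim f 2 W h1 h2
  have e1 := NU_.hf K 5 f hf 2
  have e2 := NU_.hf K 5 f hf 3
  have e3 : Nat.choose 5 2 = 10 := by decide
  have e4 : Nat.choose 5 3 = 10 := by decide
  rcases Nat.lt_or_ge v 2 with h0 | h0
  · interval_cases v
    · exact good_zero f 2 W (by omega)
    · refine good_of f 2 1 3 W hv ?_ ?_
      · have := t_sh1 5 (tw 5) 2 (two_tw 5) (by norm_num)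
        rw [S_tw 5 2 (by norm_num)] at this
        exact this
      · exact grow_one f hf 2 1 (by norm_num) (by norm_num) le_rfl W h1 h2 hv
  · obtain ⟨k1, k2, k3, k4⟩ := h_DUA K 5 f (tw 5) hf (mono_tw 5) 2 2 (by rw [S_all]) W h1 h2
    have h4 := (h_MTW K 5 f (tw 5) hf (mono_tw 5) 2 _ k1 k2).2.1 (by rw [S_all])
    have e5 : Module.finrank K (Jd f (2 + 1)) = Module.finrank K (Jd f 3) := rfl
    refine dual h_DUA f hf 2 2 (by norm_num) W h1 h2 (hP 2 f hf _ k1 k2 ?_)
    omega

/-- Degree two for six quadrics. -/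
theorem six_two (h_DUA : T_DUA.{u}) (h_MTW : T_MTW.{u}) (h_SHQ : T_SHQ)
    (hP : ∀ d, EQ K 6 d 10)
    (h3 : ∀ f : Fin 6 → R K 6, CI f (tw 6) → Grow f 2 3 9)
    (h4 : ∀ f : Fin 6 → R K 6, CI f (tw 6) → Grow f 2 4 10) : EA K 6 2 := by
  intro f hf W h1 h2
  obtain ⟨v, hv⟩ := wdim f 2 W h1 h2
  have e1 := NU_.hf K 6 f hf 2
  have e2 := NU_.hf K 6 f hf 3
  have e3 : Nat.choose 6 2 = 15 := by decide
  have e4 : Nat.choose 6 3 = 20 := by decide
  rcases Nat.lt_or_ge v 5 with h0 | h0
  · have hshq : ∀ v, v ≤ 5 → ∀ G, G + v.choose 2 = v * 4 → Sh (tw 6) 2 v G := by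
      intro v hv5 G hG
      obtain ⟨M, hM1, hM2, hM3⟩ := h_SHQ 6 2 v (by norm_num) (by omega)
      exact ⟨M, hM1, hM2, by omega⟩
    interval_cases v
    · exact good_zero f 2 W (by omega)
    · refine good_of f 2 1 4 W hv (hshq 1 (by norm_num) 4 (by decide)) ?_
      exact grow_one f hf 2 1 (by norm_num) (by norm_num) le_rfl W h1 h2 hv
    · refine good_of f 2 2 7 W hv (hshq 2 (by norm_num) 7 (by decide)) ?_
      have h5 := (growV2 a_v2 t_bc1 a_bc2 K 6 2 2 f (tw 6) hf (mono_tw 6) (two_tw 6)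
        (by norm_num) (by rw [S_tw 6 2 (by norm_num)])
        (by rw [S_tw 6 3 (by norm_num)]; norm_num)).1
      exact h5 W h1 h2 hv
    · refine good_of f 2 3 9 W hv (hshq 3 (by norm_num) 9 (by decide)) ?_
      exact h3 f hf W h1 h2 hv
    · refine good_of f 2 4 10 W hv (hshq 4 (by norm_num) 10 (by decide)) ?_
      exact h4 f hf W h1 h2 hv
  · obtain ⟨k1, k2, k3, k4⟩ := h_DUA K 6 f (tw 6) hf (mono_tw 6) 2 3 (by rw [S_all]) W h1 h2
    have h5 := (h_MTW K 6 f (tw 6) hf (mono_tw 6) 3 _ k1 k2).2.1 (by rw [S_all])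
    have e5 : Module.finrank K (Jd f (2 + 1)) = Module.finrank K (Jd f 3) := rfl
    refine dual h_DUA f hf 2 3 (by norm_num) W h1 h2 (hP 3 f hf _ k1 k2 ?_)
    omega

end alg

end ASM_

open ASM_ in
/-- At most six quadrics. -/
theorem p_ASM (h_SOK : T_SOK.{u}) (h_DUA : T_DUA.{u}) (h_MTW : T_MTW.{u}) (h_PST : T_PST.{u})
    (h_SHQ : T_SHQ) (h_NET : T_NET.{u}) (h_WEB : T_WEB.{u}) : T_ASM.{u} := by
  intro K _ _ n d N hn
  suffices h : ∀ n, n ≤ 6 → ∀ d, EA K n d from (h n hn d).eq N
  clear hn n d N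
  intro n
  induction n with
  | zero => exact fun _ d => ea_top h_SOK d (Nat.zero_le d)
  | succ n ih =>
    intro hn d
    have ihn := ih (by omega)
    have hP : ∀ d, EQ K (n + 1) d (2 * (n + 1 - 1)) := by
      intro d
      rw [Nat.add_sub_cancel]
      exact h_PST K n (2 * n) le_rfl (fun e => (ihn e).eq _) d
    rcases Nat.eq_zero_or_pos d with hd0 | hd0
    · subst hd0
      exact ea_zero
    rcases Nat.lt_or_ge d (n + 1) with hd1 | hd1
    swap
    · exact ea_top h_SOK d hd1
    -- the last degree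
    by_cases hd2 : d = n
    · exact ea_dual h_DUA d 0 (by omega) ea_zero
    have hd3 : d < n := by omega
    have hone : EA K (n + 1) 1 := d_one h_DUA h_MTW (n + 1) (by omega) hn hP
    by_cases hd4 : d = 1
    · rw [hd4]
      exact hone
    by_cases hd5 : d + 1 = n
    · exact ea_dual h_DUA d 1 (by omega) hone
    have hn4 : n = 4 ∨ n = 5 := by omega
    rcases hn4 with h | h
    · subst h
      have : d = 2 := by omega
      subst this
      exact five_two h_DUA h_MTW hP
    · subst h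
      have h51 : ∀ N, EQ K 5 1 N := fun N => (ihn 1).eq N
      have h62 : EA K 6 2 := six_two h_DUA h_MTW h_SHQ hP (h_NET K h51) (h_WEB K h51)
      have hd6 : d = 2 ∨ d = 3 := by omega
      rcases hd6 with h | h
      · rw [h]
        exact h62
      · rw [h]
        exact ea_dual h_DUA 3 2 (by norm_num) h62

end Pool.Agent.EGS
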