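import Pool.Agent.EGS.Targets

set_option autoImplicit false
open MvPolynomial hiding R

/-!
# BCE: base change (EGS project)
-/

namespace Pool.Agent.EGS

open Pool.Agent.EGU

universe u

namespace BCE_

open BC2_

variable {K E : Type u} [Field K] [Field E] [Algebra K E] {n m : ℕ}

lemma orth_ext (f : Fin m → R K n) (e : ℕ) (W : Submodule K (R K n)) :
    ext E (orth f e W) ≤ orth (fun i => MvPolynomial.map (algebraMap K E) (f i)) e (ext E W) := by
  refine Submodule.span_le.mpr ?_
  rintro _ ⟨p, hp, rfl⟩
  refine ⟨MvPolynomial.IsHomogeneous.map hp.1 _, ?_⟩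
  intro w hw
  refine Submodule.span_induction
    (p := fun z _ => MvPolynomial.map (algebraMap K E) p * z ∈
      J (fun i => MvPolynomial.map (algebraMap K E) (f i))) ?_ ?_ ?_ ?_ hw
  · rintro _ ⟨q, hq, rfl⟩
    rw [← map_mul]
    exact J_map f (hp.2 q hq)
  · rw [mul_zero]
    exact Ideal.zero_mem _
  · intro x y _ _ hx hy
    rw [mul_add]
    exact Ideal.add_mem _ hx hy
  · intro c x _ hx
    rw [mul_smul_comm]
    exact ((J (fun i => MvPolynomial.map (algebraMap K E) (f i))).restrictScalars E).smul_mem c hx

end BCE_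

open BC2_ BCE_ in
/-- The target `T_BCE`. -/
theorem p_BCE : T_BCE.{u} := by
  intro K E _ _ _ n d N hE f hf W hJW hWR hcard
  have hRK : ∀ e, Module.Finite K (Rd K n e) := fun e => (t_dimr K n e).1
  have hRL : ∀ e, Module.Finite E (Rd E n e) := fun e => (t_dimr E n e).1
  have fW : Module.Finite K W := Submodule.finiteDimensional_of_le hWR
  have fJ : ∀ e, Module.Finite K (Jd f e) := fun e =>
    Submodule.finiteDimensional_of_le (inf_le_left : Jd f e ≤ Rd K n e)
  have hup := up_le f d W hWR
  have fU : Module.Finite K (up f d W) := Submodule.finiteDimensional_of_le hup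
  have horth : ∀ (F : Type u) [Field F] (g : Fin n → R F n) (V : Submodule F (R F n)),
      orth g 2 V ≤ Rd F n 2 := fun F _ g V x hx => hx.1
  have fO : Module.Finite K (orth f 2 W) := Submodule.finiteDimensional_of_le (horth K f W)
  set fE : Fin n → R E n := fun i => MvPolynomial.map (algebraMap K E) (f i) with hfE
  have fOE : Module.Finite E (orth fE 2 (ext E W)) :=
    Submodule.finiteDimensional_of_le (horth E fE (ext E W))
  have e1 : ∀ e, Module.finrank E (Jd fE e) = Module.finrank K (Jd f e) := by
    intro e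
    rw [hfE, ← Jd_ext t_jd f (tw n) hf.hom e]
    exact finrank_ext (Jd f e)
  have e2 : Module.finrank E (ext E W) = Module.finrank K W := finrank_ext W
  have e3 : Module.finrank E (Rd E n 2) = Module.finrank K (Rd K n 2) := by
    rw [← Rd_ext (K := K)]
    exact finrank_ext (Rd K n 2)
  have e4 : Module.finrank K (orth f 2 W) ≤ Module.finrank E (orth fE 2 (ext E W)) := by
    rw [← finrank_ext (E := E) (orth f 2 W)]
    exact Submodule.finrank_mono (orth_ext f 2 W)
  have e5 : Module.finrank E (up fE d (ext E W)) ≤ Module.finrank K (up f d W) := by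
    rw [← finrank_ext (E := E) (up f d W)]
    have fL : Module.Finite E (ext E (up f d W)) := by
      have h2 : ext E (up f d W) ≤ Rd E n (d + 1) := by
        rw [← Rd_ext (K := K)]
        exact ext_mono hup
      exact Submodule.finiteDimensional_of_le h2
    exact Submodule.finrank_mono (up_ext t_jd f (tw n) hf.hom d W)
  have h1 : Good fE d (ext E W) := by
    refine hE fE (t_bc1 K E n n f (tw n) hf) (ext E W) ?_ ?_ ?_
    · rw [hfE, ← Jd_ext t_jd f (tw n) hf.hom d]
      exact ext_mono hJW
    · rw [← Rd_ext (K := K)]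
      exact ext_mono hWR
    · rw [e3]
      omega
  unfold Good at h1 ⊢
  rw [e1, e1, e2] at h1
  obtain ⟨M, hM, hc, hs⟩ := h1
  exact ⟨M, hM, hc, hs.trans (by omega)⟩

end Pool.Agent.EGS
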