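import Pool.Agent.EGS.Targets

set_option autoImplicit false
open MvPolynomial hiding R

/-!
The linked space: `T_DUA`.
-/

namespace Pool.Agent.EGS

open Pool.Agent.EGU

universe u

namespace DUA_

/-- The products of linear forms with the linked space are orthogonal to `W`. -/
lemma up_le {K : Type u} [Field K] {n : ℕ} {f : Fin n → R K n} {a : Fin n → ℕ}
    (hf : CI f a) (d d' : ℕ) (W : Submodule K (R K n)) (hW : W ≤ Rd K n d) :
    up f d' (orth f d' (up f d W)) ≤ orth f (d' + 1) W := by
  refine sup_le ?_ ?_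
  · rw [Submodule.mul_le]
    rintro l hl h ⟨hh, hh'⟩
    refine ⟨?_, fun w hw => ?_⟩
    · rw [mem_homogeneousSubmodule] at hl hh ⊢
      have := hl.mul hh
      rwa [add_comm] at this
    · have h1 : l * w ∈ up f d W :=
        (le_sup_left : Rd K n 1 * W ≤ up f d W) (Submodule.mul_mem_mul hl hw)
      have h2 := hh' _ h1
      have h3 : l * h * w = h * (l * w) := by ring
      rw [h3]
      exact h2
  · exact ((t_upl K n n f a hf.hom d W hW).2.2.2.2.2.2.1 (d' + 1)).1

end DUA_

theorem p_DUA : T_DUA.{u} := by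
  intro K _ n f a hf hm d d' hd W h1 h2
  have hup := t_upl K n n f a hf.hom d W h2
  have hup2 := t_upl K n n f a hf.hom (d + 1) (up f d W) hup.2.1
  have ho := hup2.2.2.2.2.2.2.1 d'
  have hp1 := a_perf K n f a hf hm (d + 1) d' (by omega) (up f d W) hup.1 hup.2.1
  have hp2 := a_perf K n f a hf hm d (d' + 1) (by omega) W h1 h2
  refine ⟨ho.1, ho.2, hp1, ?_⟩
  have hfin : Module.Finite K (orth f (d' + 1) W) :=
    fin_le t_dimr (hup.2.2.2.2.2.2.1 (d' + 1)).2
  have hle := Submodule.finrank_mono (DUA_.up_le hf d d' W h2)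
  omega

end Pool.Agent.EGS
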