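import Pool.Agent.EGS.Targets

set_option autoImplicit false
open MvPolynomial hiding R

/-!
Project EGS: matrices of linear forms which are surjective at every point (job GEN).
-/

namespace Pool.Agent.EGS

open Pool.Agent.EGU

universe u

noncomputable section

namespace GEN_

section
variable {K : Type u} [Field K] {n s : ℕ}

/-- The coboundary as a linear map. -/
def cobL (l : Fin s → R K n) :
    (Finset (Fin s) → R K n) →ₗ[K] (Finset (Fin s) → R K n) where
  toFun c := fun T => cob l c T
  map_add' := by
    intro a b
    funext T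
    simp only [cob, Pi.add_apply, mul_add, Finset.sum_add_distrib]
  map_smul' := by
    intro z a
    funext T
    simp only [cob, Pi.smul_apply, mul_smul_comm, ← Finset.smul_sum, RingHom.id_apply]

theorem cobL_apply (l : Fin s → R K n) (c : Finset (Fin s) → R K n) (T : Finset (Fin s)) :
    cobL l c T = cob l c T := rfl

theorem cobL_lin {v : ℕ} (x : Fin s → Fin v → R K n) (p : Fin v → K)
    (c : Finset (Fin s) → R K n) :
    ∑ k, p k • cobL (fun t => x t k) c = cobL (fun t => ∑ k, p k • x t k) c := by
  funext T
  rw [Finset.sum_apply]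
  simp only [Pi.smul_apply, cobL_apply, cob, Finset.smul_sum, Finset.sum_mul,
    Finset.mul_sum, smul_mul_assoc, mul_smul_comm]
  rw [Finset.sum_comm]

/-- The cochains of level `s + 1 - i` with values of degree `v + 1 - i`. -/
def CC (K : Type u) [Field K] (n s v i : ℕ) : Submodule K (Finset (Fin s) → R K n) where
  carrier := {c | ∀ T, c T ∈ Rm K n (v + 1) i ∧ (T.card + i ≠ s + 1 → c T = 0)}
  add_mem' := by
    intro a b ha hb T
    refine ⟨Submodule.add_mem _ (ha T).1 (hb T).1, fun h => ?_⟩
    rw [Pi.add_apply, (ha T).2 h, (hb T).2 h, add_zero]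
  zero_mem' := by
    intro T
    exact ⟨Submodule.zero_mem _, fun _ => rfl⟩
  smul_mem' := by
    intro z a ha T
    refine ⟨Submodule.smul_mem _ z (ha T).1, fun h => ?_⟩
    rw [Pi.smul_apply, (ha T).2 h, smul_zero]

theorem mem_CC (v i : ℕ) (c : Finset (Fin s) → R K n) :
    c ∈ CC K n s v i ↔ ∀ T, c T ∈ Rm K n (v + 1) i ∧ (T.card + i ≠ s + 1 → c T = 0) := Iff.rfl

theorem mul_Rm (l : R K n) (hl : l ∈ Rd K n 1) (e i : ℕ) (q : R K n)
    (hq : q ∈ Rm K n e (i + 1)) : l * q ∈ Rm K n e i := by
  unfold Rm at hq ⊢
  by_cases h : i + 1 ≤ e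
  · rw [if_pos h] at hq
    rw [if_pos (by omega)]
    have h1 : l.IsHomogeneous 1 := hl
    have h2 : q.IsHomogeneous (e - (i + 1)) := hq
    have h3 := h1.mul h2
    have h4 : 1 + (e - (i + 1)) = e - i := by omega
    rw [h4] at h3
    exact h3
  · rw [if_neg h] at hq
    have h0 : q = 0 := (Submodule.mem_bot K).mp hq
    rw [h0, mul_zero]
    exact Submodule.zero_mem _

theorem cobL_mem (l : Fin s → R K n) (hl : ∀ t, l t ∈ Rd K n 1) (v i : ℕ) :
    ∀ c ∈ CC K n s v (i + 1), cobL l c ∈ CC K n s v i := by
  intro c hc
  rw [mem_CC] at hc ⊢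
  intro T
  rw [cobL_apply, cob]
  refine ⟨Submodule.sum_mem _ fun t _ => ?_, fun h => Finset.sum_eq_zero fun t ht => ?_⟩
  · have h1 := mul_Rm (l t) (hl t) (v + 1) i _ (hc (T.erase t)).1
    rcases neg_one_pow_eq_or (R K n) (T.filter (· < t)).card with h | h
    · rw [h, one_mul]; exact h1
    · rw [h, neg_one_mul]; exact Submodule.neg_mem _ h1
  · have h1 : (T.erase t).card + (i + 1) ≠ s + 1 := by
      rw [Finset.card_erase_of_mem ht]
      have : 0 < T.card := Finset.card_pos.mpr ⟨t, ht⟩
      omega
    rw [(hc (T.erase t)).2 h1, mul_zero, mul_zero]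

theorem fin_CC (v i : ℕ) : Module.Finite K (CC K n s v i) := by
  have h1 : Module.Finite K (Rm K n (v + 1) i) := by
    by_cases h : i ≤ v + 1
    · have h2 : Rm K n (v + 1) i = Rd K n (v + 1 - i) := if_pos h
      rw [h2]
      exact (t_dimr K n _).1
    · have h2 : Rm K n (v + 1) i = ⊥ := if_neg h
      rw [h2]
      exact (inferInstance : Module.Finite K (⊥ : Submodule K (R K n)))
  let g : CC K n s v i →ₗ[K] (Finset (Fin s) → Rm K n (v + 1) i) :=
    { toFun := fun c T => ⟨c.1 T, (c.2 T).1⟩
      map_add' := fun _ _ => rfl
      map_smul' := fun _ _ => rfl }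
  have hg : Function.Injective g := by
    intro a b hab
    apply Subtype.ext
    funext T
    exact congrArg Subtype.val (congrFun hab T)
  exact Module.Finite.of_injective g hg

/-- The coboundary between the spaces `CC`. -/
def dl (l : Fin s → R K n) (hl : ∀ t, l t ∈ Rd K n 1) (v i : ℕ) :
    CC K n s v (i + 1) →ₗ[K] CC K n s v i :=
  (cobL l).restrict (cobL_mem l hl v i)

theorem dl_val (l : Fin s → R K n) (hl : ∀ t, l t ∈ Rd K n 1) (v i : ℕ)
    (c : CC K n s v (i + 1)) (T : Finset (Fin s)) :
    (dl l hl v i c : Finset (Fin s) → R K n) T = cob l c.1 T := rfl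

theorem cob_congr (l : Fin s → R K n) (c c' : Finset (Fin s) → R K n)
    (T : Finset (Fin s)) (h : ∀ t ∈ T, c (T.erase t) = c' (T.erase t)) :
    cob l c T = cob l c' T := by
  rw [cob, cob]
  exact Finset.sum_congr rfl fun t ht => by rw [h t ht]

end

end GEN_

open GEN_ in
theorem p_GEN (h_KSP : T_KSP.{u}) : T_GEN.{u} := by
  intro K _ _ n s v hv x hx hp h hh
  have hl1 : ∀ (p : Fin v → K) (t : Fin s), ∑ k, p k • x t k ∈ Rd K n 1 := fun p t =>
    Submodule.sum_mem _ fun k _ => Submodule.smul_mem _ _ (hx t k)
  have hfin : ∀ i, Module.Finite K (CC K n s v i) := fun i => fin_CC v i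
  have hfinD : ∀ i, Module.Finite K (Module.Dual K (CC K n s v i)) := fun i => inferInstance
  -- the operators
  let D : ∀ i, Fin v → (Module.Dual K (CC K n s v i) →ₗ[K] Module.Dual K (CC K n s v (i + 1))) :=
    fun i k => (dl (fun t => x t k) (fun t => hx t k) v i).dualMap
  have hD : ∀ i k (y : Module.Dual K (CC K n s v i)) (c : CC K n s v (i + 1)),
      D i k y c = y (dl (fun t => x t k) (fun t => hx t k) v i c) := fun _ _ _ _ => rfl
  have hval : ∀ (p : Fin v → K) (i : ℕ) (y : Module.Dual K (CC K n s v i))
      (c : CC K n s v (i + 1)), (∑ k, p k • D i k y) c =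
        y (dl (fun t => ∑ k, p k • x t k) (hl1 p) v i c) := by
    intro p i y c
    have h1 : dl (fun t => ∑ k, p k • x t k) (hl1 p) v i c =
        ∑ k, p k • dl (fun t => x t k) (fun t => hx t k) v i c := by
      apply Subtype.ext
      rw [Submodule.coe_sum]
      exact (cobL_lin x p c.1).symm
    rw [h1, map_sum, LinearMap.sum_apply]
    refine Finset.sum_congr rfl fun k _ => ?_
    rw [map_smul, LinearMap.smul_apply, hD]
  have hS : Sys K (fun i => Module.Dual K (CC K n s v i)) v v D := by
    refine ⟨fun y => ?_, fun p i y => ?_, fun p hp0 i hi y hy => ?_⟩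
    · ext c
      have h0 : c = 0 := by
        apply Subtype.ext
        funext T
        refine (c.2 T).2 ?_
        have := Finset.card_le_univ T
        rw [Fintype.card_fin] at this
        omega
      rw [h0, map_zero, map_zero]
    · ext c
      rw [hval, hval]
      have h0 : dl (fun t => ∑ k, p k • x t k) (hl1 p) v i
          (dl (fun t => ∑ k, p k • x t k) (hl1 p) v (i + 1) c) = 0 := by
        apply Subtype.ext
        funext T
        exact (t_cob K n s _).1 c.1 T
      rw [h0, map_zero]
      rfl
    · set l : Fin s → R K n := fun t => ∑ k, p k • x t k with hl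
      have hker : y ∈ (LinearMap.ker (dl l (hl1 p) v i)).dualAnnihilator := by
        rw [Submodule.mem_dualAnnihilator]
        intro c hc
        rw [LinearMap.mem_ker] at hc
        have hcob : ∀ T, cob l c.1 T = 0 := by
          intro T
          rw [← dl_val l (hl1 p) v i c T, hc]
          rfl
        by_cases his : i ≤ s
        · have hcm : ∀ T, c.1 T ∈ Rd K n ((v - i - 1) + 1) := by
            intro T
            have h1 := (c.2 T).1
            unfold Rm at h1
            rw [if_pos (by omega)] at h1
            have h2 : v + 1 - (i + 1) = (v - i - 1) + 1 := by omega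
            rw [h2] at h1
            exact h1
          obtain ⟨b, hb1, hb2⟩ := h_KSP K n s l (hl1 p) (hp p hp0) (s - i) (v - i - 1) c.1 hcm
            (fun T _ => hcob T)
          let z : Finset (Fin s) → R K n := fun T => if T.card + (i + 1 + 1) = s + 1 then b T else 0
          have hz : z ∈ CC K n s v (i + 1 + 1) := by
            rw [mem_CC]
            intro T
            by_cases hT : T.card + (i + 1 + 1) = s + 1
            · refine ⟨?_, fun h => absurd hT h⟩
              simp only [z, if_pos hT]
              unfold Rm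
              rw [if_pos (by omega)]
              have h2 : v + 1 - (i + 1 + 1) = v - i - 1 := by omega
              rw [h2]
              exact hb1 T
            · simp only [z, if_neg hT]
              exact ⟨Submodule.zero_mem _, fun _ => trivial⟩
          have hzc : dl l (hl1 p) v (i + 1) ⟨z, hz⟩ = c := by
            apply Subtype.ext
            funext T
            by_cases hT : T.card + (i + 1) = s + 1
            · rw [dl_val, hb2 T (by omega)]
              refine cob_congr l _ _ T fun t ht => ?_
              have h1 : (T.erase t).card + (i + 1 + 1) = s + 1 := by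
                rw [Finset.card_erase_of_mem ht]
                have : 0 < T.card := Finset.card_pos.mpr ⟨t, ht⟩
                omega
              simp only [z, if_pos h1]
            · rw [(c.2 T).2 hT]
              exact ((dl l (hl1 p) v (i + 1) ⟨z, hz⟩).2 T).2 hT
          rw [← hzc, ← hval p (i + 1) y, hy]
          rfl
        · have h0 : c = 0 := by
            apply Subtype.ext
            funext T
            exact (c.2 T).2 (by omega)
          rw [h0, map_zero]
      rw [← LinearMap.range_dualMap_eq_dualAnnihilator_ker] at hker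
      obtain ⟨y', hy'⟩ := hker
      refine ⟨y', ?_⟩
      ext c
      rw [hval, ← hy']
      rfl
  have hlin := a_lin K (fun i => Module.Dual K (CC K n s v i)) v D hS
  -- surjectivity
  let Φ : CC K n s v 2 →ₗ[K] (Fin v → CC K n s v 1) :=
    LinearMap.pi fun k => dl (fun t => x t k) (fun t => hx t k) v 1
  have hΦ : Function.Surjective Φ := by
    rw [← LinearMap.dualMap_injective_iff]
    rw [injective_iff_map_eq_zero]
    intro W hW
    have h1 := hlin (fun k => W ∘ₗ LinearMap.single K (fun _ : Fin v => CC K n s v 1) k) (by
      ext c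
      rw [LinearMap.sum_apply]
      have h2 : W (Φ c) = 0 := by
        have := congrArg (fun F : Module.Dual K (CC K n s v 2) => F c) hW
        exact this
      have h3 : Φ c = ∑ k, LinearMap.single K (fun _ : Fin v => CC K n s v 1) k (Φ c k) := by
        simp only [LinearMap.coe_single]
        exact (Finset.univ_sum_single (Φ c)).symm
      rw [h3, map_sum] at h2
      exact h2)
    refine LinearMap.pi_ext' fun k => ?_
    exact congrFun h1 k
  -- the element
  have hcm : ∀ k, (fun T : Finset (Fin s) => if T.card = s then h k else 0) ∈ CC K n s v 1 := by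
    intro k
    rw [mem_CC]
    intro T
    by_cases hT : T.card = s
    · refine ⟨?_, fun h' => absurd (by omega) h'⟩
      simp only [if_pos hT]
      unfold Rm
      rw [if_pos (by omega)]
      exact hh k
    · simp only [if_neg hT]
      exact ⟨Submodule.zero_mem _, fun _ => trivial⟩
  obtain ⟨c, hc⟩ := hΦ fun k => ⟨_, hcm k⟩
  refine ⟨fun t => (-1) ^ ((Finset.univ : Finset (Fin s)).filter (· < t)).card *
    c.1 (Finset.univ.erase t), fun t => ?_, fun k => ?_⟩
  · have h1 := (c.2 (Finset.univ.erase t)).1
    unfold Rm at h1
    rw [if_pos (by omega)] at h1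
    have h2 : v + 1 - 2 = v - 1 := by omega
    rw [h2] at h1
    beta_reduce
    rcases neg_one_pow_eq_or (R K n) ((Finset.univ : Finset (Fin s)).filter (· < t)).card with
      h | h
    · rw [h, one_mul]; exact h1
    · rw [h, neg_one_mul]; exact Submodule.neg_mem _ h1
  · have h1 := congrArg (fun F : Fin v → CC K n s v 1 => (F k).1 Finset.univ) hc
    have h2 : cob (fun t => x t k) c.1 Finset.univ = h k := by
      have h3 : (if (Finset.univ : Finset (Fin s)).card = s then h k else 0) = h k := by
        rw [if_pos (by rw [Finset.card_univ, Fintype.card_fin])]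
      rw [← h3]
      exact h1
    rw [← h2, cob]
    refine Finset.sum_congr rfl fun t _ => ?_
    ring

end

end Pool.Agent.EGS
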