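import Pool.Agent.EGS.Targets

set_option autoImplicit false
open MvPolynomial hiding R

/-!
# Project EGS: growth of a hyperplane, all degrees (target GRW)
-/

namespace Pool.Agent.EGS

open Pool.Agent.EGU

universe u

noncomputable section

theorem p_GRW (h_GEN : T_GEN.{u}) (h_SOK : T_SOK.{u}) : T_GRW.{u} := by
  intro K _ _ n d v f a hCI hmono hv hdv W hJW hWR hrank
  have hfin : ∀ e, Module.Finite K (Rd K n e) := fun e => (t_dimr K n e).1
  obtain ⟨w, hw, hind, hWf⟩ := (a_basis K n n f d v).1 W hJW hWR hrank
  obtain ⟨-, -, hfr, hWp⟩ := (a_basis K n n f d v).2 w hw hind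
  -- some space is small
  have key : ∃ p : Fin v → K, p ≠ 0 ∧ Module.finrank K (L f w p) + 1 ≤ n := by
    by_contra hcon
    push Not at hcon
    have hSfin : Module.Finite K (Sig f w) := by
      have := hfin 1
      let g : Sig f w →ₗ[K] (Fin v → Rd K n 1) :=
        { toFun := fun x k => ⟨x.1 k, x.2.1 k⟩
          map_add' := fun _ _ => rfl
          map_smul' := fun _ _ => rfl }
      have hg : Function.Injective g := by
        intro a b hab
        apply Subtype.ext
        funext T
        exact congrArg Subtype.val (congrFun hab T)
      exact Module.Finite.of_injective g hg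
    set B := Module.finBasis K (Sig f w) with hB
    set s := Module.finrank K (Sig f w) with hs
    set x : Fin s → Fin v → R K n := fun t => (B t).1 with hx
    have hxm : ∀ t, x t ∈ Sig f w := fun t => (B t).2
    have hx1 : ∀ t k, x t k ∈ Rd K n 1 := fun t => (hxm t).1
    have hspan : Submodule.span K (Set.range x) = Sig f w := by
      have h1 := congrArg (Submodule.map (Sig f w).subtype) B.span_eq
      rw [Submodule.map_span, Submodule.map_top, Submodule.range_subtype, ← Set.range_comp] at h1
      exact h1
    have hL : ∀ p : Fin v → K,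
        Submodule.span K (Set.range fun t => ∑ k, p k • x t k) = L f w p := by
      intro p
      have h1 : (fun t => ∑ k, p k • x t k) = ⇑(∑ k, p k •
          (LinearMap.proj k : (Fin v → R K n) →ₗ[K] R K n)) ∘ x := by
        funext t
        rw [Function.comp_apply, LinearMap.sum_apply]
        rfl
      rw [L, ← hspan, Submodule.map_span, ← Set.range_comp, h1]
    have hfull : ∀ p : Fin v → K, p ≠ 0 →
        Rd K n 1 ≤ Submodule.span K (Set.range fun t => ∑ k, p k • x t k) := by
      intro p hp
      have hle : Submodule.span K (Set.range fun t => ∑ k, p k • x t k) ≤ Rd K n 1 := by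
        rw [Submodule.span_le]
        rintro _ ⟨t, rfl⟩
        exact Submodule.sum_mem _ fun k _ => Submodule.smul_mem _ _ (hx1 t k)
      have := hfin 1
      have h2 : Module.finrank K (Rd K n 1) ≤
          Module.finrank K (Submodule.span K (Set.range fun t => ∑ k, p k • x t k)) := by
        rw [hL p, (t_dimr K n 1).2.2]
        have := hcon p hp
        omega
      exact (Submodule.eq_of_le_of_finrank_le hle h2).ge
    set k0 : Fin v := ⟨0, hv⟩ with hk0
    have hall : ∀ h ∈ Rd K n v, h * w k0 ∈ J f := by
      intro h hh
      obtain ⟨g, -, hg⟩ := h_GEN K n s v hv x hx1 hfull (Pi.single k0 h) (by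
        intro k
        by_cases hk : k = k0
        · subst hk
          rw [Pi.single_eq_same]
          exact hh
        · rw [Pi.single_eq_of_ne hk]
          exact Submodule.zero_mem _)
      have h1 : h * w k0 = ∑ k, (Pi.single k0 h : Fin v → R K n) k * w k := by
        rw [Finset.sum_eq_single k0]
        · rw [Pi.single_eq_same]
        · intro k _ hk
          rw [Pi.single_eq_of_ne hk, zero_mul]
        · intro hk
          exact absurd (Finset.mem_univ _) hk
      have h2 : h * w k0 = ∑ t, g t * ∑ k, x t k * w k := by
        rw [h1, Finset.sum_congr rfl fun k _ => by rw [hg k, Finset.sum_mul], Finset.sum_comm]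
        refine Finset.sum_congr rfl fun t _ => ?_
        rw [Finset.mul_sum]
        exact Finset.sum_congr rfl fun k _ => by ring
      rw [h2]
      exact Ideal.sum_mem _ fun t _ => Ideal.mul_mem_left _ _ (hxm t).2
    have hmem : w k0 ∈ J f := (h_SOK K n f a hCI hmono).1 v d hdv (w k0) (hw k0) hall
    have hz := hind (Pi.single k0 1) (by
      rw [Finset.sum_eq_single k0]
      · rw [Pi.single_eq_same, one_smul]
        exact hmem
      · intro k _ hk
        rw [Pi.single_eq_of_ne hk, zero_smul]
      · intro hk
        exact absurd (Finset.mem_univ _) hk)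
    have h1 := congrFun hz k0
    rw [Pi.single_eq_same] at h1
    exact one_ne_zero h1
  obtain ⟨p, hp, hpn⟩ := key
  obtain ⟨h1, h2, h3⟩ := hWp p hp
  refine ⟨Wp f d w p, h1, ?_, ?_, ?_⟩
  · rw [hWf]
    exact h2
  · rw [hrank]
    exact h3
  · have h4 := a_hyp K n n f a hCI.hom d v w hw p hp
    rw [hWf]
    omega

end

end Pool.Agent.EGS
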