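import Pool.Agent.EGS.Targets

set_option autoImplicit false
open MvPolynomial hiding R

/-!
# EGS, IDM: from the growth inequality to ideals, second condition
-/

namespace Pool.Agent.EGS

open Pool.Agent.EGU

universe u

noncomputable section

namespace IDM_

lemma S_tw (n : ℕ) : S (tw n) n = n := by
  unfold S
  have h1 : (Finset.univ.filter fun i : Fin n => (i : ℕ) < n) = Finset.univ :=
    Finset.filter_true_of_mem fun i _ => i.2
  rw [h1]
  simp

end IDM_

open IDM_ in
theorem p_IDM (h_SOK : T_SOK.{u}) (h_MTW : T_MTW.{u}) : T_IDM.{u} := by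
  intro K _ n N hn hEQ f hf I hfI hI2 d
  have hm : Monotone (tw n) := fun _ _ _ => le_rfl
  have hS := S_tw n
  obtain ⟨b1, b2, -⟩ := basic t_dimr f I hfI d
  obtain ⟨c1, c2, -⟩ := basic t_dimr f I hfI (d + 1)
  obtain ⟨e1, -, -⟩ := basic t_dimr f I hfI (n - 2)
  have hR2 := (t_dimr K n 2).1
  have key : Module.finrank K (Rd K n 2) ≤
      Module.finrank K (orth f 2 (Rd K n d ⊓ I.restrictScalars K)) + N := by
    rcases Nat.lt_or_ge n (d + 2) with h1 | h1
    · have h2 := (h_MTW K n f (tw n) hf hm d _ b1 inf_le_left).2.2 (by rw [hS]; exact h1)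
      rw [h2]
      exact Nat.le_add_right _ _
    · have h2 := (h_MTW K n f (tw n) hf hm (n - 2) _ e1 inf_le_left).1 (by rw [hS]; omega)
      have h3 : orth f 2 (Rd K n (n - 2) ⊓ I.restrictScalars K) ≤
          orth f 2 (Rd K n d ⊓ I.restrictScalars K) := by
        intro h hh
        refine ⟨hh.1, fun w hw => ?_⟩
        refine (h_SOK K n f (tw n) hf hm).1 (n - 2 - d) (d + 2) (by rw [hS]; omega) (h * w) ?_ ?_
        · have h4 : (h * w).IsHomogeneous (2 + d) := MvPolynomial.IsHomogeneous.mul hh.1 hw.1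
          rw [add_comm] at h4
          exact h4
        · intro b hb
          have h4 : (b * w).IsHomogeneous (n - 2 - d + d) :=
            MvPolynomial.IsHomogeneous.mul hb hw.1
          have h5 : n - 2 - d + d = n - 2 := by omega
          rw [h5] at h4
          have h6 : b * (h * w) = h * (b * w) := by ring
          rw [h6]
          exact hh.2 _ ⟨h4, I.mul_mem_left b hw.2⟩
      have u1 := (t_upl K n n f (tw n) hf.hom d (Rd K n d ⊓ I.restrictScalars K)
        inf_le_left).2.2.2.2.2.2.1 2
      have f1 := fin_le t_dimr u1.2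
      have h4 := Submodule.finrank_mono h3
      omega
  obtain ⟨M, hM1, hM2, hM3⟩ := hEQ d f hf _ b1 inf_le_left key
  refine ⟨M, hM1, hM2, hM3.trans ?_⟩
  have f1 := fin_le t_dimr
    (inf_le_left : Rd K n (d + 1) ⊓ I.restrictScalars K ≤ Rd K n (d + 1))
  have h8 := Submodule.finrank_mono (up_sub f I hfI d)
  have h9 : hI I (d + 1) = Module.finrank K ↥(Rd K n (d + 1) ⊓ I.restrictScalars K) := rfl
  omega

end

end Pool.Agent.EGS
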