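import Pool.Agent.EGS.Targets

/-!
# Project EGS: combination of the tails
-/

set_option autoImplicit false
open MvPolynomial hiding R

universe u

namespace Pool.Agent.EGS

open Pool.Agent.EGU

namespace KKC_

theorem mem_Std {n : ℕ} (a : Fin n → ℕ) (d : ℕ) (x : Fin n →₀ ℕ) :
    x ∈ Std a d ↔ ∑ i, x i = d ∧ ∀ i, x i < a i := by
  unfold Std
  rw [Finset.mem_filter, Finset.mem_finsuppAntidiag]
  constructor
  · rintro ⟨⟨h1, _⟩, h2⟩
    exact ⟨h1, h2⟩
  · rintro ⟨h1, h2⟩
    exact ⟨⟨h1, Finset.subset_univ _⟩, h2⟩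

theorem sum_cons {n : ℕ} (e : ℕ) (y : Fin n →₀ ℕ) :
    ∑ i, Finsupp.cons e y i = e + ∑ i, y i := by
  rw [Fin.sum_univ_succ, Finsupp.cons_zero]
  simp only [Finsupp.cons_succ]

theorem cons_inj {n : ℕ} {e e' : ℕ} {y y' : Fin n →₀ ℕ}
    (h : Finsupp.cons e y = Finsupp.cons e' y') : e = e' ∧ y = y' := by
  constructor
  · rw [← Finsupp.cons_zero e y, h, Finsupp.cons_zero]
  · rw [← Finsupp.tail_cons e y, h, Finsupp.tail_cons]

theorem cons_mem {n : ℕ} {e d : ℕ} {y : Fin n →₀ ℕ} (he : e < 2) (hy : y ∈ Std (tw n) d) :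
    Finsupp.cons e y ∈ Std (tw (n + 1)) (e + d) := by
  rw [mem_Std] at hy ⊢
  refine ⟨by rw [sum_cons, hy.1], fun i => ?_⟩
  refine Fin.cases ?_ (fun j => ?_) i
  · rw [Finsupp.cons_zero]
    exact he
  · rw [Finsupp.cons_succ]
    exact hy.2 j

/-- the tail of a standard monomial -/
theorem tail_mem {n : ℕ} {d : ℕ} {x : Fin (n + 1) →₀ ℕ} (hx : x ∈ Std (tw (n + 1)) d) :
    ∃ e y, x = Finsupp.cons e y ∧ e < 2 ∧ e + ∑ i, y i = d ∧ ∀ i, y i < 2 := by
  rw [mem_Std] at hx
  refine ⟨x 0, Finsupp.tail x, (Finsupp.cons_tail x).symm, hx.2 0, ?_, fun i => hx.2 i.succ⟩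
  rw [← sum_cons, Finsupp.cons_tail]
  exact hx.1

theorem le_cons {n : ℕ} {e e' : ℕ} {y y' : Fin n →₀ ℕ}
    (h : Finsupp.cons e y ≤ Finsupp.cons e' y') : e ≤ e' ∧ y ≤ y' := by
  constructor
  · have := h 0
    rwa [Finsupp.cons_zero, Finsupp.cons_zero] at this
  · intro i
    have := h i.succ
    rwa [Finsupp.cons_succ, Finsupp.cons_succ] at this

end KKC_

open KKC_ in
/-- KKC. -/
theorem p_KKC (h_KKM : T_KKM) : T_KKC := by
  classical
  intro n d k0 k1 u0 u1 h0 h1
  obtain ⟨M0, hM0, hc0, hs0⟩ := h0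
  obtain ⟨M1, hM1, hc1, hs1⟩ := h1
  set F : Finset (Fin (n + 1) →₀ ℕ) := M0.image (Finsupp.cons 1) ∪ M1.image (Finsupp.cons 0)
    with hF
  have hFS : F ⊆ Std (tw (n + 1)) (d + 1) := by
    intro x hx
    rw [hF, Finset.mem_union, Finset.mem_image, Finset.mem_image] at hx
    rcases hx with ⟨y, hy, rfl⟩ | ⟨y, hy, rfl⟩
    · have := cons_mem (e := 1) (by norm_num) (hM0.1 hy)
      rwa [add_comm 1 d] at this
    · have := cons_mem (e := 0) (by norm_num) (hM1.1 hy)
      rwa [zero_add] at this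
  have hFc : F.card = k0 + k1 := by
    rw [hF, Finset.card_union_of_disjoint, Finset.card_image_of_injective,
      Finset.card_image_of_injective, hc0, hc1]
    · exact fun y y' h => (cons_inj h).2
    · exact fun y y' h => (cons_inj h).2
    · rw [Finset.disjoint_left]
      intro x hx hx'
      rw [Finset.mem_image] at hx hx'
      obtain ⟨y, _, rfl⟩ := hx
      obtain ⟨y', _, h⟩ := hx'
      have := (cons_inj h).1
      omega
  obtain ⟨_, _, _, hexi, _⟩ := t_sega (n + 1) (tw (n + 1)) (d + 1)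
  obtain ⟨M, hM, hMc⟩ := hexi (k0 + k1) (by rw [← hFc]; exact Finset.card_le_card hFS)
  refine ⟨M, hM, hMc, ?_⟩
  refine (h_KKM (n + 1) (d + 1) F M hFS hM (by rw [hMc, hFc])).trans ?_
  -- the shadow of `F`
  have hsub : shadow (tw (n + 1)) (d + 1) F ⊆
      (shadow (tw n) d M0 ∪ M1).image (Finsupp.cons 1) ∪
        (shadow (tw n) (d + 1) M1).image (Finsupp.cons 0) := by
    intro x hx
    unfold shadow at hx
    rw [Finset.mem_filter] at hx
    obtain ⟨hx1, z, hz, hzx⟩ := hx
    obtain ⟨e, y, rfl, he, hsum, hlt⟩ := tail_mem hx1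
    rw [hF, Finset.mem_union, Finset.mem_image, Finset.mem_image] at hz
    rw [Finset.mem_union, Finset.mem_image, Finset.mem_image]
    have he' : e = 0 ∨ e = 1 := by omega
    rcases he' with rfl | rfl
    · right
      refine ⟨y, ?_, rfl⟩
      unfold shadow
      rw [Finset.mem_filter, mem_Std]
      refine ⟨⟨by omega, hlt⟩, ?_⟩
      rcases hz with ⟨y', hy', rfl⟩ | ⟨y', hy', rfl⟩
      · have := (le_cons hzx).1
        omega
      · exact ⟨y', hy', (le_cons hzx).2⟩
    · left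
      refine ⟨y, ?_, rfl⟩
      rw [Finset.mem_union]
      rcases hz with ⟨y', hy', rfl⟩ | ⟨y', hy', rfl⟩
      · left
        unfold shadow
        rw [Finset.mem_filter, mem_Std]
        exact ⟨⟨by omega, hlt⟩, y', hy', (le_cons hzx).2⟩
      · right
        have hle := (le_cons hzx).2
        have hy'' := (mem_Std _ _ _).1 (hM1.1 hy')
        have heq : y' = y := by
          ext i
          by_contra hne
          have hlt' : y' i < y i := lt_of_le_of_ne (hle i) hne
          have := Finset.sum_lt_sum (fun i _ => hle i) ⟨i, Finset.mem_univ i, hlt'⟩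
          omega
        rw [← heq]
        exact hy'
  have hcard := Finset.card_le_card hsub
  have h2 : (shadow (tw n) d M0 ∪ M1).card ≤ max u0 k1 := by
    obtain ⟨_, _, _, _, hnest⟩ := t_sega n (tw n) (d + 1)
    obtain ⟨_, _, _, _, hsg⟩ := t_segb n
    have h3 := hsg (tw n) d M0 hM0
    rcases le_total (shadow (tw n) d M0).card M1.card with h4 | h4
    · rw [Finset.union_eq_right.2 (hnest _ _ h3 hM1 h4), hc1]
      exact le_max_right _ _
    · rw [Finset.union_eq_left.2 (hnest _ _ hM1 h3 h4)]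
      exact hs0.trans (le_max_left _ _)
  refine hcard.trans ((Finset.card_union_le _ _).trans ?_)
  exact Nat.add_le_add (Finset.card_image_le.trans h2) (Finset.card_image_le.trans hs1)

end Pool.Agent.EGS
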