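import Pool.Agent.EGS.Targets

set_option autoImplicit false
open MvPolynomial hiding R

/-!
Target KKM of the project EGS: Kruskal-Katona for the shadow of squarefree monomials.
-/

namespace Pool.Agent.EGS

open Pool.Agent.EGU

universe u

namespace KKM_

/-- The complement of the support, reversed. -/
def phi {n : ℕ} (x : Fin n →₀ ℕ) : Finset (Fin n) :=
  Finset.univ.filter (fun i => x (Fin.rev i) = 0)

/-- The inverse map. -/
noncomputable def psi {n : ℕ} (s : Finset (Fin n)) : Fin n →₀ ℕ :=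
  Finsupp.equivFunOnFinite.symm (fun i => if Fin.rev i ∈ s then 0 else 1)

lemma psi_apply {n : ℕ} (s : Finset (Fin n)) (i : Fin n) :
    psi s i = if Fin.rev i ∈ s then 0 else 1 := by
  simp [psi]

lemma mem_phi {n : ℕ} (x : Fin n →₀ ℕ) (i : Fin n) : i ∈ phi x ↔ x (Fin.rev i) = 0 := by
  simp [phi]

lemma mem_std {n d : ℕ} (x : Fin n →₀ ℕ) :
    x ∈ Std (tw n) d ↔ (∑ i, x i = d) ∧ ∀ i, x i < 2 := by
  simp [Std]

lemma phi_psi {n : ℕ} (s : Finset (Fin n)) : phi (psi s) = s := by
  ext i
  rw [mem_phi, psi_apply, Fin.rev_rev]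
  by_cases h : i ∈ s <;> simp [h]

lemma card_phi {n d : ℕ} (x : Fin n →₀ ℕ) (hx : x ∈ Std (tw n) d) : (phi x).card + d = n := by
  rw [mem_std] at hx
  have h1 : (phi x).card = (Finset.univ.filter (fun i : Fin n => x i = 0)).card := by
    refine Finset.card_bij (fun i _ => Fin.rev i) ?_ ?_ ?_
    · intro i hi
      rw [mem_phi] at hi
      simp [hi]
    · intro i _ j _ h
      exact Fin.rev_injective h
    · intro i hi
      refine ⟨Fin.rev i, ?_, Fin.rev_rev i⟩
      rw [mem_phi, Fin.rev_rev]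
      simpa using hi
  have h2 : d = (Finset.univ.filter (fun i : Fin n => ¬ x i = 0)).card := by
    rw [← hx.1, Finset.card_filter]
    refine Finset.sum_congr rfl fun i _ => ?_
    have := hx.2 i
    by_cases h : x i = 0
    · simp [h]
    · rw [if_pos h]
      omega
  have h3 := Finset.card_filter_add_card_filter_not (s := (Finset.univ : Finset (Fin n)))
    (fun i : Fin n => x i = 0)
  rw [Finset.card_univ, Fintype.card_fin] at h3
  omega

lemma phi_inj {n d : ℕ} : Set.InjOn (phi (n := n)) (Std (tw n) d : Set (Fin n →₀ ℕ)) := by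
  intro x hx y hy h
  rw [Finset.mem_coe, mem_std] at hx hy
  ext i
  have h1 : x i = 0 ↔ y i = 0 := by
    have := Finset.ext_iff.1 h (Fin.rev i)
    rw [mem_phi, mem_phi, Fin.rev_rev] at this
    exact this
  have := hx.2 i
  have := hy.2 i
  by_cases h2 : x i = 0
  · rw [h2, h1.1 h2]
  · have : y i ≠ 0 := fun h3 => h2 (h1.2 h3)
    omega

lemma psi_mem {n d : ℕ} (s : Finset (Fin n)) (hs : s.card + d = n) : psi s ∈ Std (tw n) d := by
  have h2 : ∀ i, psi s i < 2 := by
    intro i
    rw [psi_apply]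
    split_ifs <;> omega
  have h : psi s ∈ Std (tw n) (∑ i, psi s i) := by
    rw [mem_std]
    exact ⟨rfl, h2⟩
  have h3 := card_phi _ h
  rw [phi_psi] at h3
  have h4 : ∑ i, psi s i = d := by omega
  rw [h4] at h
  exact h

lemma lex_of_lt {n d : ℕ} (x : Fin n →₀ ℕ) (hx : x ∈ Std (tw n) d) (t : Finset (Fin n))
    (h : toColex t < toColex (phi x)) : lexgt (psi t) x := by
  rw [mem_std] at hx
  rw [Finset.Colex.toColex_lt_toColex_iff_max'_mem] at h
  obtain ⟨hne, hm⟩ := h
  set m := (symmDiff t (phi x)).max' (Finset.symmDiff_nonempty.2 hne) with hmdef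
  have hmem : m ∈ symmDiff t (phi x) := Finset.max'_mem _ _
  have hmt : m ∉ t := by
    rw [Finset.mem_symmDiff] at hmem
    rcases hmem with h1 | h1
    · exact absurd hm h1.2
    · exact h1.2
  refine ⟨Fin.rev m, ?_, ?_⟩
  · intro k hk
    have hk' : m < Fin.rev k := by
      rw [← Fin.rev_lt_rev, Fin.rev_rev]
      exact hk
    have h1 : Fin.rev k ∉ symmDiff t (phi x) := by
      intro h2
      exact absurd (Finset.le_max' _ _ h2) (not_le.2 hk')
    rw [Finset.mem_symmDiff] at h1
    have h2 : Fin.rev k ∈ t ↔ x k = 0 := by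
      have : Fin.rev k ∈ phi x ↔ x k = 0 := by rw [mem_phi, Fin.rev_rev]
      rw [← this]
      tauto
    rw [psi_apply]
    have := hx.2 k
    by_cases h3 : Fin.rev k ∈ t
    · rw [if_pos h3, h2.1 h3]
    · rw [if_neg h3]
      have : x k ≠ 0 := fun h4 => h3 (h2.2 h4)
      omega
  · rw [psi_apply, Fin.rev_rev, if_neg hmt]
    have := (mem_phi x m).1 hm
    omega

lemma image_shadow {n d : ℕ} (F : Finset (Fin n →₀ ℕ)) (hF : F ⊆ Std (tw n) d) :
    (Pool.Agent.EGU.shadow (tw n) d F).image phi = Finset.shadow (F.image phi) := by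
  ext t
  rw [Finset.mem_shadow_iff_exists_mem_card_add_one]
  simp only [Finset.mem_image]
  constructor
  · rintro ⟨x, hx, rfl⟩
    rw [Pool.Agent.EGU.shadow, Finset.mem_filter] at hx
    obtain ⟨hx1, y, hy, hyx⟩ := hx
    refine ⟨phi y, ⟨y, hy, rfl⟩, ?_, ?_⟩
    · intro i hi
      rw [mem_phi] at hi ⊢
      have := hyx (Fin.rev i)
      omega
    · have h1 := card_phi x hx1
      have h2 := card_phi y (hF hy)
      omega
  · rintro ⟨_, ⟨y, hy, rfl⟩, ht, hc⟩
    have h2 := card_phi y (hF hy)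
    refine ⟨psi t, ?_, phi_psi t⟩
    rw [Pool.Agent.EGU.shadow, Finset.mem_filter]
    refine ⟨psi_mem t (by omega), y, hy, ?_⟩
    intro i
    rw [psi_apply]
    have h3 := ((mem_std y).1 (hF hy)).2 i
    split_ifs with h
    · have := ht h
      rw [mem_phi, Fin.rev_rev] at this
      omega
    · omega

lemma card_shadow {n d : ℕ} (F : Finset (Fin n →₀ ℕ)) (hF : F ⊆ Std (tw n) d) :
    (Pool.Agent.EGU.shadow (tw n) d F).card = (Finset.shadow (F.image phi)).card := by
  rw [← image_shadow F hF, Finset.card_image_of_injOn]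
  refine (phi_inj (n := n) (d := d + 1)).mono ?_
  intro x hx
  rw [Finset.mem_coe, Pool.Agent.EGU.shadow, Finset.mem_filter] at hx
  exact hx.1

end KKM_

open KKM_ in
theorem p_KKM : T_KKM := by
  intro n d F M hF hM hc
  rw [card_shadow M hM.1, card_shadow F hF]
  refine Finset.kruskal_katona (r := n - d) ?_ ?_ ?_
  · intro s hs
    rw [Finset.mem_coe, Finset.mem_image] at hs
    obtain ⟨x, hx, rfl⟩ := hs
    have := card_phi x (hF hx)
    omega
  · rw [Finset.card_image_of_injOn (phi_inj.mono (Finset.coe_subset.2 hF)),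
      Finset.card_image_of_injOn (phi_inj.mono (Finset.coe_subset.2 hM.1))]
    exact hc
  · constructor
    · intro s hs
      rw [Finset.mem_coe, Finset.mem_image] at hs
      obtain ⟨x, hx, rfl⟩ := hs
      have := card_phi x (hM.1 hx)
      omega
    · rintro s t hs ⟨hlt, ht⟩
      rw [Finset.mem_image] at hs
      obtain ⟨x, hx, rfl⟩ := hs
      have h1 := card_phi x (hM.1 hx)
      rw [Finset.mem_image]
      refine ⟨psi t, ?_, phi_psi t⟩
      exact hM.2 x hx (psi t) (psi_mem t (by omega)) (lex_of_lt x (hM.1 hx) t hlt)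

end Pool.Agent.EGS
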