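import Pool.Agent.EGS.Targets

set_option autoImplicit false
open MvPolynomial hiding R

/-!
Project EGS, target KSP: the Koszul cohomology of linear forms which span `R_1` vanishes in all
levels in positive degrees of the values.
-/

namespace Pool.Agent.EGS

open Pool.Agent.EGU

universe u

namespace KSP_

variable {K : Type u} [Field K] {n s : ℕ}

/-- The statement for the cochains on `U`. -/
def E (l : Fin s → R K n) (U : Finset (Fin s)) : Prop :=
  ∀ (j e : ℕ) (c : Finset (Fin s) → R K n), (∀ T, c T ∈ Rd K n (e + 1)) →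
    (∀ T ⊆ U, T.card = j + 1 → cob l c T = 0) →
    ∃ b : Finset (Fin s) → R K n, (∀ T, b T ∈ Rd K n e) ∧
      ∀ T ⊆ U, T.card = j → c T = cob l b T

theorem sgn_mem {d k : ℕ} {x : R K n} (hx : x ∈ Rd K n d) : (-1) ^ k * x ∈ Rd K n d := by
  rcases Nat.even_or_odd k with h | h
  · rw [h.neg_one_pow, one_mul]
    exact hx
  · rw [h.neg_one_pow, neg_one_mul]
    exact Submodule.neg_mem _ hx

theorem sgn_zero {k : ℕ} {x : R K n} (h : (-1) ^ k * x = 0) : x = 0 := by
  have h1 : (-1 : R K n) ^ k * ((-1) ^ k * x) = 0 := by rw [h, mul_zero]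
  rwa [← mul_assoc, CONE_.sgsq, one_mul] at h1

theorem cmp_eq (e : ℕ) (p : R K n) : EMB_.cmp (e + 1) 1 p = homogeneousComponent e p := by
  unfold EMB_.cmp
  rw [if_pos (Nat.le_add_left 1 e), Nat.add_sub_cancel]

/-- The component of the right degree. -/
theorem cob_hc' (l : Fin s → R K n) (hl : ∀ t, l t ∈ Rd K n 1) (e : ℕ)
    (b : Finset (Fin s) → R K n) (T : Finset (Fin s)) (x : R K n) (hx : x ∈ Rd K n (e + 1))
    (h : x = cob l b T) : x = cob l (fun U => homogeneousComponent e (b U)) T := by
  have h1 := EMB_.cob_hc l hl b T (e + 1)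
  rw [← h, EMB_.hc_self hx] at h1
  rw [h1]
  refine CONE_.cob_congr l _ _ T fun t _ => ?_
  exact cmp_eq e _

/-- The step: one more element. -/
theorem step (l : Fin s → R K n) (hl : ∀ t, l t ∈ Rd K n 1) (U : Finset (Fin s)) (t0 : Fin s)
    (ht0 : t0 ∉ U) (hE : E l U) : E l (insert t0 U) := by
  intro j e c hdeg hc
  obtain ⟨hcc, hsub, -, -, hins⟩ := t_cob K n s l
  have hUi : U ⊆ insert t0 U := Finset.subset_insert _ _
  have hnot : ∀ T ⊆ U, t0 ∉ T := fun T hT h => ht0 (hT h)
  obtain ⟨b', hb'd, hb'⟩ := hE j e c hdeg (fun T hT hTc => hc T (hT.trans hUi) hTc)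
  let b2 : Finset (Fin s) → R K n := fun T => if t0 ∈ T then 0 else b' T
  have hb2d : ∀ T, b2 T ∈ Rd K n e := by
    intro T
    show (if t0 ∈ T then (0 : R K n) else b' T) ∈ Rd K n e
    split_ifs
    · exact Submodule.zero_mem _
    · exact hb'd T
  let c' : Finset (Fin s) → R K n := fun T => c T - cob l b2 T
  have hc'd : ∀ T, c' T ∈ Rd K n (e + 1) := fun T =>
    Submodule.sub_mem _ (hdeg T) (EMB_.cob_mem l hl b2 e hb2d T)
  have hb2 : ∀ T ⊆ U, cob l b2 T = cob l b' T := by
    intro T hT
    refine CONE_.cob_congr l b2 b' T (fun t _ => ?_)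
    show (if t0 ∈ T.erase t then (0 : R K n) else b' (T.erase t)) = _
    rw [if_neg (fun h => hnot T hT (Finset.mem_of_mem_erase h))]
  have hc'1 : ∀ T ⊆ U, T.card = j → c' T = 0 := by
    intro T hT hTc
    show c T - cob l b2 T = 0
    rw [hb2 T hT, ← hb' T hT hTc, sub_self]
  have hc'2 : ∀ T ⊆ insert t0 U, T.card = j + 1 → cob l c' T = 0 := by
    intro T hT hTc
    show cob l (fun V => c V - cob l b2 V) T = 0
    rw [hsub c (cob l b2) T, hcc b2 T, sub_zero]
    exact hc T hT hTc
  rcases Nat.eq_zero_or_pos j with hj | hj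
  · subst hj
    refine ⟨b2, hb2d, fun T _ hTc => ?_⟩
    have hT0 : T = ∅ := Finset.card_eq_zero.mp hTc
    subst hT0
    exact sub_eq_zero.mp (hc'1 ∅ (Finset.empty_subset _) hTc)
  · obtain ⟨i, rfl⟩ : ∃ i, j = i + 1 := ⟨j - 1, by omega⟩
    obtain ⟨b1, hb1d, hb1⟩ := hE i e
      (fun V => (-1) ^ (V.filter (· < t0)).card * c' (insert t0 V))
      (fun T => sgn_mem (hc'd _)) (by
        intro T hT hTc
        have h4 := hc'2 (insert t0 T) (Finset.insert_subset_insert _ hT)
          (by rw [Finset.card_insert_of_notMem (hnot T hT), hTc])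
        rw [hins c' t0 T (hnot T hT)] at h4
        have h5 := sgn_zero h4
        rw [hc'1 T hT hTc, mul_zero, zero_sub, neg_eq_zero] at h5
        exact h5)
    let b3 : Finset (Fin s) → R K n := fun T =>
      if t0 ∈ T then (-1) ^ ((T.erase t0).filter (· < t0)).card * b1 (T.erase t0) else 0
    have hb3d : ∀ T, b3 T ∈ Rd K n e := by
      intro T
      show (if t0 ∈ T then (-1) ^ ((T.erase t0).filter (· < t0)).card * b1 (T.erase t0)
        else (0 : R K n)) ∈ Rd K n e
      split_ifs
      · exact sgn_mem (hb1d _)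
      · exact Submodule.zero_mem _
    have hb3a : ∀ T, t0 ∉ T → cob l b3 T = 0 := by
      intro T hT
      have h1 : cob l b3 T = cob l (fun _ => 0) T := by
        refine CONE_.cob_congr l b3 _ T (fun t _ => ?_)
        show (if t0 ∈ T.erase t then _ else (0 : R K n)) = 0
        rw [if_neg (fun h => hT (Finset.mem_of_mem_erase h))]
      rw [h1]
      simp [cob]
    have hb3b : ∀ T, t0 ∉ T → cob l b3 (insert t0 T) =
        - ((-1) ^ (T.filter (· < t0)).card * cob l b1 T) := by
      intro T hT
      rw [hins b3 t0 T hT]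
      have e1 : b3 T = 0 := by
        show (if t0 ∈ T then _ else (0 : R K n)) = 0
        rw [if_neg hT]
      have e2 : cob l (fun V => (-1) ^ (V.filter (· < t0)).card * b3 (insert t0 V)) T =
          cob l b1 T := by
        refine CONE_.cob_congr l _ b1 T (fun t _ => ?_)
        have hn : t0 ∉ T.erase t := fun h => hT (Finset.mem_of_mem_erase h)
        show (-1) ^ ((T.erase t).filter (· < t0)).card *
          (if t0 ∈ insert t0 (T.erase t) then
            (-1) ^ (((insert t0 (T.erase t)).erase t0).filter (· < t0)).card *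
              b1 ((insert t0 (T.erase t)).erase t0) else 0) = b1 (T.erase t)
        rw [if_pos (Finset.mem_insert_self _ _), Finset.erase_insert hn, ← mul_assoc,
          CONE_.sgsq, one_mul]
      rw [e1, e2]
      ring
    refine ⟨fun V => b2 V - b3 V, fun T => Submodule.sub_mem _ (hb2d T) (hb3d T),
      fun T hT hTc => ?_⟩
    rw [hsub b2 b3 T]
    by_cases ht : t0 ∈ T
    · have hT1 : T.erase t0 ⊆ U := by
        intro x hx
        rw [Finset.mem_erase] at hx
        rcases Finset.mem_insert.mp (hT hx.2) with h | h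
        · exact absurd h hx.1
        · exact h
      have hT2 : insert t0 (T.erase t0) = T := Finset.insert_erase ht
      have hT3 : (T.erase t0).card = i := by rw [Finset.card_erase_of_mem ht, hTc]; rfl
      have h8 := hb1 (T.erase t0) hT1 hT3
      have h9 := hb3b (T.erase t0) (Finset.notMem_erase _ _)
      rw [hT2] at h8 h9
      rw [h9, ← h8, ← mul_assoc, CONE_.sgsq, one_mul]
      show c T = cob l b2 T - -(c T - cob l b2 T)
      ring
    · have hT1 : T ⊆ U := by
        intro x hx
        rcases Finset.mem_insert.mp (hT hx) with h | h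
        · exact absurd (h ▸ hx) ht
        · exact h
      rw [hb3a T ht, sub_zero]
      exact sub_eq_zero.mp (hc'1 T hT1 hTc)

theorem steps (l : Fin s → R K n) (hl : ∀ t, l t ∈ Rd K n 1) (U0 : Finset (Fin s))
    (h0 : E l U0) : ∀ V : Finset (Fin s), E l (U0 ∪ V) := by
  intro V
  induction V using Finset.induction_on with
  | empty =>
    rw [Finset.union_empty]
    exact h0
  | insert t V _ ih =>
    by_cases ht : t ∈ U0 ∪ V
    · have h1 : U0 ∪ insert t V = U0 ∪ V := by
        rw [Finset.union_insert, Finset.insert_eq_of_mem ht]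
      rw [h1]
      exact ih
    · rw [Finset.union_insert]
      exact step l hl _ t ht ih

/-- Forms of positive degree are in the ideal of the forms of degree `1`. -/
theorem mem_span (e : ℕ) (p : R K n) (hp : p ∈ Rd K n (e + 1)) :
    p ∈ Ideal.span ((MvPolynomial.X : Fin n → R K n) '' Set.univ) := by
  rw [mem_ideal_span_X_image]
  intro m hm
  have h1 : p.IsHomogeneous (e + 1) := hp
  have h2 := h1 (mem_support_iff.mp hm)
  by_contra hcon
  push Not at hcon
  have h3 : m = 0 := by
    ext i
    exact hcon i (Set.mem_univ i)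
  rw [h3] at h2
  simp at h2

theorem base (l : Fin s → R K n) (hl : ∀ t, l t ∈ Rd K n 1) (U0 : Finset (Fin s))
    (hU0 : LinearIndepOn K l (U0 : Set (Fin s)))
    (hs : Rd K n 1 ≤ Submodule.span K (l '' (U0 : Set (Fin s)))) : E l U0 := by
  intro j e c hdeg hc
  rcases lt_trichotomy j U0.card with hj | hj | hj
  · obtain ⟨b, hb⟩ := BASE_.part1 (t_cone t_cob) t_nzd l hl U0 hU0 U0 (Finset.Subset.refl _)
      j hj c (fun T hT hTc => by rw [hc T hT hTc]; exact Ideal.zero_mem _)
    refine ⟨fun U => homogeneousComponent e (b U), fun T => homogeneousComponent_mem _ _,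
      fun T hT hTc => ?_⟩
    have h1 := hb T hT hTc
    rw [Ideal.mem_bot, sub_eq_zero] at h1
    exact cob_hc' l hl e b T _ (hdeg T) h1
  · have h1 : c U0 ∈ Ideal.span (l '' (U0 : Set (Fin s))) := by
      have h2 : Ideal.span ((MvPolynomial.X : Fin n → R K n) '' Set.univ) ≤
          Ideal.span (l '' (U0 : Set (Fin s))) := by
        rw [Ideal.span_le]
        rintro _ ⟨i, -, rfl⟩
        have h3 : (X i : R K n) ∈ Rd K n 1 := isHomogeneous_X K i
        have h4 := hs h3
        exact Submodule.span_le_restrictScalars K (R K n) _ h4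
      exact h2 (mem_span e _ (hdeg U0))
    obtain ⟨b, hb⟩ := BASE_.exists_cob l U0 (c U0) h1
    refine ⟨fun U => homogeneousComponent e (b U), fun T => homogeneousComponent_mem _ _,
      fun T hT hTc => ?_⟩
    have hTU : T = U0 := Finset.eq_of_subset_of_card_le hT (by omega)
    rw [hTU]
    exact cob_hc' l hl e b U0 _ (hdeg U0) hb.symm
  · refine ⟨fun _ => 0, fun _ => Submodule.zero_mem _, fun T hT hTc => ?_⟩
    have h1 := Finset.card_le_card hT
    omega

end KSP_

open KSP_ in
/-- KSP. The Koszul cohomology of linear forms which span `R_1`. -/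
theorem p_KSP : T_KSP.{u} := by
  classical
  intro K _ n s l hl hspanR j e c hdeg hc
  obtain ⟨b, -, -, hspan, hind⟩ := exists_linearIndepOn_extension (K := K) (v := l)
    (linearIndepOn_empty K l) (Set.empty_subset (Set.univ : Set (Fin s)))
  have hb : ((b.toFinset : Finset (Fin s)) : Set (Fin s)) = b := Set.coe_toFinset b
  have h0 : E l b.toFinset := by
    refine base l hl b.toFinset (by rw [hb]; exact hind) ?_
    rw [hb]
    refine hspanR.trans (Submodule.span_le.2 ?_)
    rintro _ ⟨t, rfl⟩
    exact hspan ⟨t, Set.mem_univ t, rfl⟩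
  have h1 := steps l hl b.toFinset h0 Finset.univ
  have h2 : b.toFinset ∪ Finset.univ = Finset.univ :=
    Finset.univ_subset_iff.1 Finset.subset_union_right
  rw [h2] at h1
  obtain ⟨b', hb'd, hb'⟩ := h1 j e c hdeg (fun T _ hTc => hc T hTc)
  exact ⟨b', hb'd, fun T hTc => hb' T (Finset.subset_univ T) hTc⟩

end Pool.Agent.EGS
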