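import Pool.Agent.EGS.Targets

set_option autoImplicit false
open MvPolynomial hiding R

/-!
# EGS MTW: the dimension of `R_2 / (J : W)_2`
-/

namespace Pool.Agent.EGS

open Pool.Agent.EGU

universe u

noncomputable section

namespace MTW_

theorem mul_mem_Rd {K : Type u} [Field K] {n d e : ℕ} {p q : R K n} (hp : p ∈ Rd K n d)
    (hq : q ∈ Rd K n e) : p * q ∈ Rd K n (d + e) := by
  rw [mem_homogeneousSubmodule] at hp hq ⊢
  exact hp.mul hq

end MTW_

open MTW_

theorem p_MTW (h_SOK : T_SOK.{u}) : T_MTW.{u} := by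
  intro K _ n f a hf hm d W hJW hWR
  have hhom : ∀ i, (f i).IsHomogeneous (a i) := hf.hom
  obtain ⟨hup1, hup2, -, -, -, -, -, -⟩ := t_upl K n n f a hhom d W hWR
  have hstd := (t_std n a hf.pos).1
  refine ⟨?_, ?_, ?_⟩
  · intro hd
    have h1 := a_perf K n f a hf hm d 2 hd W hJW hWR
    have h2 := a_hf K n f a hf d
    have h3 := a_hf K n f a hf 2
    have h4 := hstd d 2 hd
    omega
  · intro hd
    have h1 := a_perf K n f a hf hm (d + 1) 2 (by omega) (up f d W) hup1 hup2
    have h2 := a_hf K n f a hf (d + 1)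
    have h3 := a_hf K n f a hf 2
    have h4 := hstd (d + 1) 2 (by omega)
    have hle : orth f 2 (up f d W) ≤ orth f 2 W := by
      rintro h ⟨hh1, hh2⟩
      refine ⟨hh1, fun w hw => ?_⟩
      refine t_soc a_l1 t_num K n f a hf hm (d + 2) (h * w) ?_ (by omega) ?_
      · have h5 := mul_mem_Rd hh1 (hWR hw)
        rwa [add_comm 2 d] at h5
      · intro k
        have h6 : X k * w ∈ up f d W := by
          refine Submodule.mem_sup_left (Submodule.mul_mem_mul ?_ hw)
          rw [mem_homogeneousSubmodule]
          exact isHomogeneous_X K k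
        have h7 := hh2 _ h6
        have h8 : X k * (h * w) = h * (X k * w) := by ring
        rw [h8]
        exact h7
    have : Module.Finite K (Rd K n 2) := (t_dimr K n 2).1
    have : Module.Finite K (orth f 2 W) :=
      Submodule.finiteDimensional_of_le (fun x hx => hx.1 : orth f 2 W ≤ Rd K n 2)
    have h5 := Submodule.finrank_mono hle
    omega
  · intro hd
    refine le_antisymm (fun x hx => hx.1) fun h hh => ⟨hh, fun w hw => ?_⟩
    have h1 := (h_SOK K n f a hf hm).2 (2 + d) (by omega)
    have h2 := mul_mem_Rd hh (hWR hw)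
    rw [← h1] at h2
    exact h2.2

end

end Pool.Agent.EGS
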