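import Pool.Agent.EGS.Targets
import Pool.Agent.EGS.Num

set_option autoImplicit false
open MvPolynomial hiding R

/-!
# Project EGS (MP_e5dae2_al): target NET, nets of degree `2` modulo six quadrics
-/

namespace Pool.Agent.EGS

open Pool.Agent.EGU

universe u

namespace NET_

variable {K : Type u} [Field K]

theorem fr_mono {n d : ℕ} {U V : Submodule K (R K n)} (h : U ≤ V)
    (hV : V ≤ Rd K n d) : Module.finrank K U ≤ Module.finrank K V := by
  have h1 : Module.Finite K (Rd K n d) := (t_dimr K n d).1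
  have h2 : FiniteDimensional K V := Submodule.finiteDimensional_of_le hV
  exact Submodule.finrank_mono h

/-- One-dimensional spaces. -/
theorem one (f : Fin 6 → R K 6) (hf : CI f (tw 6)) (d : ℕ) (hd : 1 ≤ d) (hd6 : d ≤ 6) :
    Grow f d 1 (6 - d) := by
  have h := a_grow K 6 f (tw 6) hf (NU_.mono_tw 6) d 1
  rw [Finset.sum_range_one, Nat.add_zero, Nat.zero_add, NU_.Pt_tw 6 d d hd hd6] at h
  exact h

/-- Two-dimensional spaces. -/
theorem two (f : Fin 6 → R K 6) (hf : CI f (tw 6)) (d : ℕ) (hd6 : d < 6) :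
    Grow f d 2 (2 * (6 - d) - 1) :=
  (growV2 a_v2 t_bc1 a_bc2 K 6 d d f (tw 6) hf (NU_.mono_tw 6) (NU_.two_tw 6) hd6
    (by rw [NU_.S_tw 6 d hd6.le]) (by rw [NU_.S_tw 6 (d + 1) hd6]; omega)).1

/-- The segment of three variables. -/
theorem seg (h_SHQ : T_SHQ) (u : ℕ) (h : Sh (tw 5) 1 3 u) : 9 ≤ u := by
  obtain ⟨M, hM1, hM2, hM3⟩ := h
  obtain ⟨M', h1, h2, h3⟩ := h_SHQ 5 1 3 le_rfl (by norm_num)
  obtain ⟨-, -, -, -, hs⟩ := t_sega 5 (tw 5) 1
  have e1 : M = M' := Finset.Subset.antisymm (hs M M' hM1 h1 (by omega))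
    (hs M' M h1 hM1 (by omega))
  have e2 : Nat.choose 3 2 = 3 := by decide
  rw [e2] at h3
  rw [e1] at hM3
  omega

/-- The first case: some element is killed by a linear form. -/
theorem case1 (h_TAI : T_TAI.{u}) (h_SHQ : T_SHQ) [IsAlgClosed K] (hEQ : ∀ N, EQ K 5 1 N)
    (f : Fin 6 → R K 6) (hf : CI f (tw 6)) (W : Submodule K (R K 6)) (hJW : Jd f 2 ≤ W)
    (hWR : W ≤ Rd K 6 2) (hW : Module.finrank K W = Module.finrank K (Jd f 2) + 3)
    (l : R K 6) (hl : l ∈ Rd K 6 1) (hl0 : l ≠ 0) (w : R K 6) (hw : w ∈ W) (hwJ : w ∉ J f)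
    (hlw : l * w ∈ J f) :
    Module.finrank K (Jd f 3) + 9 ≤ Module.finrank K (up f 2 W) := by
  have hinf : Infinite K := IsAlgClosed.instInfinite
  obtain ⟨s1, s2⟩ := a_split K 6 6 f _ hf.hom 2 W hJW hWR l hl
  obtain ⟨-, -, -, u4, u5, u6, -, -⟩ := t_upl K 6 6 f _ hf.hom 2 W hWR
  have hkJ : Jd f 2 ≤ kerW f l W := u6 l hl hJW
  have hkW : kerW f l W ≤ W := inf_le_left
  have hkR : kerW f l W ≤ Rd K 6 2 := hkW.trans hWR
  have hmJ : Jd f 3 ≤ mulW f 2 l W := le_sup_right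
  have hmR : mulW f 2 l W ≤ Rd K 6 3 := (u5 l hl).2
  have hkf : Module.Finite K (Rd K 6 2) := (t_dimr K 6 2).1
  have hkf2 : FiniteDimensional K (kerW f l W) := Submodule.finiteDimensional_of_le hkR
  have hk3 : Module.finrank K (Jd f 2) < Module.finrank K (kerW f l W) := by
    apply Submodule.finrank_lt_finrank_of_lt
    refine lt_of_le_of_ne hkJ ?_
    intro h
    have h1 : w ∈ kerW f l W := ⟨hw, hlw⟩
    rw [← h] at h1
    exact hwJ h1.2
  have hk4 := fr_mono hkW hWR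
  have e21 : 2 + 1 = 3 := rfl
  rw [e21] at s1 s2
  obtain ⟨k, hk⟩ : ∃ k, Module.finrank K (kerW f l W) = Module.finrank K (Jd f 2) + k :=
    ⟨_, (Nat.add_sub_of_le hk3.le).symm⟩
  have hupk : Module.finrank K (up f 2 (kerW f l W)) ≤ Module.finrank K (up f 2 W) :=
    fr_mono (u4 _ hkW) (t_upl K 6 6 f _ hf.hom 2 W hWR).2.1
  have hk' : k = 1 ∨ k = 2 ∨ k = 3 := by omega
  rcases hk' with h | h | h
  · -- one-dimensional kernel
    subst h
    have g1 := one f hf 2 (by norm_num) (by norm_num) (kerW f l W) hkJ hkR hk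
    have g2 := two f hf 3 (by norm_num) (mulW f 2 l W) hmJ hmR (by omega)
    have e22 : Module.finrank K (Jd f (2 + 1)) = Module.finrank K (Jd f 3) := rfl
    have e23 : Module.finrank K (Jd f (3 + 1)) = Module.finrank K (Jd f (2 + 2)) := rfl
    omega
  · -- two-dimensional kernel
    subst h
    have g1 := two f hf 2 (by norm_num) (kerW f l W) hkJ hkR hk
    have g2 := one f hf 3 (by norm_num) (by norm_num) (mulW f 2 l W) hmJ hmR (by omega)
    have e22 : Module.finrank K (Jd f (2 + 1)) = Module.finrank K (Jd f 3) := rfl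
    have e23 : Module.finrank K (Jd f (3 + 1)) = Module.finrank K (Jd f (2 + 2)) := rfl
    omega
  · -- everything is killed
    subst h
    have t0 := h_TAI K 5 1 (Module.finrank K (Rd K 6 2)) (hEQ _) f hf (kerW f l W) hkJ hkR l hl
      hl0 (fun w hw => hw.2) (Nat.le_add_left _ _)
    have t1 : Sh (tw 5) 1 (Module.finrank K (kerW f l W) - Module.finrank K (Jd f 2))
      (Module.finrank K (up f 2 (kerW f l W)) - Module.finrank K (Jd f 3)) := t0
    have e24 : Module.finrank K (kerW f l W) - Module.finrank K (Jd f 2) = 3 := by omega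
    rw [e24] at t1
    have g1 := seg h_SHQ _ t1
    omega

/-- The second case: no element is killed by a linear form. -/
theorem case2 (h_GRW : T_GRW.{u}) [IsAlgClosed K] (f : Fin 6 → R K 6) (hf : CI f (tw 6))
    (W : Submodule K (R K 6)) (hJW : Jd f 2 ≤ W) (hWR : W ≤ Rd K 6 2)
    (hW : Module.finrank K W = Module.finrank K (Jd f 2) + 3)
    (hno : ∀ l ∈ Rd K 6 1, l ≠ 0 → ∀ w ∈ W, w ∉ J f → l * w ∉ J f) :
    Module.finrank K (Jd f 3) + 9 ≤ Module.finrank K (up f 2 W) := by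
  obtain ⟨W', hJ, hWW, hfr, hup⟩ := h_GRW K 6 2 3 f (tw 6) hf (NU_.mono_tw 6) (by norm_num)
    (by rw [NU_.S_all]; norm_num) W hJW hWR hW
  have h1 := a_uni K 6 6 2 1 0 f (tw 6) hf (NU_.mono_tw 6) W' hJ (hWW.trans hWR) (by omega) (by
    intro w hw hwJ
    have h2 : Ann1 f w = ⊥ := by
      rw [eq_bot_iff]
      intro l hl
      rw [Submodule.mem_bot]
      by_contra h0
      exact hno l hl.1 h0 w (hWW hw) hwJ hl.2
    rw [h2, finrank_bot])
  rw [Finset.sum_range_one] at h1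
  have e1 : P (tw 6) (2 + 0 + 1) = 3 := NU_.P_tw 6 3 (by norm_num)
  rw [e1] at h1
  have e2 : Module.finrank K (Jd f (2 + 1)) = Module.finrank K (Jd f 3) := rfl
  omega

end NET_

theorem p_NET (h_TAI : T_TAI.{u}) (h_SHQ : T_SHQ) (h_GRW : T_GRW.{u}) : T_NET.{u} := by
  intro K _ _ hEQ f hf W hJW hWR hW
  by_cases h : ∃ l ∈ Rd K 6 1, l ≠ 0 ∧ ∃ w ∈ W, w ∉ J f ∧ l * w ∈ J f
  · obtain ⟨l, hl, hl0, w, hw, hwJ, hlw⟩ := h
    exact NET_.case1 h_TAI h_SHQ hEQ f hf W hJW hWR hW l hl hl0 w hw hwJ hlw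
  · refine NET_.case2 h_GRW f hf W hJW hWR hW ?_
    intro l hl hl0 w hw hwJ hlw
    exact h ⟨l, hl, hl0, w, hw, hwJ, hlw⟩

end Pool.Agent.EGS
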