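import Pool.Agent.EGS.Targets

set_option autoImplicit false
open MvPolynomial hiding R

namespace Pool.Agent.EGS

open Pool.Agent.EGU

universe u

namespace PST_

theorem sh_mono {n : ℕ} {a : Fin n → ℕ} {d v v' G G' : ℕ} (h : Sh a d v G) (hv : v = v')
    (hG : G ≤ G') : Sh a d v' G' := by
  obtain ⟨M, h1, h2, h3⟩ := h
  exact ⟨M, h1, h2.trans hv, h3.trans hG⟩

theorem sh_zero {n : ℕ} (a : Fin n → ℕ) (d G : ℕ) : Sh a d 0 G := by
  refine ⟨∅, ⟨Finset.empty_subset _, fun x hx => absurd hx (Finset.notMem_empty x)⟩, rfl, ?_⟩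
  have h : shadow a d (∅ : Finset (Fin n →₀ ℕ)) = ∅ := by
    unfold shadow
    apply Finset.filter_eq_empty_iff.mpr
    rintro x _ ⟨y, hy, _⟩
    exact absurd hy (Finset.notMem_empty y)
  rw [h]
  exact Nat.zero_le _

theorem fr_mono {K : Type u} [Field K] {n d : ℕ} {U V : Submodule K (R K n)} (h : U ≤ V)
    (hV : V ≤ Rd K n d) : Module.finrank K U ≤ Module.finrank K V := by
  have h1 : Module.Finite K (Rd K n d) := (t_dimr K n d).1
  have h2 : FiniteDimensional K V := Submodule.finiteDimensional_of_le hV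
  exact Submodule.finrank_mono h

theorem jd_low {K : Type u} [Field K] {n m : ℕ} (f : Fin m → R K n)
    (hf : ∀ i, (f i).IsHomogeneous (tw m i)) (d : ℕ) (hd : d < 2) : Jd f d = ⊥ := by
  rw [eq_bot_iff]
  intro p hp
  obtain ⟨y, hy, hp2⟩ := ((t_jd K n m f (tw m) hf).1 d p).mp hp
  rw [Submodule.mem_bot, hp2]
  apply Finset.sum_eq_zero
  intro k _
  have h := hy k
  unfold Rm at h
  rw [if_neg (by show ¬ (2 ≤ d); omega), Submodule.mem_bot] at h
  rw [h, zero_mul]

theorem orth_le {K : Type u} [Field K] {n m : ℕ} (f : Fin m → R K n) (e : ℕ)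
    (U W : Submodule K (R K n)) (h : ∀ p : R K n, (∀ w ∈ W, p * w ∈ J f) → ∀ u ∈ U,
      p * u ∈ J f) : Module.finrank K (orth f e W) ≤ Module.finrank K (orth f e U) := by
  apply fr_mono (d := e) (n := n)
  · rintro p ⟨hp1, hp2⟩
    exact ⟨hp1, h p hp2⟩
  · rintro p ⟨hp1, _⟩
    exact hp1

theorem deg0 {K : Type u} [Field K] (n : ℕ) (f : Fin (n + 1) → R K (n + 1))
    (hf : CI f (tw (n + 1))) (W : Submodule K (R K (n + 1))) (hWR : W ≤ Rd K (n + 1) 0) :
    Good f 0 W := by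
  unfold Good
  rw [jd_low f hf.hom 0 (by omega), jd_low f hf.hom 1 (by omega)]
  have hb : Module.finrank K (⊥ : Submodule K (R K (n + 1))) = 0 := finrank_bot K _
  rw [hb]
  have hfin : Module.Finite K (Rd K (n + 1) 0) := (t_dimr K (n + 1) 0).1
  have h1 : Module.finrank K (Rd K (n + 1) 0) = 1 := by
    rw [(t_dimr K (n + 1) 0).2.1, Finset.finsuppAntidiag_zero]
    rfl
  have hle : Module.finrank K W ≤ 1 := by
    exact (fr_mono hWR le_rfl).trans h1.le
  rcases Nat.eq_zero_or_pos (Module.finrank K W) with h0 | hpos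
  · rw [h0]
    exact sh_zero _ _ _
  · have hW1 : Module.finrank K W = 1 := by omega
    have hW : W = Rd K (n + 1) 0 :=
      Submodule.eq_of_le_of_finrank_eq hWR (by rw [hW1, h1])
    have hs := t_sh1 (n + 1) (tw (n + 1)) 0 (fun _ => le_rfl) (Nat.zero_le _)
    rw [(t_num (n + 1) (tw (n + 1))).1] at hs
    refine sh_mono hs ?_ ?_
    · rw [hW1]
    · rw [Nat.sub_zero, Nat.sub_zero]
      have h2 : Rd K (n + 1) 1 ≤ up f 0 W := by
        unfold up
        refine le_trans ?_ le_sup_left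
        intro p hp
        have h3 : (1 : R K (n + 1)) ∈ W := by
          rw [hW]
          exact isHomogeneous_one _ _
        have h4 := Submodule.mul_mem_mul hp h3
        rwa [mul_one] at h4
      have h5 := fr_mono (d := 1) h2 (t_upl K (n + 1) (n + 1) f _ hf.hom 0 W hWR).2.1
      rw [(t_dimr K (n + 1) 1).2.2] at h5
      exact h5

theorem main {K : Type u} [Field K] [IsAlgClosed K] (h_TAI : T_TAI.{u}) (h_SP2 : T_SP2.{u})
    (h_KKC : T_KKC) (n N e : ℕ) (hE : ∀ d, EQ K n d N)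
    (f : Fin (n + 1) → R K (n + 1)) (hf : CI f (tw (n + 1))) (W : Submodule K (R K (n + 1)))
    (hJW : Jd f (e + 1) ≤ W) (hWR : W ≤ Rd K (n + 1) (e + 1))
    (ho : Module.finrank K (Rd K (n + 1) 2) ≤ Module.finrank K (orth f 2 W) + N)
    (l l' : R K (n + 1)) (hl : l ∈ Rd K (n + 1) 1) (hl' : l' ∈ Rd K (n + 1) 1) (hl0 : l ≠ 0)
    (hl0' : l' ≠ 0) (h1 : ∀ w ∈ W, l * (l' * w) ∈ J f) (h2 : ∀ w ∈ W, l' * (l * w) ∈ J f)
    (hk : Module.finrank K (kerW f l' W) ≤ Module.finrank K (kerW f l W)) :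
    Good f (e + 1) W := by
  have hinf : Infinite K := IsAlgClosed.instInfinite
  obtain ⟨s1, s2⟩ := a_split K (n + 1) (n + 1) f _ hf.hom (e + 1) W hJW hWR l hl
  obtain ⟨s3, _⟩ := a_split K (n + 1) (n + 1) f _ hf.hom (e + 1) W hJW hWR l' hl'
  have s4 := h_SP2 K (n + 1) (n + 1) f _ hf.hom (e + 1) W hJW hWR l hl l' hl' h1
  obtain ⟨u1, u2, u3, u4, u5, u6, u7, u8⟩ := t_upl K (n + 1) (n + 1) f _ hf.hom (e + 1) W hWR
  have hkJ : Jd f (e + 1) ≤ kerW f l W := u6 l hl hJW
  have hkW : kerW f l W ≤ W := inf_le_left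
  have hkR : kerW f l W ≤ Rd K (n + 1) (e + 1) := hkW.trans hWR
  have hmJ : Jd f (e + 2) ≤ mulW f (e + 1) l W := le_sup_right
  have hmR : mulW f (e + 1) l W ≤ Rd K (n + 1) (e + 2) := (u5 l hl).2
  have t0 := h_TAI K n e N (hE e) f hf (kerW f l W) hkJ hkR l hl hl0
    (fun w hw => hw.2) (ho.trans (Nat.add_le_add_right (orth_le f 2 (kerW f l W) W
      (fun p hp w hw => hp w (hkW hw))) N))
  have t1 := h_TAI K n (e + 1) N (hE (e + 1)) f hf (mulW f (e + 1) l W) hmJ hmR l' hl' hl0'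
    (by
      intro w hw
      obtain ⟨y, hy, z, hz, rfl⟩ := Submodule.mem_sup.mp hw
      obtain ⟨x, hx, rfl⟩ := Submodule.mem_map.mp hy
      rw [mul_add]
      refine Ideal.add_mem _ ?_ (Ideal.mul_mem_left _ _ hz.2)
      exact h2 x hx)
    (ho.trans (Nat.add_le_add_right (orth_le f 2 (mulW f (e + 1) l W) W
      (by
        intro p hp w hw
        obtain ⟨y, hy, z, hz, rfl⟩ := Submodule.mem_sup.mp hw
        obtain ⟨x, hx, rfl⟩ := Submodule.mem_map.mp hy
        rw [mul_add]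
        refine Ideal.add_mem _ ?_ (Ideal.mul_mem_left _ _ hz.2)
        have h3 : p * (LinearMap.mulLeft K l) x = l * (p * x) := by
          rw [LinearMap.mulLeft_apply]
          ring
        rw [h3]
        exact Ideal.mul_mem_left _ _ (hp x hx))) N))
  have t2 := h_KKC n e _ _ _ _ t0 t1
  have a1 := fr_mono hkJ hkR
  have a2 := fr_mono hmJ hmR
  obtain ⟨v1, v2, _⟩ := t_upl K (n + 1) (n + 1) f _ hf.hom (e + 1) (kerW f l W) hkR
  obtain ⟨w1, w2, _⟩ := t_upl K (n + 1) (n + 1) f _ hf.hom (e + 2) (mulW f (e + 1) l W) hmR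
  have a3 := fr_mono v1 v2
  have a4 := fr_mono w1 w2
  have e1 : e + 1 + 1 = e + 2 := rfl
  have e2 : e + 1 + 2 = e + 3 := rfl
  have e3 : e + 2 + 1 = e + 3 := rfl
  rw [e1] at s1 s2 s3 s4 a3 t0 t1 t2
  rw [e2] at s2 s4 t1 t2
  rw [e3] at a4
  unfold Good
  rw [e1]
  refine sh_mono t2 ?_ ?_
  · omega
  · have m1 := max_le_iff (a := Module.finrank K (up f (e + 1) (kerW f l W)) -
      Module.finrank K (Jd f (e + 2))) (b := Module.finrank K (mulW f (e + 1) l W) -
      Module.finrank K (Jd f (e + 2))) (c := Module.finrank K (up f (e + 1) W) -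
      Module.finrank K (Jd f (e + 2)) - (Module.finrank K (up f (e + 2) (mulW f (e + 1) l W)) -
      Module.finrank K (Jd f (e + 3))))
    have m2 := m1.mpr ⟨by omega, by omega⟩
    have m3 := fr_mono u1 u2
    rw [e1] at m3
    have m4 := s4
    omega

end PST_

theorem p_PST (h_TAI : T_TAI.{u}) (h_SP2 : T_SP2.{u}) (h_PRD : T_PRD.{u}) (h_KKC : T_KKC) :
    T_PST.{u} := by
  intro K _ _ n N hN hE d f hf W hJW hWR ho
  rcases d with _ | e
  · exact PST_.deg0 n f hf W hWR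
  · obtain ⟨l, hl, l', hl', hl0, hl0', h⟩ := h_PRD K n f W (by omega)
    have h' : ∀ w ∈ W, l' * (l * w) ∈ J f := by
      intro w hw
      rw [mul_left_comm]
      exact h w hw
    rcases le_total (Module.finrank K (kerW f l' W)) (Module.finrank K (kerW f l W)) with hk | hk
    · exact PST_.main h_TAI h_SP2 h_KKC n N e hE f hf W hJW hWR ho l l' hl hl' hl0 hl0' h h' hk
    · exact PST_.main h_TAI h_SP2 h_KKC n N e hE f hf W hJW hWR ho l' l hl' hl hl0' hl0 h' h hk

end Pool.Agent.EGS
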