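import Pool.Agent.EGS.Targets

set_option autoImplicit false
open MvPolynomial hiding R

/-!
Target SHQ of the project EGS: small initial segments of squarefree monomials.
-/

namespace Pool.Agent.EGS

open Pool.Agent.EGU

universe u

namespace SHQ_

lemma sum_range_aux (m v : ℕ) (h : v ≤ m + 1) :
    ∑ i ∈ Finset.range v, (m - i) + v.choose 2 = v * m := by
  induction v with
  | zero => simp
  | succ v ih =>
    have ih' := ih (by omega)
    have hc : (v + 1).choose 2 = v + v.choose 2 := by
      have := Nat.choose_succ_succ' v 1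
      rw [Nat.choose_one_right] at this
      exact this
    rw [Finset.sum_range_succ, hc, Nat.succ_mul]
    omega

lemma sum_filter_Fin (n p v : ℕ) (h : v + p ≤ n) (f : ℕ → ℕ) :
    ∑ j ∈ Finset.univ.filter (fun j : Fin n => p ≤ (j : ℕ) ∧ (j : ℕ) < p + v), f j =
      ∑ i ∈ Finset.range v, f (p + i) := by
  rw [Finset.sum_filter, Fin.sum_univ_eq_sum_range
    (fun j => if p ≤ j ∧ j < p + v then f j else 0) n, ← Finset.sum_filter]
  have : (Finset.range n).filter (fun j => p ≤ j ∧ j < p + v) = Finset.Ico p (p + v) := by
    ext j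
    simp only [Finset.mem_filter, Finset.mem_range, Finset.mem_Ico]
    omega
  rw [this, Finset.sum_Ico_eq_sum_range]
  simp

/-- The indicator vector of the first `p` coordinates. -/
noncomputable def ww (n p : ℕ) : Fin n →₀ ℕ :=
  Finsupp.equivFunOnFinite.symm (fun i => if (i : ℕ) < p then 1 else 0)

lemma ww_apply (n p : ℕ) (i : Fin n) : ww n p i = if (i : ℕ) < p then 1 else 0 := by
  simp [ww]

lemma sum_ww (n p : ℕ) (hp : p ≤ n) : ∑ i, ww n p i = p := by
  simp_rw [ww_apply]
  rw [Fin.sum_univ_eq_sum_range (fun i => if i < p then 1 else 0) n, ← Finset.sum_filter]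
  have : (Finset.range n).filter (fun j => j < p) = Finset.range p := by
    ext j
    simp only [Finset.mem_filter, Finset.mem_range]
    omega
  rw [this]
  simp

lemma eq_add_single {n : ℕ} (w y : Fin n →₀ ℕ) (h : ∀ k, w k ≤ y k)
    (hs : ∑ k, y k = ∑ k, w k + 1) : ∃ j, y = w + Finsupp.single j 1 := by
  have h1 : ∑ k, (y k - w k) = 1 := by
    have : ∑ k, y k = ∑ k, (y k - w k) + ∑ k, w k := by
      rw [← Finset.sum_add_distrib]
      exact Finset.sum_congr rfl fun k _ => by have := h k; omega
    omega
  have h2 : ∃ j, y j - w j ≠ 0 := by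
    by_contra hc
    push Not at hc
    have : ∑ k, (y k - w k) = 0 := Finset.sum_eq_zero fun k _ => hc k
    omega
  obtain ⟨j, hj⟩ := h2
  refine ⟨j, ?_⟩
  ext k
  rw [Finsupp.add_apply]
  have h3 : (y j - w j) + ∑ k ∈ Finset.univ.erase j, (y k - w k) = 1 :=
    (Finset.add_sum_erase Finset.univ (fun k => y k - w k) (Finset.mem_univ j)).trans h1
  by_cases hk : k = j
  · subst hk
    rw [Finsupp.single_eq_same]
    have := h k
    omega
  · rw [Finsupp.single_eq_of_ne hk]
    have h4 : y k - w k ≤ ∑ k ∈ Finset.univ.erase j, (y k - w k) :=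
      Finset.single_le_sum (f := fun k => y k - w k) (fun _ _ => Nat.zero_le _)
        (Finset.mem_erase.mpr ⟨hk, Finset.mem_univ k⟩)
    have := h k
    omega

lemma mem_Std {n : ℕ} (d : ℕ) (x : Fin n →₀ ℕ) :
    x ∈ Std (tw n) d ↔ (∑ i, x i = d) ∧ ∀ i, x i < 2 := by
  unfold Std
  rw [Finset.mem_filter, Finset.mem_finsuppAntidiag]
  simp

lemma sum_add_single {n : ℕ} (w : Fin n →₀ ℕ) (j : Fin n) :
    ∑ k, (w + Finsupp.single j 1 : Fin n →₀ ℕ) k = ∑ k, w k + 1 := by
  simp only [Finsupp.add_apply, Finset.sum_add_distrib]
  congr 1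
  rw [Finset.sum_eq_single j]
  · simp
  · intro b _ hb
    exact Finsupp.single_eq_of_ne hb
  · simp

lemma single_val {n : ℕ} (j i : Fin n) :
    (Finsupp.single j (1 : ℕ) : Fin n →₀ ℕ) i = if i = j then 1 else 0 := by
  by_cases h : i = j
  · rw [h, Finsupp.single_eq_same, if_pos rfl]
  · rw [Finsupp.single_eq_of_ne h, if_neg h]

end SHQ_

open SHQ_ in
theorem p_SHQ : T_SHQ := by
  intro n d v hd hv
  obtain ⟨p, rfl⟩ : ∃ p, d = p + 1 := ⟨d - 1, by omega⟩
  have hvn : v + p ≤ n := by omega
  rcases Nat.eq_zero_or_pos v with hv0 | hv0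
  · subst hv0
    refine ⟨∅, ⟨Finset.empty_subset _, ?_⟩, Finset.card_empty, ?_⟩
    · intro x hx
      exact absurd hx (Finset.notMem_empty x)
    · have : shadow (tw n) (p + 1) ∅ = ∅ := by
        unfold shadow
        rw [Finset.filter_eq_empty_iff]
        rintro x _ ⟨y, hy, _⟩
        exact absurd hy (Finset.notMem_empty y)
      rw [this]
      simp
  set w := ww n p with hw
  have hsw : ∑ i, w i = p := sum_ww n p (by omega)
  have hwlt : ∀ i : Fin n, (i : ℕ) < p → w i = 1 := by
    intro i hi
    rw [hw, ww_apply, if_pos hi]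
  have hwge : ∀ i : Fin n, p ≤ (i : ℕ) → w i = 0 := by
    intro i hi
    rw [hw, ww_apply, if_neg (by omega)]
  set Jj := Finset.univ.filter (fun j : Fin n => p ≤ (j : ℕ) ∧ (j : ℕ) < p + v) with hJ
  have hinj : Function.Injective (fun j : Fin n => w + Finsupp.single j (1 : ℕ)) := by
    intro j j' hjj
    have h3 : Finsupp.single j (1 : ℕ) = Finsupp.single j' 1 := add_left_cancel hjj
    by_contra hne
    have h4 := DFunLike.congr_fun h3 j
    rw [Finsupp.single_eq_same, Finsupp.single_eq_of_ne hne] at h4
    exact one_ne_zero h4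
  -- standardness
  have hstd : ∀ j : Fin n, p ≤ (j : ℕ) → w + Finsupp.single j 1 ∈ Std (tw n) (p + 1) := by
    intro j hj
    rw [mem_Std]
    refine ⟨?_, ?_⟩
    · rw [sum_add_single, hsw]
    · intro i
      rw [Finsupp.add_apply, single_val]
      rcases Nat.lt_or_ge (i : ℕ) p with h8 | h8
      · have h9 : i ≠ j := by
          intro h10
          rw [h10] at h8
          omega
        rw [hwlt i h8, if_neg h9]
        omega
      · rw [hwge i h8]
        split_ifs <;> omega
  refine ⟨Jj.image (fun j => w + Finsupp.single j 1), ⟨?_, ?_⟩, ?_, ?_⟩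
  · intro x hx
    rw [Finset.mem_image] at hx
    obtain ⟨j, hj, rfl⟩ := hx
    rw [hJ, Finset.mem_filter] at hj
    exact hstd j hj.2.1
  · -- initial segment
    intro x hx y hy hlex
    rw [Finset.mem_image] at hx
    obtain ⟨j, hj, rfl⟩ := hx
    rw [hJ, Finset.mem_filter] at hj
    obtain ⟨i, hi1, hi2⟩ := hlex
    rw [mem_Std] at hy
    have hjp : p ≤ (j : ℕ) := hj.2.1
    have hxlt : ∀ k : Fin n, (k : ℕ) < p → (w + Finsupp.single j 1 : Fin n →₀ ℕ) k = 1 := by
      intro k hk
      have h9 : k ≠ j := by
        intro h10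
        rw [h10] at hk
        omega
      rw [Finsupp.add_apply, hwlt k hk, single_val, if_neg h9]
    have hip : p ≤ (i : ℕ) := by
      by_contra hc
      have h3 := hxlt i (by omega)
      have h4 := hy.2 i
      omega
    have hyw : ∀ k, w k ≤ y k := by
      intro k
      rcases Nat.lt_or_ge (k : ℕ) p with h8 | h8
      · have h3 := hi1 k (by rw [Fin.lt_def]; omega)
        rw [hxlt k h8] at h3
        rw [hwlt k h8]
        omega
      · rw [hwge k h8]
        exact Nat.zero_le _
    obtain ⟨j', hj'⟩ := eq_add_single w y hyw (by rw [hy.1, hsw])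
    rw [Finset.mem_image]
    refine ⟨j', ?_, hj'.symm⟩
    rw [hJ, Finset.mem_filter]
    refine ⟨Finset.mem_univ _, ?_⟩
    have h6 : j' = i := by
      by_contra hc
      rw [hj', Finsupp.add_apply, Finsupp.add_apply, single_val j' i,
        if_neg (fun h => hc h.symm)] at hi2
      omega
    subst h6
    refine ⟨hip, ?_⟩
    have h7 : (j' : ℕ) ≤ (j : ℕ) := by
      by_contra hc
      have h8 := hi1 j (by rw [Fin.lt_def]; omega)
      have h9 : j ≠ j' := by
        intro h10
        rw [h10] at hc
        omega
      rw [hj', Finsupp.add_apply, Finsupp.add_apply, Finsupp.single_eq_same,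
        Finsupp.single_eq_of_ne h9] at h8
      omega
    omega
  · -- number of elements
    rw [Finset.card_image_of_injective _ hinj, Finset.card_eq_sum_ones, hJ,
      sum_filter_Fin n p v hvn (fun _ => 1)]
    simp
  · -- the shadow
    have hsh : shadow (tw n) (p + 1) (Jj.image (fun j => w + Finsupp.single j 1)) =
        (Jj.sigma (fun j => Finset.Ioi j)).image
          (fun q : (_ : Fin n) × Fin n => w + Finsupp.single q.1 1 + Finsupp.single q.2 1) := by
      ext x
      unfold shadow
      rw [Finset.mem_filter, mem_Std, Finset.mem_image]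
      constructor
      · rintro ⟨⟨hx1, hx2⟩, y, hy, hyx⟩
        rw [Finset.mem_image] at hy
        obtain ⟨j, hj, rfl⟩ := hy
        rw [hJ, Finset.mem_filter] at hj
        obtain ⟨k, hk⟩ := eq_add_single (w + Finsupp.single j 1) x (fun k => hyx k)
          (by rw [hx1, sum_add_single, hsw])
        have hkx := hx2 k
        rw [hk, Finsupp.add_apply, Finsupp.add_apply, Finsupp.single_eq_same, single_val] at hkx
        have hkj : k ≠ j := by
          intro h
          rw [if_pos h] at hkx
          omega
        have hkp : p ≤ (k : ℕ) := by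
          by_contra hc
          rw [hwlt k (by omega)] at hkx
          omega
        rcases lt_or_gt_of_ne hkj with h | h
        · refine ⟨⟨k, j⟩, ?_, ?_⟩
          · rw [Finset.mem_sigma]
            refine ⟨?_, Finset.mem_Ioi.mpr h⟩
            rw [hJ, Finset.mem_filter]
            refine ⟨Finset.mem_univ _, hkp, ?_⟩
            have h5 : (k : ℕ) < (j : ℕ) := h
            have h6 := hj.2.2
            change (k : ℕ) < p + v
            omega
          · rw [hk]
            exact add_right_comm _ _ _
        · refine ⟨⟨j, k⟩, ?_, hk.symm⟩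
          rw [Finset.mem_sigma]
          refine ⟨?_, Finset.mem_Ioi.mpr h⟩
          rw [hJ, Finset.mem_filter]
          exact hj
      · rintro ⟨⟨j, k⟩, hjk, rfl⟩
        rw [Finset.mem_sigma, hJ, Finset.mem_filter, Finset.mem_Ioi] at hjk
        obtain ⟨⟨-, hjp, hjv⟩, hjk⟩ := hjk
        simp only at hjp hjv hjk ⊢
        have hjk' : (j : ℕ) < (k : ℕ) := hjk
        refine ⟨⟨?_, ?_⟩, w + Finsupp.single j 1, ?_, ?_⟩
        · rw [sum_add_single, sum_add_single, hsw]
        · intro i
          rw [Finsupp.add_apply, Finsupp.add_apply, single_val, single_val]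
          rcases Nat.lt_or_ge (i : ℕ) p with h8 | h8
          · have h9 : i ≠ j := by
              intro h10
              rw [h10] at h8
              omega
            have h9' : i ≠ k := by
              intro h10
              rw [h10] at h8
              omega
            rw [hwlt i h8, if_neg h9, if_neg h9']
            omega
          · rw [hwge i h8]
            by_cases h9 : i = j
            · have h9' : i ≠ k := by
                rw [h9]
                exact ne_of_lt hjk
              rw [if_neg h9']
              split_ifs <;> omega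
            · rw [if_neg h9]
              split_ifs <;> omega
        · rw [Finset.mem_image]
          refine ⟨j, ?_, rfl⟩
          rw [hJ, Finset.mem_filter]
          exact ⟨Finset.mem_univ _, hjp, hjv⟩
        · intro i
          rw [Finsupp.add_apply (w + Finsupp.single j 1)]
          exact Nat.le_add_right _ _
    have hinj2 : Set.InjOn
        (fun q : (_ : Fin n) × Fin n => w + Finsupp.single q.1 1 + Finsupp.single q.2 1)
        (Jj.sigma (fun j => Finset.Ioi j) : Set ((_ : Fin n) × Fin n)) := by
      rintro ⟨j, k⟩ h1 ⟨j', k'⟩ h2 heq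
      rw [Finset.mem_coe, Finset.mem_sigma, Finset.mem_Ioi] at h1 h2
      simp only at h1 h2 heq
      have hjk := h1.2
      have hjk' := h2.2
      rw [add_assoc, add_assoc] at heq
      have h3 := add_left_cancel heq
      have h4 : ∀ i, ((if i = j then 1 else 0) + (if i = k then 1 else 0) : ℕ) =
          (if i = j' then 1 else 0) + (if i = k' then 1 else 0) := by
        intro i
        have := DFunLike.congr_fun h3 i
        rw [Finsupp.add_apply, Finsupp.add_apply, single_val, single_val, single_val,
          single_val] at this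
        exact this
      have h5 : j = j' := by
        by_contra hne
        have h6 := h4 j
        rw [if_pos rfl, if_neg (ne_of_lt hjk), if_neg hne] at h6
        have h7 : j = k' := by
          by_contra h8
          rw [if_neg h8] at h6
          omega
        have h8 := h4 j'
        rw [if_pos rfl, if_neg (fun h => hne h.symm), if_neg (ne_of_lt hjk')] at h8
        have h9 : j' = k := by
          by_contra h10
          rw [if_neg h10] at h8
          omega
        rw [← h9] at hjk
        rw [← h7] at hjk'
        exact absurd hjk (lt_asymm hjk')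
      subst h5
      have h6 : k = k' := by
        by_contra hne
        have h7 := h4 k
        rw [if_pos rfl, if_neg hne] at h7
        omega
      rw [h6]
    rw [hsh, Finset.card_image_of_injOn hinj2, Finset.card_sigma]
    have h3 : ∑ j ∈ Jj, (Finset.Ioi j).card = ∑ j ∈ Jj, (n - 1 - (j : ℕ)) :=
      Finset.sum_congr rfl fun j _ => Fin.card_Ioi j
    rw [h3, hJ, sum_filter_Fin n p v hvn (fun j => n - 1 - j)]
    have h4 := sum_range_aux (n - (p + 1)) v (by omega)
    have h5 : ∑ i ∈ Finset.range v, (n - 1 - (p + i)) =
        ∑ i ∈ Finset.range v, (n - (p + 1) - i) :=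
      Finset.sum_congr rfl fun i _ => by omega
    rw [h5]
    exact h4

end Pool.Agent.EGS
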