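import Pool.Agent.EGS.Targets

set_option autoImplicit false
open MvPolynomial hiding R

/-!
Iterated socle and top degrees: `T_SOK`.
-/

namespace Pool.Agent.EGS

open Pool.Agent.EGU

universe u

namespace SOK_

variable {K : Type u} [Field K] {n : ℕ}

lemma iter {f : Fin n → R K n} {a : Fin n → ℕ} (hf : CI f a) (ha : Monotone a) :
    ∀ (k e : ℕ), e + k ≤ S a n → ∀ p ∈ Rd K n e,
      (∀ h ∈ Rd K n k, h * p ∈ J f) → p ∈ J f := by
  intro k
  induction k with
  | zero =>
    intro e _ p _ h
    have h1 : (1 : R K n) ∈ Rd K n 0 :=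
      (mem_homogeneousSubmodule _ _).2 (isHomogeneous_one _ _)
    have h2 := h 1 h1
    rwa [one_mul] at h2
  | succ k ih =>
    intro e he p hp h
    refine (t_soc a_l1 t_num) K n f a hf ha e p hp (by omega) fun j => ?_
    refine ih (e + 1) (by omega) _ ?_ fun w hw => ?_
    · rw [mem_homogeneousSubmodule] at hp ⊢
      have h0 := (isHomogeneous_X K j).mul hp
      rwa [add_comm] at h0
    · have h2 : X j * w ∈ Rd K n (k + 1) := by
        rw [mem_homogeneousSubmodule] at hw ⊢
        have h0 := (isHomogeneous_X K j).mul hw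
        rwa [add_comm] at h0
      have h3 := h _ h2
      have h4 : w * (X j * p) = X j * w * p := by ring
      rw [h4]
      exact h3

end SOK_

theorem p_SOK : T_SOK.{u} := by
  intro K _ n f a hf ha
  refine ⟨SOK_.iter hf ha, ?_⟩
  intro e he
  have h1 := a_hf K n f a hf e
  rw [(t_std n a hf.pos).2.2.2 e he, Finset.card_empty, add_zero] at h1
  have := (t_dimr K n e).1
  have hle : Jd f e ≤ Rd K n e := inf_le_left
  exact Submodule.eq_of_le_of_finrank_eq hle h1

end Pool.Agent.EGS
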