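import Pool.Agent.EGS.Targets

set_option autoImplicit false
open MvPolynomial hiding R

/-!
Target SP2: splitting by two linear forms.
-/

namespace Pool.Agent.EGS

open Pool.Agent.EGU

universe u

theorem p_SP2 : T_SP2.{u} := by
  intro K _ n m f a hhom d W hJW hW l hl l' hl' hll
  have hfin : ∀ e, Module.Finite K (Rd K n e) := fun e => (t_dimr K n e).1
  have hfin' : ∀ (e : ℕ) (A : Submodule K (R K n)), A ≤ Rd K n e → Module.Finite K A := by
    intro e A hA
    have := hfin e
    exact Submodule.finiteDimensional_of_le hA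
  have hJd : ∀ e, Jd f e ≤ Rd K n e := fun e => inf_le_left
  obtain ⟨-, hup, -, -, hmul, -, -, -⟩ := t_upl K n m f a hhom d W hW
  have fJ2 := hfin' (d + 2) (Jd f (d + 2)) (hJd _)
  have fU := hfin' (d + 1) (up f d W) hup
  have hdeg : ∀ (e : ℕ) (x : R K n), x ∈ Rd K n e → l * x ∈ Rd K n (e + 1) := by
    intro e x hx
    rw [mem_homogeneousSubmodule] at hx hl ⊢
    have := hl.mul hx
    rwa [add_comm 1 e] at this
  have h1 := SPLIT_.split_general (LinearMap.mulLeft K l) (up f d W) (Jd f (d + 2))
  have hmulR : ∀ (e : ℕ), Rd K n 1 * Rd K n e ≤ Rd K n (e + 1) := by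
    intro e
    rw [Submodule.mul_le]
    intro x hx y hy
    rw [mem_homogeneousSubmodule] at hx hy ⊢
    have := hx.mul hy
    rwa [add_comm 1 e] at this
  have h2 : mulW f d l' W ≤
      up f d W ⊓ (Jd f (d + 2)).comap (LinearMap.mulLeft K l) := by
    apply le_inf (hmul l' hl').1
    unfold mulW
    apply sup_le
    · rw [Submodule.map_le_iff_le_comap]
      intro y hy
      rw [Submodule.mem_comap, Submodule.mem_comap, LinearMap.mulLeft_apply,
        LinearMap.mulLeft_apply]
      have h3 : l' * y ∈ Rd K n (d + 1) := hmulR d (Submodule.mul_mem_mul hl' (hW hy))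
      exact ⟨hdeg (d + 1) _ h3, hll y hy⟩
    · intro x hx
      rw [Submodule.mem_comap, LinearMap.mulLeft_apply]
      exact ⟨hdeg (d + 1) _ hx.1, Ideal.mul_mem_left _ _ hx.2⟩
  have h3 : up f (d + 1) (mulW f d l W) ≤
      (up f d W).map (LinearMap.mulLeft K l) ⊔ Jd f (d + 2) := by
    unfold up
    apply sup_le
    · rw [Submodule.mul_le]
      intro x hx y hy
      unfold mulW at hy
      rw [Submodule.mem_sup] at hy
      obtain ⟨z, hz, w, hw, rfl⟩ := hy
      obtain ⟨z', hz', rfl⟩ := hz
      rw [mul_add]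
      apply Submodule.add_mem_sup
      · refine ⟨x * z', Submodule.mem_sup_left (Submodule.mul_mem_mul hx hz'), ?_⟩
        rw [LinearMap.mulLeft_apply, LinearMap.mulLeft_apply]
        ring
      · refine ⟨hmulR (d + 1) (Submodule.mul_mem_mul hx hw.1), ?_⟩
        exact Ideal.mul_mem_left _ _ hw.2
    · exact le_sup_right
  have f3 : Module.Finite K (up f d W ⊓ (Jd f (d + 2)).comap (LinearMap.mulLeft K l) :
      Submodule K (R K n)) :=
    Submodule.finiteDimensional_of_le (inf_le_left : _ ≤ up f d W)
  have f4 : Module.Finite K ((up f d W).map (LinearMap.mulLeft K l) ⊔ Jd f (d + 2) :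
      Submodule K (R K n)) := inferInstance
  have h4 := Submodule.finrank_mono h2
  have h5 := Submodule.finrank_mono h3
  omega

end Pool.Agent.EGS
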