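import Pool.Agent.EGS.Targets

set_option autoImplicit false
open MvPolynomial hiding R

namespace Pool.Agent.EGS

open Pool.Agent.EGU

universe u

namespace TAI_

theorem sh_mono {n : ℕ} {a : Fin n → ℕ} {d v G G' : ℕ} (h : Sh a d v G) (hG : G ≤ G') :
    Sh a d v G' := by
  obtain ⟨M, h1, h2, h3⟩ := h
  exact ⟨M, h1, h2, h3.trans hG⟩

theorem fin_mono {K : Type u} [Field K] {n e : ℕ} {U V : Submodule K (R K n)}
    (hUV : U ≤ V) (hV : V ≤ Rd K n e) :
    Module.finrank K U ≤ Module.finrank K V := by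
  haveI : Module.Finite K (Rd K n e) := (t_dimr K n e).1
  haveI : Module.Finite K V := Submodule.finiteDimensional_of_le hV
  exact Submodule.finrank_mono hUV

end TAI_

/-- Target TAI. -/
theorem p_TAI (h_RES : T_RES.{u}) (h_TLG : T_TLG.{u}) (h_RED : T_RED.{u})
    (h_TRW : T_TRW.{u}) : T_TAI.{u} := by
  intro K _ _ n d N hEQ f hf W hW1 hW2 l hl hl0 hlW horth
  obtain ⟨g, hg0, hg, hgf⟩ := h_RES K n f hf l hl hl0
  obtain ⟨W', hW'1, hW'2, hdim, hup, ho⟩ := h_TLG K n f g hf hg hgf d W hW1 hW2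
    (by rw [hg0]; exact hlW)
  obtain ⟨θ, hθ1, hθ2, hθ3, hθ4⟩ := h_RED K n (tw n) g hg
  obtain ⟨t1, t2, t3, t4, t5⟩ := h_TRW K n (tw n) g hg θ hθ1 hθ2 hθ3 hθ4 d W' hW'1 hW'2
  have t5' := t5 2
  have hgood := hEQ _ hθ3 (W'.map θ.toLinearMap) t1 t2 (by omega)
  unfold Good at hgood
  -- dimension inequalities
  have hfup := t_upl K (n + 1) (n + 1) f _ hf.hom (d + 1) W hW2
  have hgup := t_upl K (n + 1) (n + 1) g _ hg.hom d W' hW'2
  have htup := t_upl K n n _ _ hθ3.hom d (W'.map θ.toLinearMap) t2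
  have m1 := TAI_.fin_mono hW1 hW2
  have m2 := TAI_.fin_mono hW'1 hW'2
  have m3 := TAI_.fin_mono t1 t2
  have m4 := TAI_.fin_mono hfup.1 hfup.2.1
  have m5 := TAI_.fin_mono hgup.1 hgup.2.1
  have m6 := TAI_.fin_mono htup.1 htup.2.1
  have e1 : Module.finrank K (W'.map θ.toLinearMap) -
      Module.finrank K (Jd (fun i : Fin n => θ (g i.succ)) d) =
      Module.finrank K W - Module.finrank K (Jd f (d + 1)) := by omega
  rw [e1] at hgood
  refine TAI_.sh_mono hgood ?_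
  have e2 : d + 1 + 1 = d + 2 := rfl
  rw [e2] at m4
  omega

end Pool.Agent.EGS
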