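import Pool.Agent.EGS.Targets

set_option autoImplicit false
open MvPolynomial hiding R

/-!
# Project EGS (MP_e5dae2_al): target WEB, webs of degree `2` modulo six quadrics
-/

namespace Pool.Agent.EGS

open Pool.Agent.EGU

universe u

namespace WEB_

theorem s_six : 2 + 4 ≤ S (tw 6) 6 := by
  unfold S
  decide

end WEB_

theorem p_WEB (h_GRW : T_GRW.{u}) (h_NET : T_NET.{u}) : T_WEB.{u} := by
  intro K _ _ hEQ f hf W h1 h2 hW
  obtain ⟨W', hJ, hWW, hfr, hup⟩ := h_GRW K 6 2 4 f (tw 6) hf monotone_const (by norm_num)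
    WEB_.s_six W h1 h2 hW
  have h3 : Module.finrank K W' = Module.finrank K (Jd f 2) + 3 := by omega
  have h4 := h_NET K hEQ f hf W' hJ (hWW.trans h2) h3
  omega

end Pool.Agent.EGS

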