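import Pool.Agent.EGU.All

set_option autoImplicit false
open MvPolynomial hiding R

/-!
# Project EGS (MP_e5dae2_al): Eisenbud-Green-Harris for quadrics in at most six variables

Every field; `n ≤ 6` quadrics, all degrees; and all `n` if `dim (R/I)_2 ≤ 12`. The definitions and
the library are those of the project EGU (`Pool/Agent/EGU`), everything proved there may be used
(`t_num`, `t_dimr`, `t_cir`, `t_jd`, `t_upl`, `a_basis`, `t_cob`, `t_cone`, `t_nzd`, `a_base`,
`a_l1`, `t_soc a_l1 t_num`, `a_lin`, `a_l3`, `a_hyp`, `a_ann`, `a_uni`, `a_split`, `a_perf`, `a_hf`,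
`a_bv`, `a_v2`, `a_grow`, `growV2`, `t_std`, `t_sega`, `t_segb`, `t_sh1`, `t_sh2`, `a_shd`, ...,
import `Pool.Agent.EGU.All`). `H_e = dim (R/J)_e` is `(Std (tw n) e).card = n.choose e`.
Every target has its proof in the docstring. A job proves
`theorem Pool.Agent.EGS.p_XXX (h1 : T_A) ... : T_XXX`.
-/

namespace Pool.Agent.EGS

open Pool.Agent.EGU

universe u

noncomputable section

/-- The degrees `2, ..., 2`. -/
abbrev tw (n : ℕ) : Fin n → ℕ := fun _ => 2

/-- The growth inequality for `W` in degree `d`: there is an initial lex segment of squarefree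
monomials of degree `d` of size `dim W / J_d` whose shadow has at most `dim (R_1 W + J) / J_{d+1}`
elements. -/
def Good {K : Type u} [Field K] {n : ℕ} (f : Fin n → R K n) (d : ℕ) (W : Submodule K (R K n)) :
    Prop :=
  Sh (tw n) d (Module.finrank K W - Module.finrank K (Jd f d))
    (Module.finrank K (up f d W) - Module.finrank K (Jd f (d + 1)))

/-- The growth inequality for all `n` quadrics and all `W` in degree `d` with
`dim R_2 / (J : W)_2 ≤ N`. -/
def EQ (K : Type u) [Field K] (n d N : ℕ) : Prop :=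
  ∀ f : Fin n → R K n, CI f (tw n) → ∀ W : Submodule K (R K n), Jd f d ≤ W → W ≤ Rd K n d →
    Module.finrank K (Rd K n 2) ≤ Module.finrank K (orth f 2 W) + N → Good f d W

/-! ## A. Regular sequences -/

/-- ACY. Acyclicity: for two regular sequences `f` (length `m`) and `g` (length `k`) the Koszul
cohomology of `f` on `R / J g` vanishes in the levels `i < m - k`. PROOF. Induction on `k`.
`k = 0`: `J g = ⊥`. For `j ≤ m` let `U_j = {t | t < j}`; `Ex ⊥ f U_j i` for `i < j` by induction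
on `j`, `U_{j+1} = insert t0 U_j` with `t0 = j` and T_CONE: (A) is the induction hypothesis; (B): if
`i < j` drop the extra hypothesis; if `i = j` only `T = U_j` matters, `f t0 * c U_j = cob f b U_j`
is in the ideal of the `f t`, `t < t0`, so `c U_j` is (`CI.reg`), and every element of this ideal
is `cob f b' U_j` for some `b'` (`Pool/Agent/EGU/P_BASE.lean`: `BASE_.cob_mem`,
`BASE_.exists_cob`, `BASE_.part1` is the same argument).
Step: `g' = g ∘ castSucc`, `γ = g (last)` (T_CIR). `i + k + 1 < m`, `cob f c T ∈ J g` for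
`#T = i+1`. Write `cob f c T - γ * b T ∈ J g'` for `#T = i+1` (`J g = J g' ⊔ span {γ}`; choose
`b T = 0` for other `T`). For `#T = i+2`: `0 = cob (cob c) T`, so `γ * cob f b T ∈ J g'` (T_COB),
`cob f b T ∈ J g'` (T_CIR). `Ex (J g') f univ (i+1)` (`i + 1 + k < m`) gives `b'` with
`b T - cob f b' T ∈ J g'` for `#T = i+1`. So `c - γ b'` is a cocycle of level `i` modulo `J g'`;
`Ex (J g') f univ i` gives `b''` with `c T - γ b' T - cob f b'' T ∈ J g'`, `#T = i`, and
`γ b' T ∈ J g`. -/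
def T_ACY : Prop := ∀ (K : Type u) [Field K] (n m k : ℕ) (f : Fin m → R K n) (a : Fin m → ℕ)
  (g : Fin k → R K n) (b : Fin k → ℕ), CI f a → CI g b → ∀ i, i + k < m →
  Ex (J g) f Finset.univ i

/-- AVO. Prime avoidance for linear spaces. PROOF. `R / I` is a noetherian module over `R`. The set
of zero divisors on `R / I` is the union of the finitely many associated primes
(`biUnion_associatedPrimes_eq_zero_divisors`, `associatedPrimes.finite`). So `V` is the union of its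
subspaces `V ∩ P`; a vector space over an infinite field is not a finite union of proper subspaces
(`Submodule.iUnion_ne_univ_of_forall_ne_top`, `Subspace.biUnion_ne_univ_of_top_notMem` or similar),
so `V ≤ P` for one associated prime `P`, the annihilator of the class of some `h ∉ I`. -/
def T_AVO : Prop := ∀ (K : Type u) [Field K] [Infinite K] (n : ℕ) (I : Ideal (R K n))
  (V : Submodule K (R K n)), (∀ v ∈ V, ∃ h, h ∉ I ∧ v * h ∈ I) → ∃ h, h ∉ I ∧ ∀ v ∈ V, v * h ∈ I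

/-- RES. A linear form `l ≠ 0` can be completed by quadrics in `J f` to a regular sequence. PROOF.
For `k ≤ n` construct `g : Fin (k+1) → R` with `g 0 = l`, `CI g (Fin.cons 1 (tw k))`, and
`g (succ i) ∈ J f`, induction on `k`. `k = 0`: `l` is a nonzerodivisor. Step: `V` = the span of the
`f i` (all of degree `2`). If every `v ∈ V` is a zero divisor modulo `J g` then by T_AVO there is
`h ∉ J g` with `f i * h ∈ J g` for all `i`; but T_ACY with `i = 0` (`k + 1 < n + 1`, the cochain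
`c T = h`: `cob f c {t} = f t * h`, and `cob f b ∅ = 0`) gives `h ∈ J g`. So some `v ∈ V` is a
nonzerodivisor modulo `J g`; take `Fin.snoc g v` (T_CIR; `Fin.snoc (Fin.cons 1 (tw k)) 2` is
`Fin.cons 1 (tw (k+1))`). -/
def T_RES : Prop := ∀ (K : Type u) [Field K] [Infinite K] (n : ℕ) (f : Fin (n + 1) → R K (n + 1)),
  CI f (tw (n + 1)) → ∀ l ∈ Rd K (n + 1) 1, l ≠ 0 →
  ∃ g : Fin (n + 1) → R K (n + 1), g 0 = l ∧ CI g (Fin.cons 1 (tw n)) ∧
    ∀ i : Fin n, g i.succ ∈ J f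

/-- RED. Elimination of the linear form `g 0`. PROOF. `g 0 = ∑ c_i X_i` with `c_{i0} ≠ 0`
(`g 0 ≠ 0` by `CI.reg` for `j = 0`, `p = 1`). Let `θ X_{i0.succAbove j} = X_j`,
`θ X_{i0} = - c_{i0}⁻¹ ∑_j c_{i0.succAbove j} X_j`, `σ X_j = X_{i0.succAbove j}` (`aeval`). Then
`θ (σ q) = q`, `θ (g 0) = 0` and `p - σ (θ p) ∈ span {g 0}` for all `p` (it holds for the
variables and the set of such `p` is a subalgebra: two algebra maps to the quotient agree). All
maps preserve degrees. `J g̃ = map θ (J g)` for `g̃ i = θ (g i.succ)`. `p ∈ J g ↔ θ p ∈ J g̃`: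
if `θ p = ∑ r_i g̃ i` then `p ≡ σ (θ p) = ∑ σ r_i * σ (θ (g i.succ)) ≡ ∑ σ r_i * g i.succ` modulo
`g 0`. The same for the initial parts: `p ∈ span (g '' {i | i < j.succ}) ↔ θ p ∈ span (g̃ '' {i |
i < j})`; so `CI g̃ b`. -/
def T_RED : Prop := ∀ (K : Type u) [Field K] (n : ℕ) (b : Fin n → ℕ)
  (g : Fin (n + 1) → R K (n + 1)), CI g (Fin.cons 1 b) →
  ∃ θ : R K (n + 1) →ₐ[K] R K n,
    (∀ d, ∀ p ∈ Rd K (n + 1) d, θ p ∈ Rd K n d) ∧
    (∀ d, ∀ q ∈ Rd K n d, ∃ p ∈ Rd K (n + 1) d, θ p = q) ∧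
    CI (fun i : Fin n => θ (g i.succ)) b ∧
    ∀ p, p ∈ J g ↔ θ p ∈ J (fun i : Fin n => θ (g i.succ))

/-- TRW. Transport of `W` by the map `θ` of T_RED. PROOF. For `U` with `J_e g ≤ U ≤ R_e` the kernel
of `θ` on `U` is contained in `J_e g`; `θ (J_e g) = J_e g̃` (surjectivity of `θ : R_e → R_e` and
`p ∈ J g ↔ θ p ∈ J g̃`); so `dim U - dim J_e g = dim θ U - dim J_e g̃`. Apply this to `U = W`,
`U = R_e`, `U = up g d W` (`θ (R_1 W) = R_1 θ W`, so `θ (up g d W) = up g̃ d (θ W)`), and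
`U = orth g e W` (`θ (orth g e W) = orth g̃ e (θ W)`). -/
def T_TRW : Prop := ∀ (K : Type u) [Field K] (n : ℕ) (b : Fin n → ℕ)
  (g : Fin (n + 1) → R K (n + 1)), CI g (Fin.cons 1 b) →
  ∀ θ : R K (n + 1) →ₐ[K] R K n,
    (∀ d, ∀ p ∈ Rd K (n + 1) d, θ p ∈ Rd K n d) →
    (∀ d, ∀ q ∈ Rd K n d, ∃ p ∈ Rd K (n + 1) d, θ p = q) →
    CI (fun i : Fin n => θ (g i.succ)) b →
    (∀ p, p ∈ J g ↔ θ p ∈ J (fun i : Fin n => θ (g i.succ))) →
    ∀ (d : ℕ) (W : Submodule K (R K (n + 1))), Jd g d ≤ W → W ≤ Rd K (n + 1) d →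
    Jd (fun i : Fin n => θ (g i.succ)) d ≤ W.map θ.toLinearMap ∧
    W.map θ.toLinearMap ≤ Rd K n d ∧
    Module.finrank K (W.map θ.toLinearMap) + Module.finrank K (Jd g d) =
      Module.finrank K (Jd (fun i : Fin n => θ (g i.succ)) d) + Module.finrank K W ∧
    Module.finrank K (up (fun i : Fin n => θ (g i.succ)) d (W.map θ.toLinearMap)) +
      Module.finrank K (Jd g (d + 1)) =
      Module.finrank K (Jd (fun i : Fin n => θ (g i.succ)) (d + 1)) +
        Module.finrank K (up g d W) ∧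
    ∀ e, Module.finrank K (orth (fun i : Fin n => θ (g i.succ)) e (W.map θ.toLinearMap)) +
      Module.finrank K (Rd K (n + 1) e) =
      Module.finrank K (Rd K n e) + Module.finrank K (orth g e W)

/-- SOK. Iterated socle and top degrees. PROOF. First part: induction on `k` with T_SOC: for
`h ∈ R_k`, `(X_j h) p ∈ J`, so `h (X_j p) ∈ J` for all `h ∈ R_k`; `X_j p ∈ J` by induction
(degree `e + 1`), so `p ∈ J` by T_SOC. Second part: `a_hf` and `Std a e = ∅` (T_STD) give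
`dim J_e = dim R_e`. -/
def T_SOK : Prop := ∀ (K : Type u) [Field K] (n : ℕ) (f : Fin n → R K n) (a : Fin n → ℕ),
  CI f a → Monotone a →
  (∀ k e, e + k ≤ S a n → ∀ p ∈ Rd K n e, (∀ h ∈ Rd K n k, h * p ∈ J f) → p ∈ J f) ∧
  ∀ e, S a n < e → Jd f e = Rd K n e

/-- DUA. The linked space. PROOF. `S a n = s`, `d + d' + 1 = s`, `W' = orth f d' (up f d W)`.
Inclusions: T_UPL. `a_perf` for `up f d W` in degree `d + 1` and for `W` in degree `d`:
`dim W' + dim (up W) = dim J_{d'} + dim R_{d+1}`;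
`dim (orth f (d'+1) W) + dim W = dim J_{d'+1} + dim R_d`, and
`up f d' W' ≤ orth f (d'+1) W` (for `l ∈ R_1`, `h ∈ W'`, `w ∈ W`: `(l h) w = h (l w) ∈ J`). -/
def T_DUA : Prop := ∀ (K : Type u) [Field K] (n : ℕ) (f : Fin n → R K n) (a : Fin n → ℕ),
  CI f a → Monotone a → ∀ (d d' : ℕ), d + d' + 1 = S a n → ∀ W : Submodule K (R K n),
  Jd f d ≤ W → W ≤ Rd K n d →
  Jd f d' ≤ orth f d' (up f d W) ∧ orth f d' (up f d W) ≤ Rd K n d' ∧
  Module.finrank K (orth f d' (up f d W)) + Module.finrank K (up f d W) =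
    Module.finrank K (Jd f d') + Module.finrank K (Rd K n (d + 1)) ∧
  Module.finrank K (up f d' (orth f d' (up f d W))) + Module.finrank K W ≤
    Module.finrank K (Jd f (d' + 1)) + Module.finrank K (Rd K n d)

/-- MTW. The dimension of `R_2 / (J : W)_2`. PROOF. First: `a_perf` with `e = d`, `e' = 2`, and
`dim R_d - dim J_d = dim R_2 - dim J_2` (`a_hf`, T_STD). Second: `a_perf` with `e = d + 1`, `e' = 2`
for `up f d W`; `orth f 2 (up f d W) ≤ orth f 2 W` by T_SOC (if `h (l w) ∈ J` for all `l ∈ R_1` then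
`h w ∈ J`, its degree is `d + 2 < S a n`). Third: `R_{d+2} = J_{d+2}` (T_SOK). -/
def T_MTW : Prop := ∀ (K : Type u) [Field K] (n : ℕ) (f : Fin n → R K n) (a : Fin n → ℕ),
  CI f a → Monotone a → ∀ (d : ℕ) (W : Submodule K (R K n)), Jd f d ≤ W → W ≤ Rd K n d →
  (d + 2 = S a n → Module.finrank K (Rd K n 2) + Module.finrank K (Jd f d) ≤
    Module.finrank K (orth f 2 W) + Module.finrank K W) ∧
  (d + 3 = S a n → Module.finrank K (Rd K n 2) + Module.finrank K (Jd f (d + 1)) ≤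
    Module.finrank K (orth f 2 W) + Module.finrank K (up f d W)) ∧
  (S a n < d + 2 → orth f 2 W = Rd K n 2)

/-- TLG. The tail space modulo `g`. Here `s = S a (n+1)`, `S b (n+1) = s - 1`
(`b = Fin.cons 1 (tw n)`, `a = tw (n+1)`: `s = n + 1`). PROOF. If `n < d`: `W = J_{d+1} f` by T_SOK;
take `W' = J_d g`, `up g d W' = J_{d+1} g` (T_UPL); `orth g 2 (J_d g) = R_2`. Let `d ≤ n`,
`e = n - d`, `Q_i = orth f i W`; `(J g)_i ≤ Q_i` since `g 0` kills `W` and the other `g i` are in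
`J f`. `W' = orth g d Q_e`. Dimension: `a_perf` for `g` (`e + d = n`) and for `f`
(`e + (d + 1) = n + 1`), with `a_hf` and T_STD: `dim W' - dim J_d g = dim R_e - dim Q_e =
dim W - dim J_{d+1} f`. Growth: if `e = 0` then `up g d W' ≤ R_{n+1} = J_{n+1} g` (T_SOK). If
`e ≥ 1`: `up g d W' ≤ orth g (d+1) Q_{e-1}` (for `q ∈ Q_{e-1}`, `l ∈ R_1`, `l q ∈ Q_e`), whose
dimension is `dim J_{d+1} g + dim R_{e-1} - dim Q_{e-1}` (`a_perf`), and
`Q_{e-1} = orth f (e-1) (up f (d+1) W)` (T_SOK with `k = 1`: the degree of `h w` is `n < s`), so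
`dim R_{e-1} - dim Q_{e-1} = dim (up f (d+1) W) - dim J_{d+2} f`. Last part: let `h ∈ orth f 2 W`,
`w ∈ W'`. If `d + 2 ≤ n`: for `b ∈ R_{n-d-2}`: `b h ∈ Q_e`, so `b (h w) = (b h) w ∈ J g`, and
`h w ∈ J g` by T_SOK. If `d + 2 > n`: `R_{d+2} = J_{d+2} g`. So `orth f 2 W ≤ orth g 2 W'`. -/
def T_TLG : Prop := ∀ (K : Type u) [Field K] (n : ℕ) (f g : Fin (n + 1) → R K (n + 1)),
  CI f (tw (n + 1)) → CI g (Fin.cons 1 (tw n)) → (∀ i : Fin n, g i.succ ∈ J f) →
  ∀ (d : ℕ) (W : Submodule K (R K (n + 1))), Jd f (d + 1) ≤ W → W ≤ Rd K (n + 1) (d + 1) →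
  (∀ w ∈ W, g 0 * w ∈ J f) →
  ∃ W' : Submodule K (R K (n + 1)), Jd g d ≤ W' ∧ W' ≤ Rd K (n + 1) d ∧
    Module.finrank K W' + Module.finrank K (Jd f (d + 1)) =
      Module.finrank K (Jd g d) + Module.finrank K W ∧
    Module.finrank K (up g d W') + Module.finrank K (Jd f (d + 2)) ≤
      Module.finrank K (Jd g (d + 1)) + Module.finrank K (up f (d + 1) W) ∧
    Module.finrank K (orth f 2 W) ≤ Module.finrank K (orth g 2 W')

/-- TAI. The tail lemma. PROOF. T_RES gives `g`, T_TLG gives `W'`, T_RED and T_TRW transport it to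
`n` variables, `EQ K n d N` applies to the image; `Sh` is monotone in its last argument
(`finrank_map_le`, numbers). -/
def T_TAI : Prop := ∀ (K : Type u) [Field K] [Infinite K] (n d N : ℕ), EQ K n d N →
  ∀ f : Fin (n + 1) → R K (n + 1), CI f (tw (n + 1)) → ∀ W : Submodule K (R K (n + 1)),
  Jd f (d + 1) ≤ W → W ≤ Rd K (n + 1) (d + 1) → ∀ l ∈ Rd K (n + 1) 1, l ≠ 0 →
  (∀ w ∈ W, l * w ∈ J f) →
  Module.finrank K (Rd K (n + 1) 2) ≤ Module.finrank K (orth f 2 W) + N →
  Sh (tw n) d (Module.finrank K W - Module.finrank K (Jd f (d + 1)))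
    (Module.finrank K (up f (d + 1) W) - Module.finrank K (Jd f (d + 2)))

/-! ## B. Bilinear forms -/

/-- The bilinear forms `β_k = ∑ b_{ijk} X_i Y_j`. -/
def bil {K : Type u} [Field K] {p q c : ℕ} (b : Fin p → Fin q → Fin c → K) (k : Fin c) :
    MvPolynomial (Fin p ⊕ Fin q) K :=
  ∑ i, ∑ j, MvPolynomial.C (b i j k) * (MvPolynomial.X (Sum.inl i) * MvPolynomial.X (Sum.inr j))

/-- BLN. Nullstellensatz. PROOF. If `x ≠ 0` and `y ≠ 0` are not a
common zero then `X_i Y_j` vanishes on the zero locus of the ideal `I = (β k)`, so it is in the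
radical of `I` (`MvPolynomial.vanishingIdeal_zeroLocus_eq_radical`); take a common exponent. -/
def T_BLN : Prop := ∀ (K : Type u) [Field K] [IsAlgClosed K] (p q c : ℕ)
  (b : Fin p → Fin q → Fin c → K),
  (∀ (x : Fin p → K) (y : Fin q → K), (∀ k, ∑ i, ∑ j, b i j k * (x i * y j) = 0) →
    x = 0 ∨ y = 0) →
  ∃ N : ℕ, ∀ (i : Fin p) (j : Fin q),
    (MvPolynomial.X (Sum.inl i) * MvPolynomial.X (Sum.inr j) : MvPolynomial (Fin p ⊕ Fin q) K) ^ N ∈
      Ideal.span (Set.range (bil b))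

/-- BLC. Counting. PROOF. Let `T_j` be the span of the monomials of bidegree `(j, j)` (weights in
`ℕ × ℕ`, `weightedHomogeneousSubmodule`). (1) For `j ≥ j0 = N (p + q) + 1`: `T_j ≤ ∑_k β_k T_{j-1}`:
a monomial of bidegree `(j, j)` has some `X_i`-exponent `≥ N` and some `Y_k`-exponent `≥ N`, so it
is in the ideal, `= ∑ h_k β_k`, and one may replace `h_k` by its component of bidegree
`(j-1, j-1)`. (2) So `T_{j0+i}` is spanned by the products `β^m t`, `|m| = i`, `t` a monomial of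
`T_{j0}`: its dimension is at most `D * (i + 1)^(c-1)` for `c ≥ 1` (an exponent vector `m` in
`ℕ^c` with `|m| = i` is determined by its first `c - 1` entries, in `0, ..., i`), `D` the number
of monomials in `T_{j0}`; `c = 0`: `T_j = 0`, but `X_0^j Y_0^j ∈ T_j`. (3) The number of monomials
in `T_j`, `j = p q t`, is at least `(t + 1)^(p-1) (t + 1)^(q-1)` (all exponents but one are chosen
in `0, ..., t`, the last one is what remains). If `c + 2 ≤ p + q`, take `i = j - j0`, `t` large: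
`(t+1)^(p+q-2) ≤ D (p q t + 1)^(c-1) ≤ D (p q)^(c-1) (t + 1)^(c-1)`, a contradiction for large `t`.
(Another way: by (1) the elements `X_i Y_0`, `X_0 Y_j` (`p + q - 1` of them, algebraically
independent) are integral over `K[β_1, ..., β_c]`, so `p + q - 1 ≤ c` by the transcendence
degree.) -/
def T_BLC : Prop := ∀ (K : Type u) [Field K] (p q c N : ℕ) (b : Fin p → Fin q → Fin c → K),
  1 ≤ p → 1 ≤ q →
  (∀ (i : Fin p) (j : Fin q),
    (MvPolynomial.X (Sum.inl i) * MvPolynomial.X (Sum.inr j) : MvPolynomial (Fin p ⊕ Fin q) K) ^ N ∈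
      Ideal.span (Set.range (bil b))) →
  p + q ≤ c + 1

/-! ## C. Lemma G: growth of a hyperplane -/

/-- KSP. The Koszul cohomology of linear forms which span `R_1` vanishes in all levels in positive
degrees of the values. PROOF. Choose `U0` with `l` a basis of `R_1` on `U0` (as in
`Pool/Agent/EGU/P_BASE.lean`). Let `E U` be the statement for cochains on `U` (all `T ⊆ U`). (1)
`E U0`. Level `j < #U0`: `BASE_.part1`, then take components of degree `e` of `b`. Level `j = #U0`: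
`c U0 ∈ R_{e+1}` is in the ideal of the `l t`, `t ∈ U0`, so `c U0 = ∑ l t * b_t` with `b_t ∈ R_e`
(`BASE_.exists_cob`). Level `j > #U0`: nothing to prove. (2) `E U → E (insert t0 U)` for `t0 ∉ U`,
the proof of T_CONE with degrees: `c` restricted to `U` is a cocycle of level `j` on `U`, so
`c T = cob b T` for `T ⊆ U`, `#T = j`; put `b T = 0` for `t0 ∈ T`; subtract `cob b`. Now
`c T = 0` for `T ⊆ U`, `#T = j` (if `j = 0` we are done). By the rule in T_COB
`c1 T = (-1)^#{u ∈ T : u < t0} * c (insert t0 T)` is a cocycle of level `j - 1` on `U` with values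
in `R_{e+1}`, `c1 = cob b1` there, and `b2 T = - (-1)^#{u ∈ T.erase t0 : u < t0} * b1 (T.erase t0)`
for `t0 ∈ T`, `0` otherwise, has `cob b2 = c`. -/
def T_KSP : Prop := ∀ (K : Type u) [Field K] (n s : ℕ) (l : Fin s → R K n),
  (∀ t, l t ∈ Rd K n 1) → Rd K n 1 ≤ Submodule.span K (Set.range l) →
  ∀ (j e : ℕ) (c : Finset (Fin s) → R K n), (∀ T, c T ∈ Rd K n (e + 1)) →
  (∀ T, T.card = j + 1 → cob l c T = 0) →
  ∃ b : Finset (Fin s) → R K n, (∀ T, b T ∈ Rd K n e) ∧ ∀ T, T.card = j → c T = cob l b T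

/-- GEN. Matrices of linear forms which are surjective at every point. PROOF. Apply `a_lin` to:
`V 0 = PUnit`, `V (i+1)` = the dual space of `C_i` = functions on
`{T : Finset (Fin s) // T.card + i = s}` with values in `Rm K n v i` (degree `v - i`, zero for
`i > v`); `D 0 = 0`, `D (i+1) k` = the transpose of `δ_k : C_{i+1} → C_i`, the Koszul coboundary
`cob` with the elements `t ↦ x t k`. Then `∑ p_k D_k` is the transpose of the coboundary with
`l_t = ∑_k p_k x t k`. `Sys`: `zero`; `sq` from `cob_cob` (T_COB); `ex` for `p ≠ 0`, `i < v`: the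
`l_t` span `R_1`; T_KSP (values of degree `v - i ≥ 1`) says that the kernel of `C_i → C_{i-1}`
is the image of `C_{i+1} → C_i` (for `i = 0`: `C_1 → C_0` is surjective); dualize: a functional on
`C_i` which vanishes on the image of `C_{i+1}`, i.e. on the kernel of `C_i → C_{i-1}`, factors
through `C_{i-1}`. Conclusion of `a_lin`: a family `(φ_k)` of functionals on `R_v` (= `C_0`) with
`∑_k φ_k (x t k * g) = 0` for all `t`, `g ∈ R_{v-1}` is zero. So the vectors
`(x t k * g)_k`, `t < s`, `g ∈ R_{v-1}`, span `(R_v)^v`. -/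
def T_GEN : Prop := ∀ (K : Type u) [Field K] [IsAlgClosed K] (n s v : ℕ), 1 ≤ v →
  ∀ x : Fin s → Fin v → R K n, (∀ t k, x t k ∈ Rd K n 1) →
  (∀ p : Fin v → K, p ≠ 0 →
    Rd K n 1 ≤ Submodule.span K (Set.range fun t => ∑ k, p k • x t k)) →
  ∀ h : Fin v → R K n, (∀ k, h k ∈ Rd K n v) →
  ∃ g : Fin s → R K n, (∀ t, g t ∈ Rd K n (v - 1)) ∧ ∀ k, h k = ∑ t, x t k * g t

/-- GRW. Lemma G. PROOF. Basis `w` of `W` modulo `J_d` (`a_basis`), `v ≥ 1`. Suppose that
`L f w p = R_1` for all `p ≠ 0`. Let `x_1, ..., x_s` be a basis of `Sig f w`. By T_GEN for every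
`k0` and `h ∈ R_v` there are `g_t` with `∑_t x_t k * g_t = h` for `k = k0`, `= 0` for `k ≠ k0`. So
`h w_{k0} = ∑_t g_t ∑_k x_t k * w_k ∈ J`; T_SOK (`d + v ≤ S a n`) gives `w_{k0} ∈ J`, a
contradiction. So `dim L_p < n` for some `p ≠ 0`, and `a_hyp` gives the claim for
`W' = Wp f d w p`. -/
def T_GRW : Prop := ∀ (K : Type u) [Field K] [IsAlgClosed K] (n d v : ℕ) (f : Fin n → R K n)
  (a : Fin n → ℕ), CI f a → Monotone a → 1 ≤ v → d + v ≤ S a n → ∀ W : Submodule K (R K n),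
  Jd f d ≤ W → W ≤ Rd K n d → Module.finrank K W = Module.finrank K (Jd f d) + v →
  ∃ W' : Submodule K (R K n), Jd f d ≤ W' ∧ W' ≤ W ∧
    Module.finrank K W' + 1 = Module.finrank K W ∧
    Module.finrank K (up f d W') + 1 ≤ Module.finrank K (up f d W)

/-! ## D. Squarefree monomials -/

/-- KKM. Kruskal-Katona for the shadow of squarefree monomials. PROOF. `x ∈ Std (tw n) d` has
entries `0, 1`; let `φ x` be the complement of the image of the support of `x` under `Fin.rev`, a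
set with `n - d` elements; `φ` is injective, and onto the sets with `n - d` elements. `lexgt x y`
(first difference at `j`, `x j = 1`, `y j = 0`) iff `φ x` is smaller than `φ y` in the
colexicographic order (`Colex.toColex_lt_toColex_iff_max'_mem` or `Finset.Colex.lt_iff...`: the
largest element of the symmetric difference is in `φ y`). So the image of an initial segment is
`Finset.Colex.IsInitSeg _ (n - d)`. An element of `shadow (tw n) d F` is `y + e_k`, `y ∈ F`,
`k` not in the support of `y`, and `φ (y + e_k)` is `φ y` with one element removed: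
`φ (shadow F) = ∂ (φ F)` (`Finset.shadow`). Then `Finset.kruskal_katona`. -/
def T_KKM : Prop := ∀ (n d : ℕ) (F M : Finset (Fin n →₀ ℕ)), F ⊆ Std (tw n) d →
  IsSeg (tw n) d M → M.card ≤ F.card → (shadow (tw n) d M).card ≤ (shadow (tw n) d F).card

/-- KKC. The combination of the tails. PROOF. `M0`, `M1` initial segments of `Std (tw n) d` and
`Std (tw n) (d+1)` from the hypotheses (sizes `k0`, `k1`). For `ε ∈ {0, 1}` and `y : Fin n →₀ ℕ` let
`(ε, y) = Finsupp.cons ε y`. `F = {(1, y) : y ∈ M0} ∪ {(0, y) : y ∈ M1} ⊆ Std (tw (n+1)) (d+1)` has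
`k0 + k1` elements, and its shadow is contained in
`{(1, z) : z ∈ shadow M0 ∪ M1} ∪ {(0, z) : z ∈ shadow M1}`. `shadow M0` and `M1` are initial
segments of `Std (tw n) (d+1)` (T_SEGB), so nested (T_SEGA), and their union has at most
`max u0 k1` elements. T_KKM for the initial segment of size `k0 + k1` (T_SEGA). -/
def T_KKC : Prop := ∀ (n d k0 k1 u0 u1 : ℕ), Sh (tw n) d k0 u0 → Sh (tw n) (d + 1) k1 u1 →
  Sh (tw (n + 1)) (d + 1) (k0 + k1) (max u0 k1 + u1)

/-- SHQ. Small initial segments. PROOF. `M` = the sets `{0, ..., d-2} ∪ {j}` with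
`d - 1 ≤ j < d - 1 + v` (indices `0, ..., n-1`, a set stands for its indicator vector). Initial
segment: if `y` is standard and greater than such an element, first difference at `i`, then
`i ≥ d - 1` (the elements `0, ..., d-2` are in both), so `y = {0, ..., d-2} ∪ {j'}` with `j' < j`. The shadow consists of the
sets `{0, ..., d-2} ∪ {j, k}` with `d - 1 ≤ j < d - 1 + v`, `j < k < n` (if `k < j` exchange them):
`∑_{i < v} (n - d - i)` elements. -/
def T_SHQ : Prop := ∀ (n d v : ℕ), 1 ≤ d → v + d ≤ n + 1 →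
  ∃ M, IsSeg (tw n) d M ∧ M.card = v ∧ (shadow (tw n) d M).card + v.choose 2 = v * (n - d)

/-! ## E. The main step -/

/-- SP2. Splitting by two linear forms with `l * l' * W ⊆ J`. PROOF. Multiplication by `l` from
`up f d W` onto `up f (d+1) (mulW f d l W)` modulo `J_{d+2}` (as in T_SPLIT, see
`Pool/Agent/EGU/P_SPLIT.lean`): its kernel contains `mulW f d l' W` (contained in `up f d W` by
T_UPL). The first formula is T_SPLIT for `l'`. -/
def T_SP2 : Prop := ∀ (K : Type u) [Field K] (n m : ℕ) (f : Fin m → R K n) (a : Fin m → ℕ),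
  (∀ i, (f i).IsHomogeneous (a i)) → ∀ (d : ℕ) (W : Submodule K (R K n)), Jd f d ≤ W →
  W ≤ Rd K n d → ∀ l ∈ Rd K n 1, ∀ l' ∈ Rd K n 1, (∀ w ∈ W, l * (l' * w) ∈ J f) →
  Module.finrank K (mulW f d l' W) + Module.finrank K (up f (d + 1) (mulW f d l W)) ≤
    Module.finrank K (up f d W) + Module.finrank K (Jd f (d + 2))

/-- PRD. A product of two linear forms in `(J : W)_2`. PROOF. `c = dim R_2 - dim (orth f 2 W) ≤ N`.
Choose `c` linear functionals `λ_k` on the polynomial ring whose common kernel in `R_2` is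
`orth f 2 W`. `b i j k = λ_k (X_i X_j)`. If there were no `x ≠ 0`, `y ≠ 0` with
`∑ b i j k x_i y_j = 0` for all `k`, then T_BLN and T_BLC give `2 (n + 1) ≤ c + 1 ≤ 2 n + 1`. Take
`l = ∑ x_i X_i`, `l' = ∑ y_j X_j`: `λ_k (l l') = 0` for all `k`, `l l' ∈ R_2`. -/
def T_PRD : Prop := ∀ (K : Type u) [Field K] [IsAlgClosed K] (n : ℕ)
  (f : Fin (n + 1) → R K (n + 1)) (W : Submodule K (R K (n + 1))),
  Module.finrank K (Rd K (n + 1) 2) ≤ Module.finrank K (orth f 2 W) + 2 * n →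
  ∃ l ∈ Rd K (n + 1) 1, ∃ l' ∈ Rd K (n + 1) 1, l ≠ 0 ∧ l' ≠ 0 ∧ ∀ w ∈ W, l * (l' * w) ∈ J f

/-- PST. The main step. PROOF. `d = 0`: `J_0 = ⊥`; if `dim W = 0` then the empty segment; otherwise
`W = R_0`, `up f 0 W = R_1`, `J_1 = ⊥`, and T_SH1 with `p = 0`. `d = e + 1`: T_PRD (`N ≤ 2 n`)
gives `l`, `l'`; by symmetry let `dim (kerW f l W) ≥ dim (kerW f l' W)`. With
`k0 = dim (kerW f l W) - dim J_{e+1}`, `k1 = dim (mulW f (e+1) l W) - dim J_{e+2}`:
`k0 + k1 = dim W - dim J_{e+1}` (T_SPLIT). T_TAI for `kerW f l W` (killed by `l`, degree `e+1`)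
and `EQ K n e N`: `Sh (tw n) e k0 u0`; T_TAI for `mulW f (e+1) l W` (killed by `l'`, degree
`e+2`) and `EQ K n (e+1) N`: `Sh (tw n) (e+1) k1 u1`. (`orth f 2 W ≤ orth f 2 (kerW ..)` and
`≤ orth f 2 (mulW ..)`.) T_KKC: `Sh (tw (n+1)) (e+1) (k0 + k1) (max u0 k1 + u1)`. T_SPLIT gives
`u0 + u1 ≤ u`, T_SP2 gives `(dim (mulW f (e+1) l' W) - dim J_{e+2}) + u1 ≤ u`, and
`dim (mulW f (e+1) l' W) ≥ dim (mulW f (e+1) l W)` by T_SPLIT and the choice of `l`. -/
def T_PST : Prop := ∀ (K : Type u) [Field K] [IsAlgClosed K] (n N : ℕ), N ≤ 2 * n →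
  (∀ d, EQ K n d N) → ∀ d, EQ K (n + 1) d N

/-- NET. Growth of the nets of degree `2` modulo six quadrics. PROOF. CASE 1: there are `l ∈ R_1`,
`l ≠ 0`, and `w ∈ W`, `w ∉ J`, `l w ∈ J`. Let `κ = dim (kerW f l W) - dim J_2 ∈ {1, 2, 3}`. `κ = 3`:
`kerW = W`, T_TAI with `EQ K 5 1 N` (`N = dim R_2`): `Sh (tw 5) 1 3 u`; T_SHQ with
`n = 5`, `d = 1`, `v = 3` and T_SEGA: `9 ≤ u`. `κ = 2`: T_SPLIT, `growV2` (`n = 6`, `p = 2`) for
`kerW`: `7`; `a_grow` for `mulW`, dimension `1` in degree `3`: `3`. `κ = 1`: T_SPLIT, `a_grow` for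
`kerW`: `4`; `growV2` (`d = 3`, `p = 3`) for `mulW`: `5`. CASE 2: no such pair. Then `Ann1 f w = 0`
for all `w ∈ W`, `w ∉ J`. T_GRW (`2 + 3 ≤ 6`) gives `W'` of dimension `2` with
`dim up W' + 1 ≤ dim up W`, and T_UNI with `v = 1`, `t = 0`: the growth of `W'` is at least
`6 + (6 - (1 + P a 3)) = 8` (`P (tw 6) 3 = 3`). -/
def T_NET : Prop := ∀ (K : Type u) [Field K] [IsAlgClosed K], (∀ N, EQ K 5 1 N) →
  ∀ f : Fin 6 → R K 6, CI f (tw 6) → Grow f 2 3 9

/-- WEB. From T_GRW (`2 + 4 ≤ 6`) and T_NET. -/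
def T_WEB : Prop := ∀ (K : Type u) [Field K] [IsAlgClosed K], (∀ N, EQ K 5 1 N) →
  ∀ f : Fin 6 → R K 6, CI f (tw 6) → Grow f 2 4 10

/-- BCE. Base change. PROOF. `Pool/Agent/EGU/P_BC2.lean`: for `W` over `K` the space `ext E W` over
`E` has the same dimension, `up (f_E) d (ext E W) ≤ ext E (up f d W)`, `ext E (Jd f d) = Jd f_E d`,
`ext E (Rd K n d) = Rd E n d`; moreover `ext E (orth f 2 W) ≤ orth f_E 2 (ext E W)`. `CI f_E` by
`t_bc1`. -/
def T_BCE : Prop := ∀ (K E : Type u) [Field K] [Field E] [Algebra K E] (n d N : ℕ),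
  EQ E n d N → EQ K n d N

/-- IDL. From the growth inequality to ideals. PROOF. `v_e = vI f I e`, `q_e = qI I e`
(`Pool/Agent/EGU/Final.lean`), `v_e + q_e = (Std (tw n) e).card` (`basic`, `a_hf`). If `n ≤ d`:
`Std (tw n) (d+1) = ∅` (T_STD), the initial segment of size `v_d` exists (T_SEGA) and has an empty
shadow. If `d < n`, `d + d' + 1 = n`: `W' = orth f d' I_{d+1}`, `I_e = Rd K n e ⊓ I`. `a_perf`:
`dim W' = dim J_{d'} + q_{d+1}`; `up f d' W' ≤ orth f (d'+1) I_d`, so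
`dim (up f d' W') ≤ dim J_{d'+1} + q_d` (see `q_grow`). `I_2 ≤ orth f 2 W'`: let `h ∈ I_2`,
`w ∈ W'`; if `d' + 2 ≤ n` then for `b ∈ R_{n-d'-2}`: `b h ∈ I_{d+1}` (`d + 1 = 2 + (n - d' - 2)`) so
`(b h) w ∈ J` and `h w ∈ J` by T_SOK; otherwise `R_{d'+2} = J_{d'+2}`. So `EQ K n d' N` gives
`Sh (tw n) d' q_{d+1} q_d`, and `a_shd` gives `Sh (tw n) d v_d v_{d+1}`. -/
def T_IDL : Prop := ∀ (K : Type u) [Field K] (n N : ℕ), (∀ d, EQ K n d N) →
  ∀ f : Fin n → R K n, CI f (tw n) → ∀ I : Ideal (R K n), (∀ i, f i ∈ I) →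
  Module.finrank K (Rd K n 2) ≤ Module.finrank K ↥(Rd K n 2 ⊓ I.restrictScalars K) + N →
  ∀ d, Sh (tw n) d (vI f I d) (vI f I (d + 1))

/-- IDM. From the growth inequality to ideals, second condition. PROOF. `I_e = Rd K n e ⊓ I`,
`W = I_d`. CLAIM `dim R_2 ≤ dim (orth f 2 I_d) + N`. If `n < d + 2`: `orth f 2 I_d = R_2` (T_MTW).
Let `d + 2 ≤ n`. `orth f 2 I_{n-2} ≤ orth f 2 I_d`: for `h` in the first space, `w ∈ I_d`,
`b ∈ R_{n-2-d}`: `b w ∈ I_{n-2}`, so `b (h w) ∈ J`, and `h w ∈ J` by T_SOK. T_MTW for `I_{n-2}`: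
`dim R_2 + dim J_{n-2} ≤ dim (orth f 2 I_{n-2}) + dim I_{n-2}`. So `EQ K n d N` applies to `I_d`;
`up f d I_d ≤ I_{d+1}` (`up_sub` in `Pool/Agent/EGU/Final.lean`) and `Sh` is monotone in its last
argument (`basic`). -/
def T_IDM : Prop := ∀ (K : Type u) [Field K] (n N : ℕ), 2 ≤ n → (∀ d, EQ K n d N) →
  ∀ f : Fin n → R K n, CI f (tw n) → ∀ I : Ideal (R K n), (∀ i, f i ∈ I) →
  Module.finrank K ↥(Rd K n (n - 2) ⊓ I.restrictScalars K) ≤
    Module.finrank K (Jd f (n - 2)) + N →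
  ∀ d, Sh (tw n) d (vI f I d) (vI f I (d + 1))

/-- ASM. The growth inequality for at most six quadrics. PROOF. Write `EA n d` for
`∀ N, EQ K n d N`. (0) `EA n 0` (as in T_PST), and `EA n d` for `d ≥ n` (`R_{d+1} = J_{d+1}` by
T_SOK; `dim W - dim J_d ≤ 1`, with T_SH1 for `p = n`, and `0` if `d > n`). (1) Duality: `EA n d'`
implies `EA n d` if `d + d' + 1 = n` (T_DUA, `a_shd`, `a_hf`). (2) Induction on `n ≤ 6`, by T_PST
and T_MTW: `Good f d W` if `dim R_2 - dim (orth f 2 W) ≤ 2 (n - 1)`. `d = 1`, `n ≥ 3`: if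
`dim W = 0` trivial. Otherwise `u ≥ n - 1` (`a_grow`), so for the linked space `W'` in degree
`n - 2` (T_DUA) `dim R_2 - dim (orth f 2 W') ≤ dim W' - dim J_{n-2} ≤ n.choose 2 - (n - 1) ≤
2 (n - 1)` by T_MTW; `Good f (n-2) W'`, and `a_shd` gives `Good f 1 W`. `d = n - 2`: duality.
`n = 5`, `d = 2`: `v = 0` trivial; `v = 1`: `a_grow` and T_SH1; `v ≥ 2`: for the linked space
in degree `2`: `dim R_2 - dim (orth f 2 W') ≤ u' ≤ 10 - v ≤ 8`. `n = 6`, `d = 2`: `v = 0`; `v = 1`: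
`a_grow` (`4`), T_SH1; `v = 2`: `growV2` (`7`), T_SH2; `v = 3`: T_NET, T_SHQ; `v = 4`: T_WEB,
T_SHQ; `v ≥ 5`: for the linked space in degree `3`:
`dim R_2 - dim (orth f 2 W') ≤ u' ≤ 15 - v ≤ 10`. `n = 6`, `d = 3`: duality. -/
def T_ASM : Prop := ∀ (K : Type u) [Field K] [IsAlgClosed K] (n d N : ℕ), n ≤ 6 → EQ K n d N

end

end Pool.Agent.EGS
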